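import Pool.Agent.H2R2.Cov2

/-!
# The covering theorem with a given share
-/

set_option autoImplicit false

noncomputable section

open MeasureTheory Set
open scoped ENNReal Pointwise

namespace Pool.Agent.U330.COV

open Pool.Agent.H2R2.Cov

section Cover

variable {E : Type*} [NormedAddCommGroup E] [NormedSpace ℝ E] [FiniteDimensional ℝ E]

/-- The covering theorem with a share `θ`. -/
theorem cover_theta (K : Set E) (hK : Convex ℝ K) (hKc : IsCompact K)
    (hKi : (interior K).Nonempty) (hd : 1 ≤ Module.finrank ℝ E) (l η θ : ℝ) (hl : 0 < l)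
    (hη : 0 < η) (hθ : 0 < θ)
    (hheavy : ∀ A : Finset E, (∀ x ∈ A, x ∈ K) →
      ∃ t : E, θ * A.card ≤ wt A (fun _ => 1) (l • K) t)
    (hρ : l + η + η * Module.finrank ℝ E < 1) :
    ∃ T : Finset E, K ⊆ ⋃ t ∈ T, (fun x => t + x) '' interior K ∧
      (T.card : ℝ) ≤ 1 + θ⁻¹ * (Module.finrank ℝ E * Real.log (1 + 1 / η)) := by
  classical
  set d := Module.finrank ℝ E with hdd
  have hd0 : (0 : ℝ) < d := by exact_mod_cast hd
  have hθ1 : θ ≤ 1 := by
    obtain ⟨z, hz⟩ := hKi
    obtain ⟨t, ht⟩ := hheavy {z} (by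
      intro x hx
      rw [Finset.mem_singleton] at hx
      rw [hx]
      exact interior_subset hz)
    rw [wt_one] at ht
    have h1 : ((({z} : Finset E).filter (fun x => x - t ∈ l • K)).card : ℝ) ≤ 1 := by
      have := Finset.card_filter_le ({z} : Finset E) (fun x => x - t ∈ l • K)
      rw [Finset.card_singleton] at this
      exact_mod_cast this
    have h2 : θ * (({z} : Finset E).card : ℝ) = θ := by simp
    rw [h2] at ht
    refine ht.trans ?_
    convert h1 using 3
  obtain ⟨c, hc⟩ := exists_reflect K hK hKc hKi hd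
  obtain ⟨S, hSK, hSnet, hScard⟩ := exists_net K hK hKc hKi η hη
  have hgreedy := Pool.Agent.H815R2.Had.greedy_cover (S := S) (E := E)
    (fun t s => (s : E) - t ∈ l • K) θ hθ hθ1
    (by
      intro A _
      obtain ⟨t, ht⟩ := hheavy (A.map (Function.Embedding.subtype _))
        (by
          intro x hx
          rw [Finset.mem_map] at hx
          obtain ⟨a, _, rfl⟩ := hx
          exact hSK _ a.2)
      refine ⟨t, ?_⟩
      rw [wt_one] at ht
      rw [Finset.card_map] at ht
      refine ht.trans (le_of_eq ?_)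
      rw [Finset.filter_map, Finset.card_map]
      norm_cast)
    ((1 + 1 / η) ^ d) (by
      rw [Fintype.card_coe]; exact hScard) (one_le_pow₀ (by
        have : 0 < 1 / η := by positivity
        linarith))
  obtain ⟨Y, hYcard, hY⟩ := hgreedy
  obtain ⟨z₀, hz₀⟩ := hKi
  set ρ := l + η + η * d with hρdef
  have hρ0 : 0 < ρ := by positivity
  refine ⟨Y.image (fun t => t - (η * (d + 1)) • c - (1 - ρ) • z₀), ?_, ?_⟩
  · intro y hy
    obtain ⟨x, hxS, k, hk, k', hk', hyx⟩ := hSnet y hy
    obtain ⟨t, htY, ht⟩ := hY ⟨x, hxS⟩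
    obtain ⟨k₁, hk₁, hk₁'⟩ := ht
    obtain ⟨k₂, hk₂, hk₂'⟩ := hc k' hk'
    simp only at hk₁'
    -- convex combination
    have hcomb : (l / ρ) • k₁ + (η / ρ) • k + (η * d / ρ) • k₂ ∈ K := by
      have h1 := hK.sum_mem (t := (Finset.univ : Finset (Fin 3)))
        (w := ![l / ρ, η / ρ, η * d / ρ]) (z := ![k₁, k, k₂])
        (by intro i _; fin_cases i <;> simp <;> positivity)
        (by
          simp [Fin.sum_univ_three]
          field_simp
          rw [hρdef])
        (by intro i _; fin_cases i <;> simp [hk₁, hk, hk₂])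
      simpa [Fin.sum_univ_three] using h1
    set k₃ := (l / ρ) • k₁ + (η / ρ) • k + (η * d / ρ) • k₂ with hk₃
    have hρk₃ : ρ • k₃ = l • k₁ + η • k + (η * d) • k₂ := by
      rw [hk₃]
      simp only [smul_add, smul_smul]
      rw [mul_div_cancel₀ _ hρ0.ne', mul_div_cancel₀ _ hρ0.ne', mul_div_cancel₀ _ hρ0.ne']
    have hint : (1 - ρ) • z₀ + ρ • k₃ ∈ interior K := by
      refine hK.combo_interior_self_subset_interior (a := 1 - ρ) (b := ρ) (by linarith) hρ0.le
        (by ring) ?_
      exact Set.add_mem_add (Set.smul_mem_smul_set hz₀) (Set.smul_mem_smul_set hcomb)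
    rw [Set.mem_iUnion₂]
    refine ⟨t - (η * (d + 1)) • c - (1 - ρ) • z₀, Finset.mem_image_of_mem _ htY,
      (1 - ρ) • z₀ + ρ • k₃, hint, ?_⟩
    simp only
    have hx : x = t + l • k₁ := by rw [hk₁']; abel
    have hk'' : -(η • k') = (η * d) • k₂ - (η * (d + 1)) • c := by
      rw [← smul_neg, hk₂', smul_sub, smul_smul, smul_smul]
    rw [hyx, hx, hρk₃, smul_sub, sub_eq_add_neg (η • k), hk'']
    abel
  · refine le_trans (b := (Y.card : ℝ)) (by exact_mod_cast Finset.card_image_le) ?_
    refine hYcard.trans (le_of_eq ?_)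
    rw [Real.log_pow, div_eq_mul_inv]
    ring

end Cover

end Pool.Agent.U330.COV
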