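import Pool.Agent.U330.COV.Heavy
import Pool.Agent.U330.COV.Cover

/-!
# The covering theorem, the polar form, large dimensions, type and ellipsoids
-/

set_option autoImplicit false

noncomputable section

open MeasureTheory Set Module
open scoped Pointwise InnerProductSpace

namespace Pool.Agent.U330.COV

open Pool.Agent.H2R2.Cov

/-- the bound -/
def bnd (d N : ℕ) : ℝ :=
  1 + 6 * 2 ^ d * Real.exp (-(d / 6 ^ N)) * (d * Real.log (2 * d ^ 2 + 2 * d + 1))

section General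

variable {E : Type*} [NormedAddCommGroup E] [NormedSpace ℝ E] [FiniteDimensional ℝ E]

/-- **the covering theorem** -/
theorem cover_rad {K : Set E} (hK : Convex ℝ K) (hKc : IsCompact K) (hKi : (interior K).Nonempty)
    (hd : 2 ≤ finrank ℝ E)
    (p : Seminorm ℝ E) {κ : ℝ} (hκ : 0 < κ) {x₀ : E} (hin : ∀ x, p (x - x₀) ≤ 1 → x ∈ K)
    (hout : ∀ x ∈ K, p (x - x₀) ≤ κ) {N : ℕ} (hN : 2 ≤ N)
    (hR : ∀ y : Fin N → E, (∀ i, p (y i) ≤ 1) →
      ∑ e : Fin N → Bool, p (∑ i, sg (e i) • y i) ≤ 2 ^ N * (N / (8 * κ))) :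
    ∃ T : Finset E, K ⊆ ⋃ t ∈ T, (fun x => t + x) '' interior K ∧
      (T.card : ℝ) ≤ bnd (finrank ℝ E) N := by
  set d := finrank ℝ E with hdd
  have hd' : (2 : ℝ) ≤ d := by exact_mod_cast hd
  have hd1 : (0 : ℝ) < d - 1 := by linarith
  have hd0 : (0 : ℝ) < d := by linarith
  set l : ℝ := 1 - 1 / d with hl
  have hl2 : 1 / 2 ≤ l := by
    have : 1 / (d : ℝ) ≤ 1 / 2 := one_div_le_one_div_of_le (by norm_num) hd'
    rw [hl]; linarith
  have hl0 : 0 < l := by linarith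
  have hl1 : l ≤ 1 := by
    have : 0 < 1 / (d : ℝ) := by positivity
    rw [hl]; linarith
  obtain ⟨T, hT, hcard⟩ := cover_theta K hK hKc hKi (by rw [← hdd]; omega) l
    (1 / (2 * d * (d + 1))) (1 / 2 * Real.exp (d / 6 ^ N) * (l / (1 + l)) ^ d) hl0 (by positivity)
    (by positivity) (by
      intro A hA
      exact heavy_rad hK hKc hKi p hκ hin hout hN hR hl2 hl1 A hA) (by
      rw [← hdd]
      have : (1 : ℝ) / (2 * d * (d + 1)) + 1 / (2 * d * (d + 1)) * d = 1 / (2 * d) := by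
        field_simp
        ring
      have h2 : (1 : ℝ) / (2 * d) < 1 / d := by
        rw [div_lt_div_iff₀ (by positivity) hd0]; linarith
      rw [hl]
      linarith)
  refine ⟨T, hT, hcard.trans ?_⟩
  rw [← hdd]
  have e1 : (1 : ℝ) + 1 / (1 / (2 * d * (d + 1))) = 2 * d ^ 2 + 2 * d + 1 := by
    rw [one_div_one_div]; ring
  rw [e1]
  unfold bnd
  have e2 : (1 + l) / l = 2 * (1 + 1 / (2 * (d - 1))) := by
    have : l = (d - 1) / d := by rw [hl]; field_simp
    rw [this]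
    field_simp
    ring
  have e3 : (1 + 1 / (2 * ((d : ℝ) - 1))) ^ d ≤ Real.exp 1 := by
    have h1 : (1 + 1 / (2 * ((d : ℝ) - 1))) ≤ Real.exp (1 / (2 * (d - 1))) := by
      have := Real.add_one_le_exp (1 / (2 * ((d : ℝ) - 1)))
      linarith
    calc (1 + 1 / (2 * ((d : ℝ) - 1))) ^ d ≤ Real.exp (1 / (2 * (d - 1))) ^ d := by
          gcongr
      _ = Real.exp (d * (1 / (2 * (d - 1)))) := by rw [← Real.exp_nat_mul]
      _ ≤ Real.exp 1 := by
          apply Real.exp_le_exp.mpr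
          rw [mul_one_div, div_le_one (by linarith)]
          linarith
  have he : Real.exp 1 ≤ 3 := by
    have := Real.exp_one_lt_d9
    linarith
  have e4 : (1 / 2 * Real.exp (d / 6 ^ N) * (l / (1 + l)) ^ d)⁻¹ ≤
      6 * 2 ^ d * Real.exp (-(d / 6 ^ N)) := by
    have e5 : (1 / 2 * Real.exp (d / 6 ^ N) * (l / (1 + l)) ^ d)⁻¹ =
        2 * Real.exp (-(d / 6 ^ N)) * ((1 + l) / l) ^ d := by
      rw [mul_inv, mul_inv, Real.exp_neg, ← inv_pow, inv_div]
      norm_num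
    rw [e5, e2, mul_pow]
    have h1 : (0 : ℝ) < Real.exp (-(d / 6 ^ N)) := Real.exp_pos _
    calc 2 * Real.exp (-(d / 6 ^ N)) * (2 ^ d * (1 + 1 / (2 * ((d : ℝ) - 1))) ^ d)
        ≤ 2 * Real.exp (-(d / 6 ^ N)) * (2 ^ d * 3) := by
          gcongr
          exact e3.trans he
      _ = _ := by ring
  have hlog : 0 ≤ (d : ℝ) * Real.log (2 * (d : ℝ) ^ 2 + 2 * d + 1) := by
    refine mul_nonneg hd0.le (Real.log_nonneg ?_)
    nlinarith
  have := mul_le_mul_of_nonneg_right e4 hlog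
  linarith

end General

/-- the explicit condition for `2^d - 1` -/
theorem bnd_lt {d N : ℕ} (hd : 3 ≤ d)
    (h : 7 * (d * Real.log (2 * d ^ 2 + 2 * d + 1)) ≤ Real.exp (d / 6 ^ N)) :
    bnd d N < 2 ^ d := by
  unfold bnd
  set D : ℝ := d * Real.log (2 * d ^ 2 + 2 * d + 1) with hD
  have h1 : Real.exp (-(d / 6 ^ N)) * D ≤ 1 / 7 := by
    rw [Real.exp_neg, ← div_eq_inv_mul, div_le_div_iff₀ (Real.exp_pos _) (by norm_num)]
    linarith
  have h2 : (8 : ℝ) ≤ 2 ^ d := by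
    calc (8 : ℝ) = 2 ^ 3 := by norm_num
      _ ≤ 2 ^ d := pow_le_pow_right₀ (by norm_num) hd
  have h3 : 6 * 2 ^ d * Real.exp (-(d / 6 ^ N)) * D ≤ 6 * 2 ^ d * (1 / 7) := by
    rw [mul_assoc]
    exact mul_le_mul_of_nonneg_left h1 (by positivity)
  linarith

/-- large dimensions -/
theorem large (N : ℕ) : ∃ d₀ : ℕ, ∀ d : ℕ, d₀ ≤ d → 3 ≤ d ∧
    7 * (d * Real.log (2 * d ^ 2 + 2 * d + 1)) ≤ Real.exp (d / 6 ^ N) := by
  set a : ℝ := 1 / 6 ^ N with ha
  have ha0 : 0 < a := by positivity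
  -- `7 d · 5 d² ≤ exp (a d)` for large `d`
  have h1 := Real.tendsto_pow_mul_exp_neg_atTop_nhds_zero 3
  have h2 : Filter.Tendsto (fun d : ℕ => (a * d) ^ 3 * Real.exp (-(a * d))) Filter.atTop
      (nhds 0) := by
    refine h1.comp ?_
    exact (tendsto_natCast_atTop_atTop).const_mul_atTop ha0
  have h3 : ∀ᶠ d : ℕ in Filter.atTop, (a * d) ^ 3 * Real.exp (-(a * d)) < a ^ 3 / 35 :=
    h2.eventually_lt_const (by positivity)
  obtain ⟨d₁, hd₁⟩ := h3.exists_forall_of_atTop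
  refine ⟨max 3 d₁, fun d hd => ⟨(le_max_left _ _).trans hd, ?_⟩⟩
  have h4 := hd₁ d ((le_max_right _ _).trans hd)
  have hd3 : (3 : ℝ) ≤ d := by exact_mod_cast (le_max_left _ _).trans hd
  have e : (d : ℝ) / 6 ^ N = a * d := by rw [ha]; ring
  rw [e]
  have h5 : (d : ℝ) ^ 3 * 35 ≤ Real.exp (a * d) := by
    rw [Real.exp_neg, ← div_eq_mul_inv, div_lt_iff₀ (Real.exp_pos _), mul_pow] at h4
    have h6 : a ^ 3 * (d : ℝ) ^ 3 < a ^ 3 * (Real.exp (a * d) / 35) := by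
      calc a ^ 3 * (d : ℝ) ^ 3 < a ^ 3 / 35 * Real.exp (a * d) := h4
        _ = _ := by ring
    have h7 := lt_of_mul_lt_mul_left h6 (by positivity)
    linarith
  refine le_trans ?_ h5
  have h6 : Real.log (2 * (d : ℝ) ^ 2 + 2 * d + 1) ≤ 2 * (d : ℝ) ^ 2 + 2 * d + 1 - 1 :=
    Real.log_le_sub_one_of_pos (by positivity)
  have h7 : Real.log (2 * (d : ℝ) ^ 2 + 2 * d + 1) ≤ 5 * (d : ℝ) ^ 2 := by nlinarith
  calc 7 * ((d : ℝ) * Real.log (2 * (d : ℝ) ^ 2 + 2 * d + 1)) ≤ 7 * (d * (5 * (d : ℝ) ^ 2)) := by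
        gcongr
    _ = (d : ℝ) ^ 3 * 35 := by ring

/-! ### Rademacher averages -/

/-- the sum of the squares of the signed sums, in an inner product space -/
theorem sq_sum {F : Type*} [NormedAddCommGroup F] [InnerProductSpace ℝ F] (N : ℕ) :
    ∀ y : Fin N → F, ∑ e : Fin N → Bool, ‖∑ i, sg (e i) • y i‖ ^ 2 =
      2 ^ N * ∑ i, ‖y i‖ ^ 2 := by
  induction N with
  | zero => intro y; simp
  | succ N ih =>
    intro y
    rw [← (Fin.snocEquiv (fun _ : Fin (N + 1) => Bool)).sum_comp, Fintype.sum_prod_type,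
      Fintype.sum_bool]
    simp_rw [Fin.sum_univ_castSucc]
    simp only [Fin.snocEquiv_apply, Fin.snoc_castSucc, Fin.snoc_last]
    rw [← Finset.sum_add_distrib]
    have h1 : ∀ e : Fin N → Bool, ‖∑ i, sg (e i) • y (Fin.castSucc i) + sg true • y (Fin.last N)‖ ^ 2
        + ‖∑ i, sg (e i) • y (Fin.castSucc i) + sg false • y (Fin.last N)‖ ^ 2 =
        2 * ‖∑ i, sg (e i) • y (Fin.castSucc i)‖ ^ 2 + 2 * ‖y (Fin.last N)‖ ^ 2 := by
      intro e
      have h2 := parallelogram_law_with_norm ℝ (∑ i, sg (e i) • y (Fin.castSucc i)) (y (Fin.last N))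
      have h3 : sg true • y (Fin.last N) = y (Fin.last N) := by simp [sg]
      have h4 : sg false • y (Fin.last N) = -y (Fin.last N) := by simp [sg]
      rw [h3, h4, ← sub_eq_add_neg]
      nlinarith
    rw [Finset.sum_congr rfl fun e _ => h1 e, Finset.sum_add_distrib, ← Finset.mul_sum, ih,
      Finset.sum_const, Finset.card_univ, Fintype.card_fun, Fintype.card_bool, Fintype.card_fin,
      nsmul_eq_mul]
    push_cast
    ring

/-- Rademacher averages in a Hilbert space -/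
theorem rad_hilbert {F : Type*} [NormedAddCommGroup F] [InnerProductSpace ℝ F] (N : ℕ)
    (y : Fin N → F) (hy : ∀ i, ‖y i‖ ≤ 1) :
    ∑ e : Fin N → Bool, ‖∑ i, sg (e i) • y i‖ ≤ 2 ^ N * Real.sqrt N := by
  have h1 := sq_sum_le_card_mul_sum_sq (s := (Finset.univ : Finset (Fin N → Bool)))
    (f := fun e => ‖∑ i, sg (e i) • y i‖)
  rw [sq_sum, Finset.card_univ, Fintype.card_fun, Fintype.card_bool, Fintype.card_fin] at h1
  have h2 : ∑ i, ‖y i‖ ^ 2 ≤ N := by
    calc ∑ i, ‖y i‖ ^ 2 ≤ ∑ _i : Fin N, (1 : ℝ) := Finset.sum_le_sum fun i _ => by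
          have := hy i
          have := norm_nonneg (y i)
          nlinarith
      _ = N := by simp
  have h3 : (∑ e : Fin N → Bool, ‖∑ i, sg (e i) • y i‖) ^ 2 ≤ (2 ^ N * Real.sqrt N) ^ 2 := by
    rw [mul_pow, Real.sq_sqrt (by positivity)]
    refine h1.trans ?_
    push_cast
    calc (2 : ℝ) ^ N * (2 ^ N * ∑ i, ‖y i‖ ^ 2) ≤ 2 ^ N * (2 ^ N * N) := by gcongr
      _ = (2 ^ N) ^ 2 * N := by ring
  exact abs_le_of_sq_le_sq' h3 (by positivity) |>.2

/-- the condition on the Rademacher averages in a Hilbert space -/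
theorem rad_hilbert' {E F : Type*} [AddCommGroup E] [Module ℝ E] [NormedAddCommGroup F]
    [InnerProductSpace ℝ F] (S : E →ₗ[ℝ] F) {a κ : ℝ} (ha : 0 < a) (hκ : 0 < κ) {N : ℕ}
    (hN : 64 * κ ^ 2 ≤ N) {p : Seminorm ℝ E} (hp : ∀ v, p v = a * ‖S v‖) (y : Fin N → E)
    (hy : ∀ i, p (y i) ≤ 1) :
    ∑ e : Fin N → Bool, p (∑ i, sg (e i) • y i) ≤ 2 ^ N * (N / (8 * κ)) := by
  have h1 := rad_hilbert N (fun i => a • S (y i)) (fun i => by
    rw [norm_smul, Real.norm_of_nonneg ha.le, ← hp]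
    exact hy i)
  have h2 : ∀ e : Fin N → Bool, p (∑ i, sg (e i) • y i) = ‖∑ i, sg (e i) • a • S (y i)‖ := by
    intro e
    have h3 : ∑ i, sg (e i) • a • S (y i) = a • S (∑ i, sg (e i) • y i) := by
      rw [map_sum, Finset.smul_sum]
      refine Finset.sum_congr rfl fun i _ => ?_
      rw [map_smul, smul_comm]
    rw [h3, norm_smul, Real.norm_of_nonneg ha.le, hp]
  simp_rw [h2]
  refine h1.trans ?_
  refine mul_le_mul_of_nonneg_left ?_ (by positivity)
  rw [le_div_iff₀ (by positivity)]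
  have hN0 : (0 : ℝ) ≤ N := by positivity
  have h4 : 8 * κ ≤ Real.sqrt N := by
    refine Real.le_sqrt_of_sq_le ?_
    linarith
  calc Real.sqrt N * (8 * κ) ≤ Real.sqrt N * Real.sqrt N :=
        mul_le_mul_of_nonneg_left h4 (Real.sqrt_nonneg _)
    _ = N := Real.mul_self_sqrt hN0

end Pool.Agent.U330.COV
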