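import Pool.Agent.U330.COV.Sub

/-!
# Duality: signed sums in the dual space; the polar body
-/

set_option autoImplicit false

noncomputable section

open Set Metric
open scoped Pointwise InnerProductSpace

namespace Pool.Agent.U330.COV

variable {F : Type*} [NormedAddCommGroup F] [InnerProductSpace ℝ F]

/-- the dual norm -/
theorem exists_dual {κ R : ℝ} {p : Seminorm ℝ F} (hR : ∀ x, p x ≤ κ → ‖x‖ ≤ R) :
    ∃ q : Seminorm ℝ F, ∀ v, q v ≤ 1 ↔ ∀ x, p x ≤ κ → ⟪v, x⟫_ℝ ≤ 1 := by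
  set B : Set F := {v | ∀ x, p x ≤ κ → ⟪v, x⟫_ℝ ≤ 1} with hB
  have hbal : Balanced ℝ B := by
    rw [balanced_iff_smul_mem]
    intro a ha v hv x hx
    rw [real_inner_smul_left, ← real_inner_smul_right]
    refine hv _ ?_
    rw [map_smul_eq_mul]
    exact (mul_le_of_le_one_left (apply_nonneg p _) ha).trans hx
  have hconv : Convex ℝ B := by
    intro v hv w hw a b ha hb hab x hx
    rw [inner_add_left, real_inner_smul_left, real_inner_smul_left]
    nlinarith [hv x hx, hw x hx]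
  have habs : Absorbent ℝ B := by
    refine absorbent_nhds_zero ?_
    refine Filter.mem_of_superset (ball_mem_nhds (0 : F)
      (show (0 : ℝ) < 1 / (|R| + 1) by positivity)) ?_
    intro v hv x hx
    rw [mem_ball_zero_iff] at hv
    calc ⟪v, x⟫_ℝ ≤ ‖v‖ * ‖x‖ := real_inner_le_norm _ _
      _ ≤ 1 / (|R| + 1) * (|R| + 1) := by
          gcongr
          have := hR x hx
          have := le_abs_self R
          linarith
      _ = 1 := by field_simp
  refine ⟨gaugeSeminorm hbal hconv habs, fun v => ⟨fun h x hx => ?_, fun h => ?_⟩⟩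
  · have h1 : gauge B v ≤ 1 := h
    refine le_of_forall_pos_le_add fun ε hε => ?_
    obtain ⟨b, hb0, hb, w, hw, rfl⟩ := exists_lt_of_gauge_lt habs (h1.trans_lt
      (by linarith : (1:ℝ) < 1 + ε))
    simp only
    rw [real_inner_smul_left]
    have := hw x hx
    nlinarith
  · have : v ∈ B := h
    exact gauge_le_one_of_mem this

lemma dual_le {κ : ℝ} {p q : Seminorm ℝ F} (hq : ∀ v, q v ≤ 1 ↔ ∀ x, p x ≤ κ → ⟪v, x⟫_ℝ ≤ 1)
    {v : F} {t : ℝ} (ht : 0 < t) (h : ∀ x, p x ≤ κ → ⟪v, x⟫_ℝ ≤ t) : q v ≤ t := by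
  have h1 : q (t⁻¹ • v) ≤ 1 := by
    rw [hq]
    intro x hx
    rw [real_inner_smul_left, inv_mul_le_iff₀ ht, mul_one]
    exact h x hx
  rw [map_smul_eq_mul, norm_inv, Real.norm_of_nonneg ht.le, inv_mul_le_iff₀ ht, mul_one] at h1
  exact h1

lemma inner_le_of_dual {κ : ℝ} (hκ : 0 < κ) {p q : Seminorm ℝ F}
    (hq : ∀ v, q v ≤ 1 ↔ ∀ x, p x ≤ κ → ⟪v, x⟫_ℝ ≤ 1) {v z : F} (hv : q v ≤ 1) {ρ : ℝ}
    (hρ : 0 ≤ ρ) (hz : p z ≤ κ * ρ) : ⟪v, z⟫_ℝ ≤ ρ := by
  refine le_of_forall_pos_le_add fun ε hε => ?_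
  have hρε : 0 < ρ + ε := by linarith
  have h1 := (hq v).1 hv ((ρ + ε)⁻¹ • z) (by
    rw [map_smul_eq_mul, norm_inv, Real.norm_of_nonneg hρε.le, inv_mul_le_iff₀ hρε]
    nlinarith)
  rw [real_inner_smul_right, inv_mul_le_iff₀ hρε, mul_one] at h1
  exact h1

/-- **duality** -/
theorem dual_signed {ι : Type*} [Fintype ι] [DecidableEq ι] {ρ κ : ℝ} (hκ : 0 < κ)
    (hρ : ρ < Fintype.card ι) {p q : Seminorm ℝ F}
    (hq : ∀ v, q v ≤ 1 ↔ ∀ x, p x ≤ κ → ⟪v, x⟫_ℝ ≤ 1) (h : Signed ι ρ p) :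
    Signed (ι → Bool) (2 ^ Fintype.card ι - (1 - ρ / Fintype.card ι)) q := by
  classical
  set n : ℕ := Fintype.card ι with hn
  have hρ0 : 0 ≤ ρ := by
    obtain ⟨e, he⟩ := h (fun _ => 0) (fun _ => by simp)
    exact (apply_nonneg p _).trans he
  have hn0 : (0 : ℝ) < n := hρ0.trans_lt hρ
  have hn1 : 1 ≤ n := by
    have : 0 < n := by exact_mod_cast hn0
    omega
  have hr0 : 0 ≤ ρ / n := by positivity
  have h2n : (2 : ℝ) ≤ 2 ^ n := by
    calc (2 : ℝ) = 2 ^ 1 := by norm_num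
      _ ≤ 2 ^ n := pow_le_pow_right₀ (by norm_num) hn1
  set ρ' : ℝ := 2 ^ n - (1 - ρ / n) with hρ'
  have hρ'0 : 0 < ρ' := by rw [hρ']; linarith
  intro v hv
  by_contra hcon
  push Not at hcon
  have hx : ∀ i : ι, ∃ x, p x ≤ κ ∧ ρ' < ⟪∑ S : ι → Bool, sg (S i) • v S, x⟫_ℝ := by
    intro i
    by_contra h0
    push Not at h0
    have h1 := hcon (fun S => S i)
    have h2 := dual_le hq hρ'0 h0
    linarith
  choose x hx1 hx2 using hx
  have hle : ∀ (S : ι → Bool) (i : ι), sg (S i) * ⟪v S, x i⟫_ℝ ≤ 1 := by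
    intro S i
    rw [← real_inner_smul_right]
    exact (hq _).1 (hv S) _ (by rw [p_sg]; exact hx1 i)
  have hge : ∀ (S : ι → Bool) (i : ι), ρ / n < sg (S i) * ⟪v S, x i⟫_ℝ := by
    intro S i
    have h1 := hx2 i
    rw [sum_inner, Finset.sum_congr rfl fun S _ => real_inner_smul_left _ _ _,
      ← Finset.add_sum_erase _ _ (Finset.mem_univ S)] at h1
    have h3 : ∑ S' ∈ Finset.univ.erase S, sg (S' i) * ⟪v S', x i⟫_ℝ ≤ 2 ^ n - 1 := by
      refine (Finset.sum_le_sum fun S' _ => hle S' i).trans (le_of_eq ?_)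
      rw [Finset.sum_const, Finset.card_erase_of_mem (Finset.mem_univ _), Finset.card_univ,
        Fintype.card_fun, Fintype.card_bool, nsmul_eq_mul, mul_one, ← hn,
        Nat.cast_sub Nat.one_le_two_pow]
      push_cast
      ring
    rw [hρ'] at h1
    linarith
  obtain ⟨e, he⟩ := h (fun i => κ⁻¹ • x i) (fun i => by
    rw [map_smul_eq_mul, norm_inv, Real.norm_of_nonneg hκ.le, inv_mul_le_iff₀ hκ, mul_one]
    exact hx1 i)
  have h4 : p (∑ i, sg (e i) • x i) ≤ κ * ρ := by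
    have e1 : ∑ i, sg (e i) • κ⁻¹ • x i = κ⁻¹ • ∑ i, sg (e i) • x i := by
      rw [Finset.smul_sum]
      exact Finset.sum_congr rfl fun i _ => smul_comm _ _ _
    rw [e1, map_smul_eq_mul, norm_inv, Real.norm_of_nonneg hκ.le, inv_mul_le_iff₀ hκ] at he
    exact he
  have h5 := inner_le_of_dual hκ hq (hv e) hρ0 h4
  rw [inner_sum, Finset.sum_congr rfl fun i _ => real_inner_smul_right _ _ _] at h5
  have h6 : ρ < ∑ i, sg (e i) * ⟪v e, x i⟫_ℝ := by
    have e2 : ρ = ∑ _i : ι, ρ / n := by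
      rw [Finset.sum_const, Finset.card_univ, nsmul_eq_mul, ← hn]
      field_simp
    have hne : (Finset.univ : Finset ι).Nonempty := by
      rw [Finset.univ_nonempty_iff, ← Fintype.card_pos_iff, ← hn]
      omega
    calc ρ = ∑ _i : ι, ρ / n := e2
      _ < ∑ i, sg (e i) * ⟪v e, x i⟫_ℝ :=
        Finset.sum_lt_sum_of_nonempty hne fun i _ => hge e i
  linarith

/-- the polar body lies between two balls of the dual norm -/
theorem polar_sandwich {K : Set F} {o : F} {κ : ℝ} (hκ : 0 < κ) {p q : Seminorm ℝ F}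
    (hq : ∀ v, q v ≤ 1 ↔ ∀ x, p x ≤ κ → ⟪v, x⟫_ℝ ≤ 1) (hin : ∀ x, p (x - o) ≤ 1 → x ∈ K)
    (hout : ∀ x ∈ K, p (x - o) ≤ κ) :
    (∀ v, q (v - 0) ≤ 1 → v ∈ {v : F | ∀ y ∈ K, ⟪v, y - o⟫_ℝ ≤ 1}) ∧
      ∀ v ∈ {v : F | ∀ y ∈ K, ⟪v, y - o⟫_ℝ ≤ 1}, q (v - 0) ≤ κ := by
  constructor
  · intro v hv y hy
    rw [sub_zero] at hv
    exact (hq v).1 hv _ (hout y hy)
  · intro v hv
    rw [sub_zero]
    refine dual_le hq hκ fun x hx => ?_
    have h1 := hv (o + κ⁻¹ • x) (hin _ (by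
      rw [add_sub_cancel_left, map_smul_eq_mul, norm_inv, Real.norm_of_nonneg hκ.le,
        inv_mul_le_iff₀ hκ, mul_one]
      exact hx))
    rw [add_sub_cancel_left, real_inner_smul_right, inv_mul_le_iff₀ hκ, mul_one] at h1
    exact h1

/-- a ball of `p` is bounded if it is contained in a translate of a bounded set -/
theorem ball_bdd {K : Set F} (hK : Bornology.IsBounded K) {o : F} {κ : ℝ} (hκ : 0 < κ)
    {p : Seminorm ℝ F} (hin : ∀ x, p (x - o) ≤ 1 → x ∈ K) : ∃ R, ∀ x, p x ≤ κ → ‖x‖ ≤ R := by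
  obtain ⟨R, hR⟩ := hK.subset_closedBall o
  refine ⟨κ * R, fun x hx => ?_⟩
  have h1 := hR (hin (o + κ⁻¹ • x) (by
    rw [add_sub_cancel_left, map_smul_eq_mul, norm_inv, Real.norm_of_nonneg hκ.le,
      inv_mul_le_iff₀ hκ, mul_one]
    exact hx))
  rw [mem_closedBall, dist_eq_norm, add_sub_cancel_left, norm_smul, norm_inv,
    Real.norm_of_nonneg hκ.le, inv_mul_le_iff₀ hκ] at h1
  exact h1

end Pool.Agent.U330.COV
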