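import Mathlib

/-!
# Iterated averages and Rademacher averages
-/

set_option autoImplicit false

noncomputable section

open Set
open scoped Pointwise

namespace Pool.Agent.U330.COV

variable {E : Type*} [AddCommGroup E] [Module ℝ E]

/-- the averaging operator -/
def av (A : Finset E) (c : ℝ) (f : E → ℝ) (y : E) : ℝ :=
  (A.card : ℝ)⁻¹ * ∑ a ∈ A, f (a + c • y)

lemma av_iter (A : Finset E) (c : ℝ) (f : E → ℝ) (N : ℕ) : ∀ y : E,
    (av A c)^[N] f y = ((A.card : ℝ) ^ N)⁻¹ *
      ∑ x : Fin N → A, f (∑ i : Fin N, c ^ (i : ℕ) • (x i : E) + c ^ N • y) := by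
  induction N with
  | zero =>
    intro y
    simp
  | succ N ih =>
    intro y
    rw [Function.iterate_succ_apply']
    unfold av at ih ⊢
    simp_rw [ih]
    rw [← (Fin.snocEquiv (fun _ : Fin (N + 1) => A)).sum_comp, Fintype.sum_prod_type,
      ← Finset.mul_sum, ← mul_assoc, ← mul_inv, pow_succ']
    congr 1
    rw [← Finset.sum_coe_sort A]
    refine Finset.sum_congr rfl fun a _ => ?_
    refine Finset.sum_congr rfl fun x _ => ?_
    congr 1
    rw [Fin.sum_univ_castSucc]
    simp only [Fin.snocEquiv_apply, Fin.snoc_castSucc, Fin.snoc_last, Fin.val_castSucc,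
      Fin.val_last, smul_add, smul_smul]
    rw [add_assoc, pow_succ]

lemma av_mem (A : Finset E) (c : ℝ) {f : E → ℝ} (h0 : ∀ y, 0 ≤ f y) (h1 : ∀ y, f y ≤ 1) (N : ℕ) :
    (∀ y, 0 ≤ (av A c)^[N] f y) ∧ ∀ y, (av A c)^[N] f y ≤ 1 := by
  induction N with
  | zero => exact ⟨h0, h1⟩
  | succ N ih =>
    rw [Function.iterate_succ']
    refine ⟨fun y => ?_, fun y => ?_⟩
    · exact mul_nonneg (by positivity) (Finset.sum_nonneg fun a _ => ih.1 _)
    · simp only [Function.comp_apply, av]
      have h2 : ∑ a ∈ A, (av A c)^[N] f (a + c • y) ≤ A.card := by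
        refine (Finset.sum_le_sum fun a _ => ih.2 _).trans ?_
        simp
      rcases Nat.eq_zero_or_pos A.card with h3 | h3
      · rw [h3]
        simp
      · have h4 : (0 : ℝ) < A.card := by exact_mod_cast h3
        rw [inv_mul_le_iff₀ h4, mul_one]
        exact h2

lemma p_sum_le (p : Seminorm ℝ E) {ι : Type*} (s : Finset ι) (f : ι → E) :
    p (∑ i ∈ s, f i) ≤ ∑ i ∈ s, p (f i) := by
  classical
  induction s using Finset.induction_on with
  | empty => simp
  | insert a s ha ih =>
    rw [Finset.sum_insert ha, Finset.sum_insert ha]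
    exact (map_add_le_add p _ _).trans (add_le_add le_rfl ih)

/-- the sign -/
def sg (b : Bool) : ℝ := if b then 1 else -1

/-- **a centre**: comparison of the sum with a fixed sum -/
theorem exists_centre (p : Seminorm ℝ E) {N : ℕ} {A : Finset E} (hA : A.Nonempty) {κ D : ℝ}
    (hκ : 0 ≤ κ) {x₀ : E} (hAκ : ∀ x ∈ A, p (x - x₀) ≤ κ)
    (hR : ∀ y : Fin N → E, (∀ i, p (y i) ≤ 1) →
      ∑ e : Fin N → Bool, p (∑ i, sg (e i) • y i) ≤ 2 ^ N * D) :
    ∃ x' : Fin N → A, ∑ x : Fin N → A, p (∑ i, ((x i : E) - (x' i : E))) ≤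
      (A.card : ℝ) ^ N * (2 * κ * D) := by
  classical
  -- the bound for differences
  have hR2 : ∀ y : Fin N → E, (∀ i, p (y i) ≤ 2 * κ) →
      ∑ e : Fin N → Bool, p (∑ i, sg (e i) • y i) ≤ 2 ^ N * (2 * κ * D) := by
    intro y hy
    rcases hκ.eq_or_lt with h0 | h0
    · have hz : ∀ e : Fin N → Bool, p (∑ i, sg (e i) • y i) = 0 := by
        intro e
        refine le_antisymm ?_ (apply_nonneg p _)
        refine (p_sum_le p _ _).trans ?_
        refine Finset.sum_nonpos fun i _ => ?_
        rw [map_smul_eq_mul]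
        have := hy i
        rw [← h0, mul_zero] at this
        exact mul_nonpos_of_nonneg_of_nonpos (norm_nonneg _) this
      simp_rw [hz]
      rw [← h0]
      simp
    · have h1 := hR (fun i => (2 * κ)⁻¹ • y i) (fun i => by
        rw [map_smul_eq_mul, Real.norm_of_nonneg (by positivity), inv_mul_le_iff₀ (by positivity),
          mul_one]
        exact hy i)
      have h2 : ∀ e : Fin N → Bool, p (∑ i, sg (e i) • (2 * κ)⁻¹ • y i) =
          (2 * κ)⁻¹ * p (∑ i, sg (e i) • y i) := by
        intro e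
        rw [← Real.norm_of_nonneg (show 0 ≤ (2 * κ)⁻¹ by positivity), ← map_smul_eq_mul p,
          Finset.smul_sum, Real.norm_of_nonneg (show 0 ≤ (2 * κ)⁻¹ by positivity)]
        congr 1
        exact Finset.sum_congr rfl fun i _ => smul_comm _ _ _
      simp_rw [h2] at h1
      rw [← Finset.mul_sum, inv_mul_le_iff₀ (by positivity)] at h1
      linarith
  have hdiff : ∀ a b : A, p ((a : E) - (b : E)) ≤ 2 * κ := by
    intro a b
    have e : (a : E) - (b : E) = ((a : E) - x₀) - ((b : E) - x₀) := by abel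
    rw [e]
    refine (map_sub_le_add p _ _).trans ?_
    have := hAκ a a.2
    have := hAκ b b.2
    linarith
  -- the symmetrisation
  set S : ℝ := ∑ z : Fin N → A × A, p (∑ i, (((z i).1 : E) - ((z i).2 : E))) with hS
  have hswap : ∀ e : Fin N → Bool,
      ∑ z : Fin N → A × A, p (∑ i, sg (e i) • (((z i).1 : E) - ((z i).2 : E))) = S := by
    intro e
    rw [hS, ← (Equiv.piCongrRight (fun i : Fin N =>
      if e i then Equiv.refl (A × A) else Equiv.prodComm A A)).sum_comp]
    refine Finset.sum_congr rfl fun z _ => ?_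
    congr 1
    refine Finset.sum_congr rfl fun i _ => ?_
    by_cases h : e i
    · simp [sg, h]
    · simp [sg, h]
  have hN2 : (0 : ℝ) < 2 ^ N := by positivity
  have hcard : (Fintype.card (Fin N → A × A) : ℝ) = (A.card : ℝ) ^ N * (A.card : ℝ) ^ N := by
    rw [Fintype.card_fun, Fintype.card_prod, Fintype.card_fin, Fintype.card_coe]
    push_cast
    rw [mul_pow]
  have hsum : 2 ^ N * S ≤ ((A.card : ℝ) ^ N * (A.card : ℝ) ^ N) * (2 ^ N * (2 * κ * D)) := by
    have h1 : ∑ e : Fin N → Bool, ∑ z : Fin N → A × A,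
        p (∑ i, sg (e i) • (((z i).1 : E) - ((z i).2 : E))) = 2 ^ N * S := by
      rw [Finset.sum_congr rfl fun e _ => hswap e, Finset.sum_const, Finset.card_univ,
        Fintype.card_fun, Fintype.card_bool, Fintype.card_fin, nsmul_eq_mul]
      push_cast
      ring
    rw [← h1, Finset.sum_comm]
    refine (Finset.sum_le_sum fun z _ => hR2 (fun i => ((z i).1 : E) - ((z i).2 : E))
      (fun i => hdiff _ _)).trans (le_of_eq ?_)
    rw [Finset.sum_const, Finset.card_univ, nsmul_eq_mul, hcard]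
  have hS2 : S ≤ ((A.card : ℝ) ^ N * (A.card : ℝ) ^ N) * (2 * κ * D) := by
    have : 2 ^ N * S ≤ 2 ^ N * (((A.card : ℝ) ^ N * (A.card : ℝ) ^ N) * (2 * κ * D)) := by
      linarith
    exact le_of_mul_le_mul_left this hN2
  -- the choice of the centre
  by_contra hcon
  push Not at hcon
  obtain ⟨a₀, ha₀⟩ := hA
  have : Nonempty (Fin N → A) := ⟨fun _ => ⟨a₀, ha₀⟩⟩
  have hS3 : S = ∑ x' : Fin N → A, ∑ x : Fin N → A, p (∑ i, ((x i : E) - (x' i : E))) := by
    rw [Finset.sum_comm, hS, ← (Equiv.arrowProdEquivProdArrow (Fin N) (fun _ => A)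
      (fun _ => A)).symm.sum_comp, Fintype.sum_prod_type]
    rfl
  have hlt : ((A.card : ℝ) ^ N * (A.card : ℝ) ^ N) * (2 * κ * D) < S := by
    rw [hS3]
    have h1 : ∑ x' : Fin N → A, (A.card : ℝ) ^ N * (2 * κ * D) =
        ((A.card : ℝ) ^ N * (A.card : ℝ) ^ N) * (2 * κ * D) := by
      rw [Finset.sum_const, Finset.card_univ, Fintype.card_fun, Fintype.card_fin,
        Fintype.card_coe, nsmul_eq_mul]
      push_cast
      ring
    rw [← h1]
    exact Finset.sum_lt_sum_of_nonempty Finset.univ_nonempty fun x' _ => hcon x'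
  linarith

omit [AddCommGroup E] [Module ℝ E] in
/-- **Markov's inequality** for the good sequences -/
theorem good_count {N : ℕ} {A : Finset E} (g : (Fin N → A) → ℝ) (h0 : ∀ x, 0 ≤ g x) {D : ℝ}
    (hD : 0 < D) (h : ∑ x, g x ≤ (A.card : ℝ) ^ N * D) :
    (A.card : ℝ) ^ N / 2 ≤ ((open Classical in Finset.univ.filter (fun x => g x ≤ 2 * D)).card : ℝ) := by
  classical
  have h1 : (((Finset.univ.filter (fun x => ¬ g x ≤ 2 * D)).card : ℝ)) * (2 * D) ≤
      (A.card : ℝ) ^ N * D := by
    refine le_trans ?_ h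
    rw [← nsmul_eq_mul, ← Finset.sum_const]
    calc ∑ _x ∈ Finset.univ.filter (fun x => ¬ g x ≤ 2 * D), 2 * D ≤
        ∑ x ∈ Finset.univ.filter (fun x => ¬ g x ≤ 2 * D), g x := by
          refine Finset.sum_le_sum fun x hx => ?_
          exact (not_le.1 (Finset.mem_filter.1 hx).2).le
      _ ≤ ∑ x, g x := Finset.sum_le_sum_of_subset_of_nonneg (Finset.filter_subset _ _)
          fun x _ _ => h0 x
  have h2 : ((Finset.univ.filter (fun x => g x ≤ 2 * D)).card : ℝ) +
      ((Finset.univ.filter (fun x => ¬ g x ≤ 2 * D)).card : ℝ) = (A.card : ℝ) ^ N := by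
    have := Finset.card_filter_add_card_filter_not (s := (Finset.univ : Finset (Fin N → A)))
      (fun x => g x ≤ 2 * D)
    have h3 : (Finset.univ : Finset (Fin N → A)).card = A.card ^ N := by
      rw [Finset.card_univ, Fintype.card_fun, Fintype.card_fin, Fintype.card_coe]
    rw [h3] at this
    exact_mod_cast this
  have h4 : ((Finset.univ.filter (fun x => ¬ g x ≤ 2 * D)).card : ℝ) ≤ (A.card : ℝ) ^ N / 2 := by
    have : ((Finset.univ.filter (fun x => ¬ g x ≤ 2 * D)).card : ℝ) * (2 * D) ≤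
        (A.card : ℝ) ^ N / 2 * (2 * D) := by linarith
    exact le_of_mul_le_mul_right this (by positivity)
  have h5 : (A.card : ℝ) ^ N / 2 ≤ ((Finset.univ.filter (fun x => g x ≤ 2 * D)).card : ℝ) := by
    linarith
  convert h5 using 3

end Pool.Agent.U330.COV
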