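import Mathlib

/-!
# The part of a convex body over a subset of its projection
-/

set_option autoImplicit false

noncomputable section

open MeasureTheory Set Module
open scoped Pointwise ENNReal

namespace Pool.Agent.U330.COV

variable {V W : Type*} [NormedAddCommGroup V] [NormedSpace ℝ V] [FiniteDimensional ℝ V]
  [MeasurableSpace V] [BorelSpace V] [NormedAddCommGroup W] [NormedSpace ℝ W]
  [FiniteDimensional ℝ W] [MeasurableSpace W] [BorelSpace W]
  (μ : Measure V) [μ.IsAddHaarMeasure] (ν : Measure W) [ν.IsAddHaarMeasure]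

/-- a fibre and the projection -/
theorem fibre_bound {K : Set (V × W)} (hK : Convex ℝ K) (hKc : IsCompact K) {t : ℝ} (ht0 : 0 < t)
    (ht1 : t < 1) (x : V) :
    ENNReal.ofReal (t ^ finrank ℝ V * (1 - t) ^ finrank ℝ W) *
      (μ (Prod.fst '' K) * ν (Prod.mk x ⁻¹' K)) ≤ (μ.prod ν) K := by
  have h1t : 0 < 1 - t := by linarith
  set S : Set V := (fun y => (1 - t) • x + y) '' (t • (Prod.fst '' K)) with hS
  have hSc : IsCompact S := ((hKc.image continuous_fst).smul t).image (by fun_prop)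
  have hSm : MeasurableSet S := hSc.isClosed.measurableSet
  have hSv : μ S = ENNReal.ofReal (t ^ finrank ℝ V) * μ (Prod.fst '' K) := by
    rw [hS, Set.image_add_left, measure_preimage_add, Measure.addHaar_smul,
      abs_of_pos (by positivity)]
  have hfib : ∀ z ∈ S, ENNReal.ofReal ((1 - t) ^ finrank ℝ W) * ν (Prod.mk x ⁻¹' K) ≤
      ν (Prod.mk z ⁻¹' K) := by
    rintro _ ⟨_, ⟨y, ⟨⟨y', w⟩, hyw, rfl⟩, rfl⟩, rfl⟩
    have hsub : (fun u => t • w + u) '' ((1 - t) • (Prod.mk x ⁻¹' K)) ⊆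
        Prod.mk ((1 - t) • x + t • y') ⁻¹' K := by
      rintro _ ⟨_, ⟨u, hu, rfl⟩, rfl⟩
      have h2 := hK hu hyw h1t.le ht0.le (by ring)
      simp only [Set.mem_preimage]
      convert h2 using 1
      simp only [Prod.smul_mk, Prod.mk_add_mk]
      rw [add_comm (t • w)]
    refine le_trans (le_of_eq ?_) (measure_mono hsub)
    rw [Set.image_add_left, measure_preimage_add, Measure.addHaar_smul,
      abs_of_pos (by positivity)]
  rw [Measure.prod_apply hKc.isClosed.measurableSet]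
  calc ENNReal.ofReal (t ^ finrank ℝ V * (1 - t) ^ finrank ℝ W) *
      (μ (Prod.fst '' K) * ν (Prod.mk x ⁻¹' K))
      = ∫⁻ _z in S, ENNReal.ofReal ((1 - t) ^ finrank ℝ W) * ν (Prod.mk x ⁻¹' K) ∂μ := by
        rw [setLIntegral_const, hSv, ENNReal.ofReal_mul (by positivity)]
        ring
    _ ≤ ∫⁻ z in S, ν (Prod.mk z ⁻¹' K) ∂μ := setLIntegral_mono' hSm hfib
    _ ≤ _ := setLIntegral_le_lintegral _ _

/-- the part over `D` -/
theorem slab_bound {K : Set (V × W)} (hK : Convex ℝ K) (hKc : IsCompact K) {t : ℝ} (ht0 : 0 < t)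
    (ht1 : t < 1) {D : Set V} (hD : MeasurableSet D) :
    ENNReal.ofReal (t ^ finrank ℝ V * (1 - t) ^ finrank ℝ W) *
      (μ (Prod.fst '' K) * (μ.prod ν) (K ∩ Prod.fst ⁻¹' D)) ≤ (μ.prod ν) K * μ D := by
  have hKm : MeasurableSet K := hKc.isClosed.measurableSet
  have h1 : (μ.prod ν) (K ∩ Prod.fst ⁻¹' D) = ∫⁻ x in D, ν (Prod.mk x ⁻¹' K) ∂μ := by
    rw [Measure.prod_apply (hKm.inter (measurable_fst hD)), ← lintegral_indicator hD]
    refine lintegral_congr fun x => ?_
    by_cases hx : x ∈ D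
    · rw [Set.indicator_of_mem hx]
      congr 1
      ext w
      simp [hx]
    · rw [Set.indicator_of_notMem hx]
      have : Prod.mk x ⁻¹' (K ∩ Prod.fst ⁻¹' D) = (∅ : Set W) := by
        ext w
        simp [hx]
      rw [this, measure_empty]
  have hmeas : Measurable fun x => ν (Prod.mk x ⁻¹' K) := measurable_measure_prodMk_left hKm
  have h2 : (μ.prod ν) K * μ D = ∫⁻ _x in D, (μ.prod ν) K ∂μ := by rw [setLIntegral_const]
  rw [h1, h2, ← mul_assoc, ← lintegral_const_mul _ hmeas]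
  refine setLIntegral_mono' hD fun x _ => ?_
  rw [mul_assoc]
  exact fibre_bound μ ν hK hKc ht0 ht1 x

end Pool.Agent.U330.COV
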