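import Mathlib

/-!
# From coverings of the polar body to separating hyperplanes
-/

set_option autoImplicit false

namespace Pool.Agent.U330.COV

open scoped InnerProductSpace
open Metric

/-- The proof is that of the starting result `MP_5e7226_co.AllConvexBodies`. -/
theorem hyperplanes {d : ℕ} {K : Set (EuclideanSpace ℝ (Fin d))}
    (hKc : IsCompact K) {o : EuclideanSpace ℝ (Fin d)} (ho : o ∈ interior K) {n : ℕ}
    (hcov : Convex ℝ {v : EuclideanSpace ℝ (Fin d) | ∀ y ∈ K, ⟪v, y - o⟫_ℝ ≤ 1} →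
      IsCompact {v : EuclideanSpace ℝ (Fin d) | ∀ y ∈ K, ⟪v, y - o⟫_ℝ ≤ 1} →
      (interior {v : EuclideanSpace ℝ (Fin d) | ∀ y ∈ K, ⟪v, y - o⟫_ℝ ≤ 1}).Nonempty →
      ∃ T : Finset (EuclideanSpace ℝ (Fin d)), T.card ≤ n ∧
        {v : EuclideanSpace ℝ (Fin d) | ∀ y ∈ K, ⟪v, y - o⟫_ℝ ≤ 1} ⊆
          ⋃ t ∈ T, (fun x => t + x) '' interior {v | ∀ y ∈ K, ⟪v, y - o⟫_ℝ ≤ 1}) :
    ∃ H : Finset (EuclideanSpace ℝ (Fin d) × ℝ), H.card ≤ n ∧
      (∀ h ∈ H, h.1 ≠ 0) ∧
      ∀ u x₀ : EuclideanSpace ℝ (Fin d), u ≠ 0 → x₀ ∈ K → (∀ y ∈ K, ⟪u, y⟫_ℝ ≤ ⟪u, x₀⟫_ℝ) →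
        ∃ h ∈ H, ⟪h.1, o⟫_ℝ < h.2 ∧ ∀ x ∈ K, ⟪u, x⟫_ℝ = ⟪u, x₀⟫_ℝ → h.2 < ⟪h.1, x⟫_ℝ := by
  classical
  -- a ball around `o`
  obtain ⟨r, hr, hrK⟩ : ∃ r > 0, closedBall o r ⊆ K := by
    obtain ⟨r, hr, h⟩ := Metric.isOpen_iff.mp isOpen_interior o ho
    exact ⟨r / 2, by positivity, (closedBall_subset_ball (by linarith)).trans
      (h.trans interior_subset)⟩
  obtain ⟨R, hR⟩ : ∃ R : ℝ, ∀ y ∈ K, ‖y - o‖ ≤ R := by
    obtain ⟨R, hR⟩ := hKc.isBounded.subset_closedBall o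
    exact ⟨R, fun y hy => by simpa [dist_eq_norm] using hR hy⟩
  have hR0 : 0 ≤ R := (norm_nonneg _).trans (hR o (interior_subset ho))
  -- the polar body
  let P : Set (EuclideanSpace ℝ (Fin d)) := {v | ∀ y ∈ K, ⟪v, y - o⟫_ℝ ≤ 1}
  have hPc : Convex ℝ P := by
    intro v hv w hw a b ha hb hab y hy
    rw [inner_add_left, real_inner_smul_left, real_inner_smul_left]
    nlinarith [hv y hy, hw y hy]
  have hPcl : IsClosed P := by
    have : P = ⋂ y ∈ K, {v | ⟪v, y - o⟫_ℝ ≤ 1} := by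
      ext v; simp [P]
    rw [this]
    refine isClosed_biInter fun y _ => isClosed_le ?_ continuous_const
    exact continuous_id.inner continuous_const
  have hPb : ∀ v ∈ P, ‖v‖ ≤ 1 / r := by
    intro v hv
    rcases eq_or_ne v 0 with rfl | hv0
    · simp; positivity
    have hn : 0 < ‖v‖ := norm_pos_iff.mpr hv0
    have hy : o + (r / ‖v‖) • v ∈ K := by
      apply hrK
      rw [mem_closedBall, dist_eq_norm, add_sub_cancel_left, norm_smul, Real.norm_eq_abs,
        abs_of_pos (by positivity), div_mul_cancel₀ _ hn.ne']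
    have h := hv _ hy
    rw [add_sub_cancel_left, real_inner_smul_right, real_inner_self_eq_norm_sq] at h
    rw [le_div_iff₀ hr]
    have e : r / ‖v‖ * ‖v‖ ^ 2 = ‖v‖ * r := by field_simp
    linarith
  have hPk : IsCompact P := by
    refine Metric.isCompact_of_isClosed_isBounded hPcl ?_
    refine (isBounded_iff_subset_closedBall 0).mpr ⟨1 / r, fun v hv => ?_⟩
    simpa using hPb v hv
  have hPi : (interior P).Nonempty := by
    refine ⟨0, ?_⟩
    rw [mem_interior]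
    refine ⟨ball 0 (1 / (R + 1)), ?_, isOpen_ball, by simp; positivity⟩
    intro v hv y hy
    rw [mem_ball_zero_iff] at hv
    calc ⟪v, y - o⟫_ℝ ≤ ‖v‖ * ‖y - o‖ := real_inner_le_norm _ _
      _ ≤ 1 / (R + 1) * R := by
          gcongr
          exact hR y hy
      _ ≤ 1 := by
          rw [div_mul_eq_mul_div, one_mul, div_le_one (by positivity)]
          linarith
  obtain ⟨T, hcard, hT⟩ := hcov hPc hPk hPi
  -- a Lebesgue number
  obtain ⟨δ, hδ, hleb⟩ : ∃ δ > 0, ∀ v ∈ P, ∃ t ∈ T, ball v δ ⊆ (fun x => t + x) '' interior P := by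
    have hop : ∀ t : T, IsOpen ((fun x => (t : EuclideanSpace ℝ (Fin d)) + x) '' interior P) :=
      fun t => (Homeomorph.addLeft (t : EuclideanSpace ℝ (Fin d))).isOpenMap _ isOpen_interior
    have hcov : P ⊆ ⋃ t : T, (fun x => (t : EuclideanSpace ℝ (Fin d)) + x) '' interior P := by
      intro v hv
      have h := hT hv
      simp only [Set.mem_iUnion] at h ⊢
      obtain ⟨t, ht, h⟩ := h
      exact ⟨⟨t, ht⟩, h⟩
    obtain ⟨δ, hδ, h⟩ := lebesgue_number_lemma_of_metric hPk hop hcov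
    refine ⟨δ, hδ, fun v hv => ?_⟩
    obtain ⟨t, ht⟩ := h v hv
    exact ⟨t, t.2, ht⟩
  set ε : ℝ := δ / 2 * r with hε
  have hε0 : 0 < ε := by positivity
  refine ⟨(T.filter (fun t => t ≠ 0)).image (fun t => (t, ⟪t, o⟫_ℝ + ε / 2)), ?_, ?_, ?_⟩
  · refine le_trans ?_ hcard
    exact Finset.card_image_le.trans (Finset.card_filter_le _ _)
  · intro h hh
    rw [Finset.mem_image] at hh
    obtain ⟨t, ht, rfl⟩ := hh
    exact (Finset.mem_filter.mp ht).2
  · intro u x₀ hu hx₀ hmax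
    have hun : 0 < ‖u‖ := norm_pos_iff.mpr hu
    -- the support function is positive
    have hpos : 0 < ⟪u, x₀ - o⟫_ℝ := by
      have hy : o + (r / ‖u‖) • u ∈ K := by
        apply hrK
        rw [mem_closedBall, dist_eq_norm, add_sub_cancel_left, norm_smul, Real.norm_eq_abs,
          abs_of_pos (by positivity), div_mul_cancel₀ _ hun.ne']
      have h := hmax _ hy
      rw [inner_add_right, real_inner_smul_right, real_inner_self_eq_norm_sq] at h
      rw [inner_sub_right]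
      have : 0 < r / ‖u‖ * ‖u‖ ^ 2 := by positivity
      linarith
    set c : ℝ := ⟪u, x₀ - o⟫_ℝ with hc
    have hvP : c⁻¹ • u ∈ P := by
      intro y hy
      rw [real_inner_smul_left, inv_mul_le_iff₀ hpos, mul_one, hc, inner_sub_right,
        inner_sub_right]
      linarith [hmax y hy]
    obtain ⟨t, htT, ht⟩ := hleb _ hvP
    -- the key inequality
    have key : ∀ x ∈ K, ⟪u, x⟫_ℝ = ⟪u, x₀⟫_ℝ → ε ≤ ⟪t, x - o⟫_ℝ := by
      intro x hx hxu
      have h1 : ⟪c⁻¹ • u, x - o⟫_ℝ = 1 := by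
        rw [real_inner_smul_left, inner_sub_right, hxu, ← inner_sub_right, ← hc,
          inv_mul_cancel₀ hpos.ne']
      have h2 : r ≤ ‖x - o‖ := by
        have h3 := real_inner_le_norm (c⁻¹ • u) (x - o)
        rw [h1] at h3
        have h4 := hPb _ hvP
        have h5 : 1 ≤ 1 / r * ‖x - o‖ := h3.trans (by gcongr)
        rw [one_div, ← div_eq_inv_mul, le_div_iff₀ hr] at h5
        linarith
      have hxn : 0 < ‖x - o‖ := hr.trans_le h2
      have hz : c⁻¹ • u + (δ / 2 / ‖x - o‖) • (x - o) ∈ ball (c⁻¹ • u) δ := by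
        rw [mem_ball, dist_eq_norm, add_sub_cancel_left, norm_smul, Real.norm_eq_abs,
          abs_of_pos (by positivity), div_mul_cancel₀ _ hxn.ne']
        linarith
      obtain ⟨p, hp, hpe⟩ := ht hz
      have hp' : ⟪p, x - o⟫_ℝ ≤ 1 := interior_subset hp x hx
      have hpe' : p = c⁻¹ • u + (δ / 2 / ‖x - o‖) • (x - o) - t := by
        rw [← hpe]; simp
      rw [hpe', inner_sub_left, inner_add_left, h1, real_inner_smul_left,
        real_inner_self_eq_norm_sq] at hp'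
      have e : δ / 2 / ‖x - o‖ * ‖x - o‖ ^ 2 = δ / 2 * ‖x - o‖ := by field_simp
      rw [e] at hp'
      have : ε ≤ δ / 2 * ‖x - o‖ := by
        rw [hε]; gcongr
      linarith
    have ht0 : t ≠ 0 := by
      rintro rfl
      have h := key x₀ hx₀ rfl
      rw [inner_zero_left] at h
      linarith
    refine ⟨(t, ⟪t, o⟫_ℝ + ε / 2), Finset.mem_image_of_mem _ (Finset.mem_filter.mpr ⟨htT, ht0⟩),
      by simp only; linarith, fun x hx hxu => ?_⟩
    have h := key x hx hxu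
    rw [inner_sub_right] at h
    simp only
    linarith

end Pool.Agent.U330.COV
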