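import Pool.Agent.U330.COV.HeavyFib
import Pool.Agent.U330.COV.Cover
import Pool.Agent.U330.COV.Dual

/-!
# The covering theorem for bodies with a large projection near the unit ball of a space with small
Rademacher averages; sections and the polar body
-/

set_option autoImplicit false

noncomputable section

open MeasureTheory Set Module
open scoped Pointwise InnerProductSpace

namespace Pool.Agent.U330.COV

open Pool.Agent.H2R2.Cov

/-- from heavy translates with the gain `exp a` to a covering -/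
theorem cover_of_heavy {E : Type*} [NormedAddCommGroup E] [NormedSpace ℝ E]
    [FiniteDimensional ℝ E] {K : Set E} (hK : Convex ℝ K) (hKc : IsCompact K)
    (hKi : (interior K).Nonempty) {d : ℕ} (hdE : finrank ℝ E = d) (hd : 2 ≤ d) {a : ℝ}
    (hheavy : ∀ l : ℝ, 1 / 2 ≤ l → l ≤ 1 → ∀ A : Finset E, (∀ x ∈ A, x ∈ K) →
      ∃ t : E, (1 / 2 * Real.exp a * (l / (1 + l)) ^ d) * A.card ≤
        wt A (fun _ => 1) (l • K) t) :
    ∃ T : Finset E, K ⊆ ⋃ t ∈ T, (fun x => t + x) '' interior K ∧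
      (T.card : ℝ) ≤ 1 + 6 * 2 ^ d * Real.exp (-a) *
        (d * Real.log (2 * d ^ 2 + 2 * d + 1)) := by
  have hd' : (2 : ℝ) ≤ d := by exact_mod_cast hd
  have hd1 : (0 : ℝ) < d - 1 := by linarith
  have hd0 : (0 : ℝ) < d := by linarith
  set l : ℝ := 1 - 1 / d with hl
  have hl2 : 1 / 2 ≤ l := by
    have : 1 / (d : ℝ) ≤ 1 / 2 := one_div_le_one_div_of_le (by norm_num) hd'
    rw [hl]; linarith
  have hl0 : 0 < l := by linarith
  have hl1 : l ≤ 1 := by
    have : 0 < 1 / (d : ℝ) := by positivity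
    rw [hl]; linarith
  obtain ⟨T, hT, hcard⟩ := cover_theta K hK hKc hKi (by rw [hdE]; omega) l
    (1 / (2 * d * (d + 1))) (1 / 2 * Real.exp a * (l / (1 + l)) ^ d) hl0 (by positivity)
    (by positivity) (fun A hA => hheavy l hl2 hl1 A hA) (by
      rw [hdE]
      have : (1 : ℝ) / (2 * d * (d + 1)) + 1 / (2 * d * (d + 1)) * d = 1 / (2 * d) := by
        field_simp
        ring
      have h2 : (1 : ℝ) / (2 * d) < 1 / d := by
        rw [div_lt_div_iff₀ (by positivity) hd0]; linarith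
      rw [hl]
      linarith)
  refine ⟨T, hT, hcard.trans ?_⟩
  rw [hdE]
  have e1 : (1 : ℝ) + 1 / (1 / (2 * d * (d + 1))) = 2 * d ^ 2 + 2 * d + 1 := by
    rw [one_div_one_div]; ring
  rw [e1]
  have e2 : (1 + l) / l = 2 * (1 + 1 / (2 * (d - 1))) := by
    have : l = (d - 1) / d := by rw [hl]; field_simp
    rw [this]
    field_simp
    ring
  have e3 : (1 + 1 / (2 * ((d : ℝ) - 1))) ^ d ≤ Real.exp 1 := by
    have h1 : (1 + 1 / (2 * ((d : ℝ) - 1))) ≤ Real.exp (1 / (2 * (d - 1))) := by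
      have := Real.add_one_le_exp (1 / (2 * ((d : ℝ) - 1)))
      linarith
    calc (1 + 1 / (2 * ((d : ℝ) - 1))) ^ d ≤ Real.exp (1 / (2 * (d - 1))) ^ d := by
          gcongr
      _ = Real.exp (d * (1 / (2 * (d - 1)))) := by rw [← Real.exp_nat_mul]
      _ ≤ Real.exp 1 := by
          apply Real.exp_le_exp.mpr
          rw [mul_one_div, div_le_one (by linarith)]
          linarith
  have he : Real.exp 1 ≤ 3 := by
    have := Real.exp_one_lt_d9
    linarith
  have e4 : (1 / 2 * Real.exp a * (l / (1 + l)) ^ d)⁻¹ ≤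
      6 * 2 ^ d * Real.exp (-a) := by
    have e5 : (1 / 2 * Real.exp a * (l / (1 + l)) ^ d)⁻¹ =
        2 * Real.exp (-a) * ((1 + l) / l) ^ d := by
      rw [mul_inv, mul_inv, Real.exp_neg, ← inv_pow, inv_div]
      norm_num
    rw [e5, e2, mul_pow]
    have h1 : (0 : ℝ) < Real.exp (-a) := Real.exp_pos _
    calc 2 * Real.exp (-a) * (2 ^ d * (1 + 1 / (2 * ((d : ℝ) - 1))) ^ d)
        ≤ 2 * Real.exp (-a) * (2 ^ d * 3) := by
          gcongr
          exact e3.trans he
      _ = _ := by ring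
  have hlog : 0 ≤ (d : ℝ) * Real.log (2 * (d : ℝ) ^ 2 + 2 * d + 1) := by
    refine mul_nonneg hd0.le (Real.log_nonneg ?_)
    nlinarith
  have := mul_le_mul_of_nonneg_right e4 hlog
  linarith

/-- transport of a heavy translate by a linear isomorphism -/
theorem heavy_transport {E F : Type*} [NormedAddCommGroup E] [NormedSpace ℝ E]
    [NormedAddCommGroup F] [NormedSpace ℝ F]
    (e : E ≃ₗ[ℝ] F) {K : Set E} {l θ : ℝ} (A : Finset E)
    (h : ∃ t : F, θ * (A.map e.toEquiv.toEmbedding).card ≤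
      wt (A.map e.toEquiv.toEmbedding) (fun _ => 1) (l • (e '' K)) t) :
    ∃ t : E, θ * A.card ≤ wt A (fun _ => 1) (l • K) t := by
  classical
  obtain ⟨t, ht⟩ := h
  refine ⟨e.symm t, ?_⟩
  rw [Finset.card_map] at ht
  refine ht.trans (le_of_eq ?_)
  unfold wt
  rw [Finset.sum_map]
  refine Finset.sum_congr rfl fun x _ => ?_
  have hiff : e x - t ∈ l • (e '' K) ↔ x - e.symm t ∈ l • K := by
    constructor
    · rintro ⟨_, ⟨y, hy, rfl⟩, hy'⟩
      refine ⟨y, hy, ?_⟩
      simp only at hy' ⊢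
      apply e.injective
      rw [map_smul, hy', map_sub, LinearEquiv.apply_symm_apply]
    · rintro ⟨y, hy, hy'⟩
      refine ⟨e y, ⟨y, hy, rfl⟩, ?_⟩
      simp only at hy' ⊢
      rw [← map_smul, hy', map_sub, LinearEquiv.apply_symm_apply]
  show (if e x - t ∈ l • (e '' K) then (1 : ℝ) else 0) =
    if x - e.symm t ∈ l • K then (1 : ℝ) else 0
  by_cases hx : x - e.symm t ∈ l • K
  · rw [if_pos hx, if_pos (hiff.2 hx)]
  · rw [if_neg hx, if_neg (fun h0 => hx (hiff.1 h0))]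

/-- **bodies with a large projection near the unit ball of a space with small Rademacher averages** -/
theorem cover_proj {d : ℕ} (hd : 2 ≤ d) {K : Set (EuclideanSpace ℝ (Fin d))} (hK : Convex ℝ K)
    (hKc : IsCompact K) (hKi : (interior K).Nonempty)
    (V : Submodule ℝ (EuclideanSpace ℝ (Fin d))) (p : Seminorm ℝ V) {κ : ℝ} (hκ : 0 < κ) {x₀ : V}
    (hin : ∀ v : V, p (v - x₀) ≤ 1 → ∃ x ∈ K, V.orthogonalProjectionOnto x = v)
    (hout : ∀ x ∈ K, p (V.orthogonalProjectionOnto x - x₀) ≤ κ) {N : ℕ} (hN : 2 ≤ N)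
    (hR : ∀ y : Fin N → V, (∀ i, p (y i) ≤ 1) →
      ∑ e : Fin N → Bool, p (∑ i, sg (e i) • y i) ≤ 2 ^ N * (N / (8 * κ)))
    (hcod : ((d : ℝ) - finrank ℝ V) * 10 ^ N ≤ d) :
    ∃ T : Finset (EuclideanSpace ℝ (Fin d)), K ⊆ ⋃ t ∈ T, (fun x => t + x) '' interior K ∧
      (T.card : ℝ) ≤ 1 + 6 * 2 ^ d * Real.exp (-(d / 10 ^ N)) *
        (d * Real.log (2 * d ^ 2 + 2 * d + 1)) := by
  have hfr : finrank ℝ (EuclideanSpace ℝ (Fin d)) = d := by simp
  have hc1 : IsCompl (LinearMap.ker (V.orthogonalProjectionOnto : EuclideanSpace ℝ (Fin d) →ₗ[ℝ] V))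
      (LinearMap.ker (Vᗮ.orthogonalProjectionOnto : EuclideanSpace ℝ (Fin d) →ₗ[ℝ] Vᗮ)) := by
    have h1 : LinearMap.ker (V.orthogonalProjectionOnto : EuclideanSpace ℝ (Fin d) →ₗ[ℝ] V) = Vᗮ :=
      V.ker_orthogonalProjectionOnto
    have h2 : LinearMap.ker (Vᗮ.orthogonalProjectionOnto : EuclideanSpace ℝ (Fin d) →ₗ[ℝ] Vᗮ) = Vᗮᗮ :=
      Vᗮ.ker_orthogonalProjectionOnto
    rw [h1, h2, Submodule.orthogonal_orthogonal]
    exact (Submodule.isCompl_orthogonal_of_hasOrthogonalProjection).symm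
  have hr1 : LinearMap.range (V.orthogonalProjectionOnto : EuclideanSpace ℝ (Fin d) →ₗ[ℝ] V) = ⊤ := by
    rw [LinearMap.range_eq_top]
    intro v
    exact ⟨v, Submodule.orthogonalProjectionOnto_mem_subspace_eq_self v⟩
  have hr2 : LinearMap.range (Vᗮ.orthogonalProjectionOnto : EuclideanSpace ℝ (Fin d) →ₗ[ℝ] Vᗮ) = ⊤ := by
    rw [LinearMap.range_eq_top]
    intro v
    exact ⟨v, Submodule.orthogonalProjectionOnto_mem_subspace_eq_self v⟩
  set e : EuclideanSpace ℝ (Fin d) ≃ₗ[ℝ] V × Vᗮ :=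
    LinearMap.equivProdOfSurjectiveOfIsCompl _ _ hr1 hr2 hc1 with he
  have he1 : ∀ x, (e x).1 = V.orthogonalProjectionOnto x := fun x => rfl
  have hfin : finrank ℝ (V × Vᗮ) = d := by rw [← e.finrank_eq, hfr]
  have hfin2 : (finrank ℝ Vᗮ : ℝ) = d - finrank ℝ V := by
    have h1 : finrank ℝ V + finrank ℝ Vᗮ = d := by
      rw [← Module.finrank_prod, hfin]
    have h2 : (finrank ℝ V : ℝ) + finrank ℝ Vᗮ = d := by exact_mod_cast h1
    linarith
  set K' : Set (V × Vᗮ) := e '' K with hK'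
  have hcont : Continuous e := e.toContinuousLinearEquiv.continuous
  have hK'c : IsCompact K' := hKc.image hcont
  have hK'conv : Convex ℝ K' := hK.linear_image (e : EuclideanSpace ℝ (Fin d) →ₗ[ℝ] V × Vᗮ)
  have hK'i : (interior K').Nonempty := by
    have h1 : IsOpen (e '' interior K) :=
      e.toContinuousLinearEquiv.toHomeomorph.isOpenMap _ isOpen_interior
    exact (hKi.image _).mono (interior_maximal (image_mono interior_subset) h1)
  refine cover_of_heavy hK hKc hKi hfr hd fun l hl hl1 A hA => ?_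
  refine heavy_transport e A ?_
  have h3 := heavy_fib hK'conv hK'c hK'i p hκ (x₀ := x₀) (fun v hv => by
      obtain ⟨x, hx, hxv⟩ := hin v hv
      refine ⟨(e x).2, x, hx, ?_⟩
      rw [← hxv, ← he1]) (by
      rintro _ ⟨x, hx, rfl⟩
      rw [he1]
      exact hout x hx) hN hR (by rw [hfin, hfin2]; exact hcod) hl hl1
    (A.map e.toEquiv.toEmbedding) (by
      intro x hx
      rw [Finset.mem_map] at hx
      obtain ⟨a, ha, rfl⟩ := hx
      exact ⟨a, hA a ha, rfl⟩)
  rw [hfin] at h3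
  exact h3

/-- the projection of the polar body is the polar body of the section -/
theorem polar_section {d : ℕ} {V : Submodule ℝ (EuclideanSpace ℝ (Fin d))}
    {K : Set (EuclideanSpace ℝ (Fin d))} (hK : Convex ℝ K) {o : EuclideanSpace ℝ (Fin d)}
    (ho : o ∈ interior K) {κ : ℝ} (hκ : 0 < κ) {p q : Seminorm ℝ V}
    (hq : ∀ v : V, q v ≤ 1 ↔ ∀ x : V, p x ≤ κ → ⟪v, x⟫_ℝ ≤ 1)
    (hin : ∀ v : V, p v ≤ 1 → o + (v : EuclideanSpace ℝ (Fin d)) ∈ K)
    (hout : ∀ v : V, o + (v : EuclideanSpace ℝ (Fin d)) ∈ K → p v ≤ κ) :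
    (∀ v : V, q (v - 0) ≤ 1 → ∃ x ∈ {v : EuclideanSpace ℝ (Fin d) | ∀ y ∈ K, ⟪v, y - o⟫_ℝ ≤ 1},
      V.orthogonalProjectionOnto x = v) ∧
      ∀ x ∈ {v : EuclideanSpace ℝ (Fin d) | ∀ y ∈ K, ⟪v, y - o⟫_ℝ ≤ 1},
        q (V.orthogonalProjectionOnto x - 0) ≤ κ := by
  constructor
  · intro v hv
    rw [sub_zero] at hv
    set S : Set (EuclideanSpace ℝ (Fin d)) := (fun z => o + z) ⁻¹' K with hS
    have hSc : Convex ℝ S := hK.translate_preimage_right o
    have hS0 : S ∈ nhds (0 : EuclideanSpace ℝ (Fin d)) := by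
      have h1 : (fun z => o + z) ⁻¹' interior K ∈ nhds (0 : EuclideanSpace ℝ (Fin d)) := by
        refine (isOpen_interior.preimage (by fun_prop)).mem_nhds ?_
        simpa using ho
      exact Filter.mem_of_superset h1 (preimage_mono interior_subset)
    have habs : Absorbent ℝ S := absorbent_nhds_zero hS0
    obtain ⟨g, hg1, hg2⟩ := exists_extension_of_le_sublinear
      ⟨V, ((innerSL ℝ v : V →L[ℝ] ℝ) : V →ₗ[ℝ] ℝ)⟩ (gauge S)
      (fun c hc x => by
        rw [gauge_smul_of_nonneg hc.le, smul_eq_mul]) (gauge_add_le hSc habs) (by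
        intro x
        refine le_of_forall_gt_imp_ge_of_dense fun a ha => ?_
        obtain ⟨b, hb0, hb, z, hz, hzx⟩ := exists_lt_of_gauge_lt habs ha
        simp only at hzx
        have hzV : z ∈ V := by
          have : z = b⁻¹ • (x : EuclideanSpace ℝ (Fin d)) := by
            rw [← hzx, smul_smul, inv_mul_cancel₀ hb0.ne', one_smul]
          rw [this]
          exact V.smul_mem _ x.2
        have h1 : ⟪v, (⟨z, hzV⟩ : V)⟫_ℝ ≤ 1 := (hq v).1 hv _ (hout ⟨z, hzV⟩ hz)
        have h2 : x = b • (⟨z, hzV⟩ : V) := by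
          apply Subtype.ext
          exact hzx.symm
        have h3 : ⟪v, b • (⟨z, hzV⟩ : V)⟫_ℝ = b * ⟪v, (⟨z, hzV⟩ : V)⟫_ℝ :=
          real_inner_smul_right v (⟨z, hzV⟩ : V) b
        have h4 : ⟪v, b • (⟨z, hzV⟩ : V)⟫_ℝ ≤ a := by
          rw [h3]
          nlinarith
        show ⟪v, x⟫_ℝ ≤ a
        rw [h2]
        exact h4)
    refine ⟨(InnerProductSpace.toDual ℝ _).symm (LinearMap.toContinuousLinearMap g), ?_, ?_⟩
    · intro y hy
      rw [InnerProductSpace.toDual_symm_apply]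
      refine (hg2 (y - o)).trans (gauge_le_one_of_mem ?_)
      show o + (y - o) ∈ K
      rw [add_sub_cancel]
      exact hy
    · refine ext_inner_right ℝ fun u => ?_
      rw [Submodule.inner_orthogonalProjectionOnto_eq_of_mem_right]
      rw [InnerProductSpace.toDual_symm_apply]
      exact hg1 u
  · intro x hx
    rw [sub_zero]
    refine dual_le hq hκ fun y hy => ?_
    rw [Submodule.inner_orthogonalProjectionOnto_eq_of_mem_right]
    have h1 := hx (o + ((κ⁻¹ • y : V) : EuclideanSpace ℝ (Fin d))) (hin _ (by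
      rw [map_smul_eq_mul, norm_inv, Real.norm_of_nonneg hκ.le, inv_mul_le_iff₀ hκ, mul_one]
      exact hy))
    rw [add_sub_cancel_left, Submodule.coe_smul, real_inner_smul_right,
      inv_mul_le_iff₀ hκ, mul_one] at h1
    exact h1

/-- a ball of `p` is bounded -/
theorem ball_bdd' {d : ℕ} {V : Submodule ℝ (EuclideanSpace ℝ (Fin d))}
    {K : Set (EuclideanSpace ℝ (Fin d))} (hK : Bornology.IsBounded K)
    {o : EuclideanSpace ℝ (Fin d)} {κ : ℝ} (hκ : 0 < κ) {p : Seminorm ℝ V}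
    (hin : ∀ v : V, p v ≤ 1 → o + (v : EuclideanSpace ℝ (Fin d)) ∈ K) :
    ∃ R, ∀ x : V, p x ≤ κ → ‖x‖ ≤ R := by
  obtain ⟨R, hR⟩ := hK.subset_closedBall o
  refine ⟨κ * R, fun x hx => ?_⟩
  have h1 := hR (hin (κ⁻¹ • x) (by
    rw [map_smul_eq_mul, norm_inv, Real.norm_of_nonneg hκ.le, inv_mul_le_iff₀ hκ, mul_one]
    exact hx))
  rw [Metric.mem_closedBall, dist_eq_norm, add_sub_cancel_left, Submodule.coe_smul, norm_smul,
    norm_inv, Real.norm_of_nonneg hκ.le, inv_mul_le_iff₀ hκ] at h1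
  exact h1

end Pool.Agent.U330.COV
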