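import Pool.Agent.U330.COV.Cov
import Pool.Agent.U330.COV.Proj
import Pool.Agent.U330.COV.Hyper

/-!
# Large dimensions; the dual of an ellipsoidal norm
-/

set_option autoImplicit false

noncomputable section

open MeasureTheory Set Module
open scoped Pointwise InnerProductSpace

namespace Pool.Agent.U330.COV

/-- the bound -/
def bnd10 (d N : ℕ) : ℝ :=
  1 + 6 * 2 ^ d * Real.exp (-(d / 10 ^ N)) * (d * Real.log (2 * d ^ 2 + 2 * d + 1))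

lemma bnd10_nonneg (d N : ℕ) : 0 ≤ bnd10 d N := by
  unfold bnd10
  have : 0 ≤ (d : ℝ) * Real.log (2 * (d : ℝ) ^ 2 + 2 * d + 1) := by
    refine mul_nonneg (Nat.cast_nonneg d) (Real.log_nonneg ?_)
    have : (0 : ℝ) ≤ d := Nat.cast_nonneg d
    nlinarith
  positivity

/-- the explicit condition for `2^d - 1` -/
theorem bnd10_lt {d N : ℕ} (hd : 3 ≤ d)
    (h : 7 * (d * Real.log (2 * d ^ 2 + 2 * d + 1)) ≤ Real.exp (d / 10 ^ N)) :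
    bnd10 d N < 2 ^ d := by
  unfold bnd10
  set D : ℝ := d * Real.log (2 * d ^ 2 + 2 * d + 1) with hD
  have h1 : Real.exp (-(d / 10 ^ N)) * D ≤ 1 / 7 := by
    rw [Real.exp_neg, ← div_eq_inv_mul, div_le_div_iff₀ (Real.exp_pos _) (by norm_num)]
    linarith
  have h2 : (8 : ℝ) ≤ 2 ^ d := by
    calc (8 : ℝ) = 2 ^ 3 := by norm_num
      _ ≤ 2 ^ d := pow_le_pow_right₀ (by norm_num) hd
  have h3 : 6 * 2 ^ d * Real.exp (-(d / 10 ^ N)) * D ≤ 6 * 2 ^ d * (1 / 7) := by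
    rw [mul_assoc]
    exact mul_le_mul_of_nonneg_left h1 (by positivity)
  linarith

/-- large dimensions -/
theorem large10 (N : ℕ) : ∃ d₀ : ℕ, ∀ d : ℕ, d₀ ≤ d → 3 ≤ d ∧
    7 * (d * Real.log (2 * d ^ 2 + 2 * d + 1)) ≤ Real.exp (d / 10 ^ N) := by
  set a : ℝ := 1 / 10 ^ N with ha
  have ha0 : 0 < a := by positivity
  have h1 := Real.tendsto_pow_mul_exp_neg_atTop_nhds_zero 3
  have h2 : Filter.Tendsto (fun d : ℕ => (a * d) ^ 3 * Real.exp (-(a * d))) Filter.atTop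
      (nhds 0) := by
    refine h1.comp ?_
    exact (tendsto_natCast_atTop_atTop).const_mul_atTop ha0
  have h3 : ∀ᶠ d : ℕ in Filter.atTop, (a * d) ^ 3 * Real.exp (-(a * d)) < a ^ 3 / 35 :=
    h2.eventually_lt_const (by positivity)
  obtain ⟨d₁, hd₁⟩ := h3.exists_forall_of_atTop
  refine ⟨max 3 d₁, fun d hd => ⟨(le_max_left _ _).trans hd, ?_⟩⟩
  have h4 := hd₁ d ((le_max_right _ _).trans hd)
  have hd3 : (3 : ℝ) ≤ d := by exact_mod_cast (le_max_left _ _).trans hd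
  have e : (d : ℝ) / 10 ^ N = a * d := by rw [ha]; ring
  rw [e]
  have h5 : (d : ℝ) ^ 3 * 35 ≤ Real.exp (a * d) := by
    rw [Real.exp_neg, ← div_eq_mul_inv, div_lt_iff₀ (Real.exp_pos _), mul_pow] at h4
    have h6 : a ^ 3 * (d : ℝ) ^ 3 < a ^ 3 * (Real.exp (a * d) / 35) := by
      calc a ^ 3 * (d : ℝ) ^ 3 < a ^ 3 / 35 * Real.exp (a * d) := h4
        _ = _ := by ring
    have h7 := lt_of_mul_lt_mul_left h6 (by positivity)
    linarith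
  refine le_trans ?_ h5
  have h6 : Real.log (2 * (d : ℝ) ^ 2 + 2 * d + 1) ≤ 2 * (d : ℝ) ^ 2 + 2 * d + 1 - 1 :=
    Real.log_le_sub_one_of_pos (by positivity)
  have h7 : Real.log (2 * (d : ℝ) ^ 2 + 2 * d + 1) ≤ 5 * (d : ℝ) ^ 2 := by nlinarith
  calc 7 * ((d : ℝ) * Real.log (2 * (d : ℝ) ^ 2 + 2 * d + 1)) ≤ 7 * (d * (5 * (d : ℝ) ^ 2)) := by
        gcongr
    _ = (d : ℝ) ^ 3 * 35 := by ring

/-- the dual of an ellipsoidal norm -/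
theorem ell_dual {F : Type*} [NormedAddCommGroup F] [InnerProductSpace ℝ F]
    [FiniteDimensional ℝ F] (A : F ≃ₗ[ℝ] F) {κ : ℝ} (hκ : 0 < κ) {N : ℕ}
    (hN : 64 * κ ^ 2 ≤ N) :
    ∃ p q : Seminorm ℝ F, (∀ v, p v = ‖A v‖) ∧
      (∀ v, q v ≤ 1 ↔ ∀ x, p x ≤ κ → ⟪v, x⟫_ℝ ≤ 1) ∧
      (∀ y : Fin N → F, (∀ i, p (y i) ≤ 1) →
        ∑ e : Fin N → Bool, p (∑ i, sg (e i) • y i) ≤ 2 ^ N * (N / (8 * κ))) ∧
      ∀ y : Fin N → F, (∀ i, q (y i) ≤ 1) →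
        ∑ e : Fin N → Bool, q (∑ i, sg (e i) • y i) ≤ 2 ^ N * (N / (8 * κ)) := by
  set p : Seminorm ℝ F := (normSeminorm ℝ F).comp (A : F →ₗ[ℝ] F) with hp
  have hpv : ∀ v, p v = ‖A v‖ := fun v => rfl
  set R : F →ₗ[ℝ] F := LinearMap.adjoint (A.symm : F →ₗ[ℝ] F) with hR
  set q : Seminorm ℝ F := (normSeminorm ℝ F).comp (κ • R) with hq
  have hqv : ∀ v, q v = κ * ‖R v‖ := by
    intro v
    have : q v = ‖(κ • R) v‖ := rfl
    rw [this, LinearMap.smul_apply, norm_smul, Real.norm_of_nonneg hκ.le]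
  have hadj : ∀ v x, ⟪v, x⟫_ℝ = ⟪R v, A x⟫_ℝ := by
    intro v x
    rw [hR, LinearMap.adjoint_inner_left]
    simp
  have hdual : ∀ v, q v ≤ 1 ↔ ∀ x, p x ≤ κ → ⟪v, x⟫_ℝ ≤ 1 := by
    intro v
    rw [hqv]
    constructor
    · intro hv x hx
      rw [hpv] at hx
      rw [hadj]
      calc ⟪R v, A x⟫_ℝ ≤ ‖R v‖ * ‖A x‖ := real_inner_le_norm _ _
        _ ≤ ‖R v‖ * κ := mul_le_mul_of_nonneg_left hx (norm_nonneg _)
        _ ≤ 1 := by linarith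
    · intro hv
      rcases eq_or_ne (R v) 0 with h0 | h0
      · rw [h0, norm_zero, mul_zero]
        exact zero_le_one
      · have hn : 0 < ‖R v‖ := norm_pos_iff.2 h0
        have h3 := hv (A.symm ((κ / ‖R v‖) • R v)) (by
          rw [hpv, LinearEquiv.apply_symm_apply, norm_smul, Real.norm_of_nonneg (by positivity),
            div_mul_cancel₀ _ hn.ne'])
        rw [hadj, LinearEquiv.apply_symm_apply, real_inner_smul_right,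
          real_inner_self_eq_norm_sq] at h3
        have e : κ / ‖R v‖ * ‖R v‖ ^ 2 = κ * ‖R v‖ := by field_simp
        rw [e] at h3
        exact h3
  exact ⟨p, q, hpv, hdual,
    fun y hy => rad_hilbert' (A : F →ₗ[ℝ] F) one_pos hκ hN
      (fun v => by rw [one_mul]; exact hpv v) y hy,
    fun y hy => rad_hilbert' R hκ hκ hN hqv y hy⟩

/-- **separation for bodies with a large section near the unit ball of a space the dual of which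
has small Rademacher averages** -/
theorem sep_section {d : ℕ} (hd : 2 ≤ d) {K : Set (EuclideanSpace ℝ (Fin d))} (hK : Convex ℝ K)
    (hKc : IsCompact K) {o : EuclideanSpace ℝ (Fin d)} (ho : o ∈ interior K)
    (V : Submodule ℝ (EuclideanSpace ℝ (Fin d))) {p q : Seminorm ℝ V} {κ : ℝ} (hκ : 0 < κ)
    (hq : ∀ v : V, q v ≤ 1 ↔ ∀ x : V, p x ≤ κ → ⟪v, x⟫_ℝ ≤ 1)
    (hin : ∀ v : V, p v ≤ 1 → o + (v : EuclideanSpace ℝ (Fin d)) ∈ K)
    (hout : ∀ v : V, o + (v : EuclideanSpace ℝ (Fin d)) ∈ K → p v ≤ κ) {N : ℕ} (hN : 2 ≤ N)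
    (hR : ∀ y : Fin N → V, (∀ i, q (y i) ≤ 1) →
      ∑ e : Fin N → Bool, q (∑ i, sg (e i) • y i) ≤ 2 ^ N * (N / (8 * κ)))
    (hcod : ((d : ℝ) - finrank ℝ V) * 10 ^ N ≤ d) :
    ∃ H : Finset (EuclideanSpace ℝ (Fin d) × ℝ), (H.card : ℝ) ≤ bnd10 d N ∧ (∀ h ∈ H, h.1 ≠ 0) ∧
      ∀ u x₀ : EuclideanSpace ℝ (Fin d), u ≠ 0 → x₀ ∈ K → (∀ y ∈ K, ⟪u, y⟫_ℝ ≤ ⟪u, x₀⟫_ℝ) →
        ∃ h ∈ H, ⟪h.1, o⟫_ℝ < h.2 ∧ ∀ x ∈ K, ⟪u, x⟫_ℝ = ⟪u, x₀⟫_ℝ → h.2 < ⟪h.1, x⟫_ℝ := by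
  obtain ⟨hs1, hs2⟩ := polar_section hK ho hκ hq hin hout
  obtain ⟨H, hH, h3, h4⟩ := hyperplanes hKc ho (n := ⌊bnd10 d N⌋₊) (fun hPc hPk hPi => by
    obtain ⟨T, hT, hcard⟩ := cover_proj hd hPc hPk hPi V q hκ hs1 hs2 hN hR hcod
    exact ⟨T, Nat.le_floor hcard, hT⟩)
  refine ⟨H, ?_, h3, h4⟩
  calc (H.card : ℝ) ≤ (⌊bnd10 d N⌋₊ : ℝ) := by exact_mod_cast hH
    _ ≤ bnd10 d N := Nat.floor_le (bnd10_nonneg d N)

end Pool.Agent.U330.COV
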