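import Pool.Agent.U330.COV.Step
import Pool.Agent.U330.COV.Expand

/-!
# A heavy translate, for convex bodies near the unit ball of a space with small Rademacher averages
-/

set_option autoImplicit false

noncomputable section

open MeasureTheory Set Module
open scoped Pointwise

namespace Pool.Agent.U330.COV

open Pool.Agent.H2R2.Cov

lemma chain {m : ℕ → ℝ} {β : ℝ} (hβ : 0 < β) (h : ∀ j, m (j + 1) ^ 2 ≤ β * m j) (N : ℕ) :
    (m N / β) ^ (2 ^ N) ≤ m 0 / β := by
  induction N with
  | zero => simp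
  | succ N ih =>
    calc (m (N + 1) / β) ^ (2 ^ (N + 1)) = ((m (N + 1) / β) ^ 2) ^ (2 ^ N) := by
          rw [← pow_mul, pow_succ']
      _ ≤ (m N / β) ^ (2 ^ N) := by
          refine pow_le_pow_left₀ (sq_nonneg _) ?_ _
          rw [div_pow, div_le_div_iff₀ (by positivity) hβ]
          have h1 := mul_le_mul_of_nonneg_right (h N) hβ.le
          calc m (N + 1) ^ 2 * β ≤ β * m N * β := h1
            _ = m N * β ^ 2 := by ring
      _ ≤ _ := ih

section Alg

variable {E : Type*} [AddCommGroup E] [Module ℝ E]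

lemma cone_sum {K : Set E} (hK : Convex ℝ K) (hne : K.Nonempty) {ι : Type*} (s : Finset ι)
    (w : ι → ℝ) (z : ι → E) (hw : ∀ i ∈ s, 0 ≤ w i) (hz : ∀ i ∈ s, z i ∈ K) :
    ∑ i ∈ s, w i • z i ∈ (∑ i ∈ s, w i) • K := by
  classical
  induction s using Finset.induction_on with
  | empty =>
    rw [Finset.sum_empty, Finset.sum_empty, zero_smul_set hne]
    exact Set.mem_zero.2 rfl
  | insert a s ha ih =>
    rw [Finset.sum_insert ha, Finset.sum_insert ha,
      hK.add_smul (hw a (Finset.mem_insert_self a s))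
        (Finset.sum_nonneg fun i hi => hw i (Finset.mem_insert_of_mem hi))]
    exact Set.add_mem_add (Set.smul_mem_smul_set (hz a (Finset.mem_insert_self a s)))
      (ih (fun i hi => hw i (Finset.mem_insert_of_mem hi))
        (fun i hi => hz i (Finset.mem_insert_of_mem hi)))

lemma geo {c l : ℝ} (hc : c * (1 + l) = l) (N : ℕ) :
    ∑ i : Fin N, c ^ (i : ℕ) + c ^ N * (1 + l) = 1 + l := by
  rw [Fin.sum_univ_eq_sum_range (fun i => c ^ i) N]
  induction N with
  | zero => simp
  | succ N ih =>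
    rw [Finset.sum_range_succ, pow_succ]
    have : c ^ N * c * (1 + l) = c ^ N * l := by rw [mul_assoc, hc]
    rw [this]
    linarith

lemma mem_M {K : Set E} (hK : Convex ℝ K) {c l : ℝ} (hc0 : 0 < c) (hc1 : c ≤ 1) (hl : 0 < l)
    (hc : c * (1 + l) = l) {N : ℕ} (x x' : Fin N → E) (hx : ∀ i, x i ∈ K) {k k' x₀ : E}
    (hk : k ∈ K) (hk' : k' ∈ K) (h : ∑ i, (x i - x' i) = ((N : ℝ) / 2) • (k' - x₀)) :
    ∑ i : Fin N, c ^ (i : ℕ) • x i + c ^ N • ((1 + l) • k) -
      c ^ (N - 1) • (∑ i, x' i - ((N : ℝ) / 2) • x₀) ∈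
      (1 + l - N * c ^ (N - 1) / 2) • K := by
  have hne : K.Nonempty := ⟨k, hk⟩
  have hw : ∀ i : Fin N, 0 ≤ c ^ (i : ℕ) - c ^ (N - 1) := by
    intro i
    rw [sub_nonneg]
    exact pow_le_pow_of_le_one hc0.le hc1 (by have := i.2; omega)
  have h1 := cone_sum hK hne Finset.univ (fun i : Fin N => c ^ (i : ℕ) - c ^ (N - 1)) x
    (fun i _ => hw i) (fun i _ => hx i)
  have h2 : (c ^ N * (1 + l)) • k ∈ (c ^ N * (1 + l)) • K := Set.smul_mem_smul_set hk
  have h3 : (c ^ (N - 1) * ((N : ℝ) / 2)) • k' ∈ (c ^ (N - 1) * ((N : ℝ) / 2)) • K :=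
    Set.smul_mem_smul_set hk'
  have h4 := Set.add_mem_add (Set.add_mem_add h1 h2) h3
  rw [← hK.add_smul (Finset.sum_nonneg fun i _ => hw i) (by positivity),
    ← hK.add_smul (add_nonneg (Finset.sum_nonneg fun i _ => hw i) (by positivity))
      (by positivity)] at h4
  have e1 : ∑ i : Fin N, (c ^ (i : ℕ) - c ^ (N - 1)) + c ^ N * (1 + l) +
      c ^ (N - 1) * ((N : ℝ) / 2) = 1 + l - N * c ^ (N - 1) / 2 := by
    have := geo hc N
    rw [Finset.sum_sub_distrib, Finset.sum_const, Finset.card_univ, Fintype.card_fin,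
      nsmul_eq_mul]
    linarith
  rw [e1] at h4
  convert h4 using 1
  have e2 : ∑ i, x' i = ∑ i, x i - ((N : ℝ) / 2) • (k' - x₀) := by
    rw [← h, Finset.sum_sub_distrib]
    abel
  have e3 : ∑ i : Fin N, (c ^ (i : ℕ) - c ^ (N - 1)) • x i =
      ∑ i : Fin N, c ^ (i : ℕ) • x i - c ^ (N - 1) • ∑ i, x i := by
    rw [Finset.smul_sum, ← Finset.sum_sub_distrib]
    exact Finset.sum_congr rfl fun i _ => sub_smul _ _ _
  rw [e2, e3]
  module

end Alg

section Main

variable {E : Type*} [NormedAddCommGroup E] [NormedSpace ℝ E] [FiniteDimensional ℝ E]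

/-- **a heavy translate** -/
theorem heavy_rad {K : Set E} (hK : Convex ℝ K) (hKc : IsCompact K) (hKi : (interior K).Nonempty)
    (p : Seminorm ℝ E) {κ : ℝ} (hκ : 0 < κ) {x₀ : E} (hin : ∀ x, p (x - x₀) ≤ 1 → x ∈ K)
    (hout : ∀ x ∈ K, p (x - x₀) ≤ κ) {N : ℕ} (hN : 2 ≤ N)
    (hR : ∀ y : Fin N → E, (∀ i, p (y i) ≤ 1) →
      ∑ e : Fin N → Bool, p (∑ i, sg (e i) • y i) ≤ 2 ^ N * (N / (8 * κ)))
    {l : ℝ} (hl : 1 / 2 ≤ l) (hl1 : l ≤ 1) (A : Finset E) (hA : ∀ x ∈ A, x ∈ K) :
    ∃ t : E, (1 / 2 * Real.exp (finrank ℝ E / 6 ^ N) * (l / (1 + l)) ^ finrank ℝ E) * A.card ≤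
      wt A (fun _ => 1) (l • K) t := by
  classical
  borelize E
  let μ : Measure E := Measure.addHaar
  rcases A.eq_empty_or_nonempty with rfl | hAne
  · exact ⟨0, by simp [wt]⟩
  obtain ⟨t, ht⟩ := exists_max_wt A (fun _ => 1) (l • K)
  refine ⟨t, ?_⟩
  set q := wt A (fun _ => 1) (l • K) t with hq
  set d := finrank ℝ E with hd
  have hl0 : 0 < l := by linarith
  set c : ℝ := l / (1 + l) with hc
  have hc0 : 0 < c := by positivity
  have hc1 : c ≤ 1 := by rw [hc, div_le_one (by positivity)]; linarith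
  have hc3 : 1 / 3 ≤ c := by
    rw [hc, div_le_div_iff₀ (by norm_num) (by positivity)]; linarith
  have hcl : c * (1 + l) = l := by rw [hc]; field_simp
  have hne : K.Nonempty := hKi.mono interior_subset
  have hKm : MeasurableSet K := hKc.isClosed.measurableSet
  have hμ0 : μ K ≠ 0 := fun h => by
    have := isOpen_interior.measure_pos μ hKi
    have h2 : μ (interior K) ≤ μ K := measure_mono interior_subset
    rw [h] at h2
    exact absurd this (not_lt.mpr h2)
  have hμf : μ K ≠ ⊤ := hKc.measure_lt_top.ne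
  set k : ℝ := μ.real K with hk
  have hk0 : 0 < k := ENNReal.toReal_pos hμ0 hμf
  have hvol : ∀ r : ℝ, 0 < r → μ.real (r • K) = r ^ d * k := by
    intro r hr
    rw [measureReal_def, Measure.addHaar_smul, abs_of_nonneg (by positivity), ENNReal.toReal_mul,
      ENNReal.toReal_ofReal (by positivity)]
    rfl
  set Q : Set E := (1 + l) • K with hQ
  have hQc : IsCompact Q := hKc.smul _
  have hQm : MeasurableSet Q := hQc.isClosed.measurableSet
  have hQf : μ Q ≠ ⊤ := hQc.measure_lt_top.ne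
  have hQv : μ.real Q = (1 + l) ^ d * k := hvol _ (by positivity)
  have hQ0 : 0 < μ.real Q := by rw [hQv]; positivity
  have hLv : μ.real (l • K) = c ^ d * μ.real Q := by
    rw [hvol l hl0, hQv, ← mul_assoc, ← mul_pow, hcl]
  set P : ℝ := (A.card : ℝ) with hP
  have hP0 : 0 < P := by rw [hP]; exact_mod_cast hAne.card_pos
  have hcd : 0 < c ^ d := by positivity
  -- the centre
  have hN0 : (0 : ℝ) < N := by exact_mod_cast (by omega : 0 < N)
  obtain ⟨x', hx'⟩ := exists_centre p hAne hκ.le (fun x hx => hout x (hA x hx)) hR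
  have hgood := good_count (fun x : Fin N → A => p (∑ i, ((x i : E) - (x' i : E))))
    (fun x => apply_nonneg p _) (D := (N : ℝ) / 4) (by positivity) (by
      refine hx'.trans (le_of_eq ?_)
      congr 1
      field_simp
      ring)
  -- the set `M`
  set r : ℝ := 1 + l - N * c ^ (N - 1) / 2 with hr
  set v₀ : E := c ^ (N - 1) • (∑ i, (x' i : E) - ((N : ℝ) / 2) • x₀) with hv₀
  set M : Set E := (fun y => v₀ + y) '' (r • K) with hM
  have hr0 : 0 < r := by
    have h1 := geo hcl N
    have h2 : (N : ℝ) * c ^ (N - 1) ≤ ∑ i : Fin N, c ^ (i : ℕ) := by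
      have : (N : ℝ) * c ^ (N - 1) = ∑ _i : Fin N, c ^ (N - 1) := by
        rw [Finset.sum_const, Finset.card_univ, Fintype.card_fin, nsmul_eq_mul]
      rw [this]
      refine Finset.sum_le_sum fun i _ => ?_
      exact pow_le_pow_of_le_one hc0.le hc1 (by have := i.2; omega)
    have h3 : 0 < c ^ N * (1 + l) := by positivity
    have h4 : 0 ≤ (N : ℝ) * c ^ (N - 1) := by positivity
    rw [hr]
    linarith
  have hMc : IsCompact M := (hKc.smul r).image (by fun_prop)
  have hMm : MeasurableSet M := hMc.isClosed.measurableSet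
  have hMf : μ M ≠ ⊤ := hMc.measure_lt_top.ne
  have hMv : μ.real M = r ^ d * k := by
    rw [← hvol r hr0, hM, measureReal_def, Set.image_add_left, measure_preimage_add]
    rfl
  -- the functions
  set φ : E → ℝ := M.indicator (fun _ => (1 : ℝ)) with hφ
  have hφm : Measurable φ := measurable_const.indicator hMm
  have hφ0 : ∀ y, 0 ≤ φ y := fun y => Set.indicator_nonneg (fun _ _ => zero_le_one) _
  have hφ1 : ∀ y, φ y ≤ 1 := fun y => Set.indicator_le_self' (fun _ _ => zero_le_one) _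
  have hψm : ∀ j, Measurable ((av A c)^[j] φ) := by
    intro j
    induction j with
    | zero => exact hφm
    | succ j ih =>
      rw [Function.iterate_succ_apply']
      unfold av at ih ⊢
      exact (Finset.measurable_sum _ fun a _ => ih.comp (by fun_prop)).const_mul _
  have hψ : ∀ j, (∀ y, 0 ≤ (av A c)^[j] φ y) ∧ ∀ y, (av A c)^[j] φ y ≤ 1 :=
    fun j => av_mem A c hφ0 hφ1 j
  set m : ℕ → ℝ := fun j => (μ.real Q)⁻¹ * ∫ y in Q, (av A c)^[j] φ y ∂μ with hm
  set β : ℝ := q / P * (c ^ d)⁻¹ with hβ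
  -- `β ≥ 1`
  have hβ1 : 1 ≤ β := by
    have h1 := step μ A hK hKc hl0 hA ht (φ := fun _ => (1 : ℝ)) measurable_const
      (fun _ => zero_le_one) (fun _ => le_rfl)
    simp only [setIntegral_const, smul_eq_mul, mul_one] at h1
    rw [Finset.sum_const, nsmul_eq_mul, ← hP, ← hc, ← hd, ← hQ, hLv] at h1
    have h2 : (P * μ.real Q) ^ 2 ≤ β * (P * μ.real Q) ^ 2 := by
      refine h1.trans (le_of_eq ?_)
      rw [hβ]
      field_simp
    have h3 : 0 < (P * μ.real Q) ^ 2 := by positivity
    nlinarith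
  have hβ0 : 0 < β := by linarith
  have hstep : ∀ j, m (j + 1) ^ 2 ≤ β * m j := by
    intro j
    have h1 := step μ A hK hKc hl0 hA ht (φ := (av A c)^[j] φ) (hψm j) (hψ j).1 (hψ j).2
    rw [← hP, ← hc, ← hd, ← hQ, hLv] at h1
    have h2 : ∫ y in Q, (av A c)^[j + 1] φ y ∂μ =
        P⁻¹ * ∑ a ∈ A, ∫ y in Q, (av A c)^[j] φ (a + c • y) ∂μ := by
      rw [Function.iterate_succ']
      simp only [Function.comp_apply]
      unfold av
      rw [integral_const_mul, integral_finsetSum]
      intro a _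
      have := hψm j
      unfold av at this
      refine intOn μ hQf (this.comp (by fun_prop)) (fun y => ?_) (C := 1) (fun y => ?_)
      · exact (hψ j).1 _
      · exact (hψ j).2 _
    have h3 : m (j + 1) ^ 2 = (μ.real Q)⁻¹ ^ 2 * P⁻¹ ^ 2 *
        (∑ a ∈ A, ∫ y in Q, (av A c)^[j] φ (a + c • y) ∂μ) ^ 2 := by
      simp only [hm]
      rw [h2]
      ring
    rw [h3]
    refine (mul_le_mul_of_nonneg_left h1 (by positivity)).trans (le_of_eq ?_)
    simp only [hm]
    rw [hβ]
    field_simp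
  have hchain := chain hβ0 hstep N
  -- `m 0`
  have hm0 : m 0 ≤ (r / (1 + l)) ^ d := by
    have h1 : ∫ y in Q, φ y ∂μ ≤ r ^ d * k := by
      rw [← hMv, hφ]
      rw [setIntegral_indicator hMm, setIntegral_const, smul_eq_mul, mul_one]
      exact measureReal_mono Set.inter_subset_right hMf
    simp only [hm, Function.iterate_zero, id_eq]
    rw [hQv, div_pow, inv_mul_le_iff₀ (by positivity)]
    refine h1.trans (le_of_eq ?_)
    field_simp
  -- `m N`
  have hmN : 1 / 2 ≤ m N := by
    have h1 : ∀ y ∈ Q, 1 / 2 ≤ (av A c)^[N] φ y := by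
      rintro _ ⟨y, hy, rfl⟩
      rw [av_iter, ← hP]
      have h2 : P ^ N / 2 ≤ ∑ x : Fin N → A,
          φ (∑ i : Fin N, c ^ (i : ℕ) • (x i : E) + c ^ N • (1 + l) • y) := by
        refine hgood.trans ?_
        rw [Finset.card_filter]
        push_cast
        refine Finset.sum_le_sum fun x _ => ?_
        split_ifs with h
        · have h5 : p (∑ i, ((x i : E) - (x' i : E))) ≤ (N : ℝ) / 2 := by
            have h6 : (2 : ℝ) * (N / 4) = N / 2 := by ring
            rw [h6] at h
            exact h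
          have hk' : x₀ + (2 / (N : ℝ)) • ∑ i, ((x i : E) - (x' i : E)) ∈ K := by
            refine hin _ ?_
            rw [add_sub_cancel_left, map_smul_eq_mul, Real.norm_of_nonneg (by positivity)]
            calc 2 / (N : ℝ) * p (∑ i, ((x i : E) - (x' i : E))) ≤ 2 / (N : ℝ) * (N / 2) :=
                  mul_le_mul_of_nonneg_left h5 (by positivity)
              _ = 1 := by field_simp
          have h7 := mem_M hK hc0 hc1 hl0 hcl (fun i => (x i : E)) (fun i => (x' i : E))
            (fun i => hA _ (x i).2) hy hk' (x₀ := x₀) (by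
              rw [add_sub_cancel_left, smul_smul]
              have : (N : ℝ) / 2 * (2 / N) = 1 := by field_simp
              rw [this, one_smul])
          have h8 : ∑ i : Fin N, c ^ (i : ℕ) • (x i : E) + c ^ N • (1 + l) • y ∈ M := by
            refine ⟨_, h7, ?_⟩
            simp only [hv₀]
            abel
          rw [hφ, Set.indicator_of_mem h8]
        · exact hφ0 _
      have h9 : 0 < P ^ N := by positivity
      rw [← div_eq_inv_mul, le_div_iff₀ h9]
      linarith
    have h3 : 1 / 2 * μ.real Q ≤ ∫ y in Q, (av A c)^[N] φ y ∂μ := by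
      have h4 : 1 / 2 * μ.real Q = ∫ _y in Q, (1 / 2 : ℝ) ∂μ := by
        rw [setIntegral_const, smul_eq_mul, mul_comm]
      rw [h4]
      exact setIntegral_mono_on (integrableOn_const hQf)
        (intOn μ hQf (hψm N) (hψ N).1 (hψ N).2) hQm h1
    simp only [hm]
    rw [← div_eq_inv_mul, le_div_iff₀ hQ0]
    exact h3
  -- conclusion
  set lam : ℝ := N * c ^ (N - 1) with hlam
  have hlam0 : 0 < lam := by positivity
  have hρ : (r / (1 + l)) ^ d ≤ Real.exp (-(lam / 4 * d)) := by
    have h1 : r / (1 + l) ≤ 1 - lam / 4 := by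
      rw [div_le_iff₀ (by positivity), hr]
      nlinarith
    have h2 : r / (1 + l) ≤ Real.exp (-(lam / 4)) := by
      refine h1.trans ?_
      have := Real.add_one_le_exp (-(lam / 4))
      linarith
    calc (r / (1 + l)) ^ d ≤ Real.exp (-(lam / 4)) ^ d :=
          pow_le_pow_left₀ (by positivity) h2 d
      _ = Real.exp (-(lam / 4 * d)) := by
          rw [← Real.exp_nat_mul]
          congr 1
          ring
  have h1 : (1 / (2 * β)) ^ (2 ^ N) ≤ Real.exp (-(lam / 4 * d)) := by
    calc (1 / (2 * β)) ^ (2 ^ N) ≤ (m N / β) ^ (2 ^ N) := by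
          refine pow_le_pow_left₀ (by positivity) ?_ _
          rw [div_le_div_iff₀ (by positivity) hβ0]
          nlinarith
      _ ≤ m 0 / β := hchain
      _ ≤ (r / (1 + l)) ^ d / β := by gcongr
      _ ≤ (r / (1 + l)) ^ d := div_le_self (by positivity) hβ1
      _ ≤ _ := hρ
  have h2 : Real.exp (lam / 4 * d / 2 ^ N) ≤ 2 * β := by
    have h3 : Real.exp (lam / 4 * d / 2 ^ N) ^ (2 ^ N) ≤ (2 * β) ^ (2 ^ N) := by
      have e1 : Real.exp (lam / 4 * d / 2 ^ N) ^ (2 ^ N) = Real.exp (lam / 4 * d) := by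
        rw [← Real.exp_nat_mul]
        congr 1
        push_cast
        field_simp
      rw [e1]
      rw [one_div, inv_pow, Real.exp_neg] at h1
      exact (inv_le_inv₀ (by positivity) (Real.exp_pos _)).1 h1
    exact (pow_le_pow_iff_left₀ (Real.exp_pos _).le (by positivity) (by positivity)).1 h3
  have h3 : (d : ℝ) / 6 ^ N ≤ lam / 4 * d / 2 ^ N := by
    have h4 : 1 / (6 : ℝ) ^ N ≤ lam / 4 / 2 ^ N := by
      have h5 : (1 / 3 : ℝ) ^ (N - 1) ≤ c ^ (N - 1) := pow_le_pow_left₀ (by norm_num) hc3 _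
      have h6 : (2 : ℝ) ≤ N := by exact_mod_cast hN
      have h7 : (2 : ℝ) * (1 / 3) ^ (N - 1) ≤ lam :=
        mul_le_mul h6 h5 (by positivity) (by positivity)
      have h8 : (1 / 3 : ℝ) ^ (N - 1) = 3 * (1 / 3) ^ N := by
        obtain ⟨n, rfl⟩ : ∃ n, N = n + 1 := ⟨N - 1, by omega⟩
        rw [Nat.add_sub_cancel, pow_succ]
        ring
      have h9 : (1 / 3 : ℝ) ^ N ≤ lam / 4 := by
        rw [h8] at h7
        have : (0 : ℝ) < (1 / 3) ^ N := by positivity
        linarith
      calc 1 / (6 : ℝ) ^ N = (1 / 3) ^ N / 2 ^ N := by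
            rw [div_pow, one_pow, div_div, ← mul_pow]
            norm_num
        _ ≤ _ := div_le_div_of_nonneg_right h9 (by positivity)
    calc (d : ℝ) / 6 ^ N = 1 / 6 ^ N * d := by ring
      _ ≤ lam / 4 / 2 ^ N * d := mul_le_mul_of_nonneg_right h4 (by positivity)
      _ = _ := by ring
  have h4 : Real.exp (d / 6 ^ N) ≤ 2 * β := (Real.exp_le_exp.2 h3).trans h2
  calc 1 / 2 * Real.exp (d / 6 ^ N) * c ^ d * P ≤ 1 / 2 * (2 * β) * c ^ d * P := by gcongr
    _ = q := by
        rw [hβ]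
        field_simp

end Main

end Pool.Agent.U330.COV
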