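import Pool.Agent.U330.COV.Heavy
import Pool.Agent.U330.COV.Fib

/-!
# A heavy translate, for bodies with a large projection near the unit ball of a space with small
Rademacher averages
-/

set_option autoImplicit false

noncomputable section

open MeasureTheory Set Module
open scoped Pointwise ENNReal

namespace Pool.Agent.U330.COV

open Pool.Agent.H2R2.Cov

variable {V W : Type*} [NormedAddCommGroup V] [NormedSpace ℝ V] [FiniteDimensional ℝ V]
  [NormedAddCommGroup W] [NormedSpace ℝ W] [FiniteDimensional ℝ W]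

/-- the numerical estimate -/
lemma exponent {k m N : ℕ} (hN : 2 ≤ N) {lam ρ : ℝ} (hρ0 : 0 < ρ) (hρ : ρ ≤ Real.exp (-(lam / 4)))
    (hlam : 3 * N * (1 / 3) ^ N ≤ lam) (hm : (m : ℝ) * 10 ^ N ≤ (k + m : ℕ)) :
    ρ ^ k ≤ Real.exp (-(lam / 16 * (k + m : ℕ))) *
      ((1 - 1 / 10 ^ N) ^ k * (1 - (1 - 1 / 10 ^ N)) ^ m) := by
  set ε : ℝ := 1 / 10 ^ N with hε
  set D : ℝ := ((k + m : ℕ) : ℝ) with hD
  have hD0 : 0 ≤ D := Nat.cast_nonneg _
  have hN2 : (2 : ℝ) ≤ N := by exact_mod_cast hN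
  have h10 : (0 : ℝ) < 10 ^ N := by positivity
  have h100 : (100 : ℝ) ≤ 10 ^ N := by
    calc (100 : ℝ) = 10 ^ 2 := by norm_num
      _ ≤ 10 ^ N := pow_le_pow_right₀ (by norm_num) hN
  have hε0 : 0 < ε := by positivity
  have hε1 : ε ≤ 1 / 100 := one_div_le_one_div_of_le (by norm_num) h100
  have hmD : (m : ℝ) ≤ ε * D := by
    rw [hε, one_div, ← div_eq_inv_mul, le_div_iff₀ h10]
    exact hm
  have hkD : (k : ℝ) = D - m := by rw [hD]; push_cast; ring
  have hk0 : (0 : ℝ) ≤ k := Nat.cast_nonneg k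
  have hm0 : (0 : ℝ) ≤ m := Nat.cast_nonneg m
  -- the two factors
  have h1 : Real.exp (-(2 * ε * k)) ≤ (1 - ε) ^ k := by
    have h2 : Real.exp (-(2 * ε)) ≤ 1 - ε := by
      have h3 : 1 + 2 * ε ≤ Real.exp (2 * ε) := by
        have := Real.add_one_le_exp (2 * ε)
        linarith
      rw [Real.exp_neg]
      refine (inv_anti₀ (by linarith) h3).trans ?_
      rw [inv_le_iff_one_le_mul₀ (by linarith)]
      nlinarith
    calc Real.exp (-(2 * ε * k)) = Real.exp (-(2 * ε)) ^ k := by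
          rw [← Real.exp_nat_mul]; congr 1; ring
      _ ≤ (1 - ε) ^ k := pow_le_pow_left₀ (Real.exp_pos _).le h2 k
  have h4 : Real.exp (-(3 * N * m)) ≤ (1 - (1 - ε)) ^ m := by
    have h5 : (10 : ℝ) ≤ Real.exp 3 := by
      have h6 := Real.add_one_le_exp (1 : ℝ)
      have h7 : Real.exp 3 = Real.exp 1 ^ 3 := by rw [← Real.exp_nat_mul]; norm_num
      have h8 := Real.exp_one_gt_d9
      rw [h7]
      have h9 : (2.7 : ℝ) ^ 3 ≤ Real.exp 1 ^ 3 := pow_le_pow_left₀ (by norm_num) (by linarith) 3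
      norm_num at h9 ⊢
      linarith
    have h6 : Real.exp (-(3 * N)) ≤ ε := by
      rw [hε, Real.exp_neg, ← one_div]
      refine one_div_le_one_div_of_le h10 ?_
      calc (10 : ℝ) ^ N ≤ Real.exp 3 ^ N := pow_le_pow_left₀ (by norm_num) h5 N
        _ = Real.exp (3 * N) := by rw [← Real.exp_nat_mul]; congr 1; ring
    have e : 1 - (1 - ε) = ε := by ring
    rw [e]
    calc Real.exp (-(3 * N * m)) = Real.exp (-(3 * N)) ^ m := by
          rw [← Real.exp_nat_mul]; congr 1; ring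
      _ ≤ ε ^ m := pow_le_pow_left₀ (Real.exp_pos _).le h6 m
  have h5 : ρ ^ k ≤ Real.exp (-(lam / 4 * k)) := by
    calc ρ ^ k ≤ Real.exp (-(lam / 4)) ^ k := pow_le_pow_left₀ hρ0.le hρ k
      _ = _ := by rw [← Real.exp_nat_mul]; congr 1; ring
  refine h5.trans ?_
  have h6 : Real.exp (-(lam / 16 * D)) * (Real.exp (-(2 * ε * k)) * Real.exp (-(3 * N * m))) ≤
      Real.exp (-(lam / 16 * D)) * ((1 - ε) ^ k * (1 - (1 - ε)) ^ m) :=
    mul_le_mul_of_nonneg_left (mul_le_mul h1 h4 (Real.exp_pos _).le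
      (pow_nonneg (by linarith) k)) (Real.exp_pos _).le
  refine le_trans ?_ h6
  rw [← Real.exp_add, ← Real.exp_add]
  refine Real.exp_le_exp.2 ?_
  -- the linear inequality
  have h7 : (3 * N + 2) * ε ≤ lam * (3 / 16 - 1 / 400) := by
    have h8 : (100 / 9 : ℝ) * (1 / 10) ^ N ≤ (1 / 3) ^ N := by
      obtain ⟨n, rfl⟩ : ∃ n, N = n + 2 := ⟨N - 2, by omega⟩
      rw [pow_add, pow_add]
      have : (1 / 10 : ℝ) ^ n ≤ (1 / 3) ^ n := pow_le_pow_left₀ (by norm_num) (by norm_num) n
      nlinarith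
    have h9 : ε = (1 / 10) ^ N := by rw [hε, div_pow, one_pow]
    have h10' : 3 * N * ((100 / 9 : ℝ) * ε) ≤ lam := by
      rw [h9]
      refine le_trans ?_ hlam
      exact mul_le_mul_of_nonneg_left h8 (by positivity)
    nlinarith
  have hlam0 : 0 ≤ lam := le_trans (by positivity) hlam
  have h8 : (3 * N + 2) * ε * D ≤ lam * (3 / 16 - 1 / 400) * D :=
    mul_le_mul_of_nonneg_right h7 hD0
  have h9 : 3 * N * m ≤ 3 * N * (ε * D) := mul_le_mul_of_nonneg_left hmD (by positivity)
  have h10' : 2 * ε * k ≤ 2 * ε * D := mul_le_mul_of_nonneg_left (by linarith) (by positivity)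
  have h11 : lam / 4 * m ≤ lam / 4 * (1 / 100 * D) :=
    mul_le_mul_of_nonneg_left (hmD.trans (mul_le_mul_of_nonneg_right hε1 hD0)) (by positivity)
  rw [hkD] at h10' ⊢
  nlinarith

/-- **a heavy translate** -/
theorem heavy_fib {K : Set (V × W)} (hK : Convex ℝ K) (hKc : IsCompact K)
    (hKi : (interior K).Nonempty) (p : Seminorm ℝ V) {κ : ℝ} (hκ : 0 < κ) {x₀ : V}
    (hin : ∀ v, p (v - x₀) ≤ 1 → ∃ w, (v, w) ∈ K) (hout : ∀ z ∈ K, p (z.1 - x₀) ≤ κ)
    {N : ℕ} (hN : 2 ≤ N)
    (hR : ∀ y : Fin N → V, (∀ i, p (y i) ≤ 1) →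
      ∑ e : Fin N → Bool, p (∑ i, sg (e i) • y i) ≤ 2 ^ N * (N / (8 * κ)))
    (hcod : (finrank ℝ W : ℝ) * 10 ^ N ≤ finrank ℝ (V × W))
    {l : ℝ} (hl : 1 / 2 ≤ l) (hl1 : l ≤ 1) (A : Finset (V × W)) (hA : ∀ x ∈ A, x ∈ K) :
    ∃ t : V × W, (1 / 2 * Real.exp (finrank ℝ (V × W) / 10 ^ N) *
      (l / (1 + l)) ^ finrank ℝ (V × W)) * A.card ≤ wt A (fun _ => 1) (l • K) t := by
  classical
  borelize V
  borelize W
  let μV : Measure V := Measure.addHaar
  let μW : Measure W := Measure.addHaar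
  let μ : Measure (V × W) := μV.prod μW
  rcases A.eq_empty_or_nonempty with rfl | hAne
  · exact ⟨0, by simp [wt]⟩
  obtain ⟨t, ht⟩ := exists_max_wt A (fun _ => 1) (l • K)
  refine ⟨t, ?_⟩
  set q := wt A (fun _ => 1) (l • K) t with hq
  set d := finrank ℝ (V × W) with hd
  have hdk : d = finrank ℝ V + finrank ℝ W := Module.finrank_prod
  have hl0 : 0 < l := by linarith
  set c : ℝ := l / (1 + l) with hc
  have hc0 : 0 < c := by positivity
  have hc1 : c ≤ 1 := by rw [hc, div_le_one (by positivity)]; linarith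
  have hc3 : 1 / 3 ≤ c := by
    rw [hc, div_le_div_iff₀ (by norm_num) (by positivity)]; linarith
  have hcl : c * (1 + l) = l := by rw [hc]; field_simp
  have hne : K.Nonempty := hKi.mono interior_subset
  have hKm : MeasurableSet K := hKc.isClosed.measurableSet
  have hμ0 : μ K ≠ 0 := fun h => by
    have := isOpen_interior.measure_pos μ hKi
    have h2 : μ (interior K) ≤ μ K := measure_mono interior_subset
    rw [h] at h2
    exact absurd this (not_lt.mpr h2)
  have hμf : μ K ≠ ⊤ := hKc.measure_lt_top.ne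
  set k : ℝ := μ.real K with hk
  have hk0 : 0 < k := ENNReal.toReal_pos hμ0 hμf
  have hvol : ∀ r : ℝ, 0 < r → μ.real (r • K) = r ^ d * k := by
    intro r hr
    rw [measureReal_def, Measure.addHaar_smul, abs_of_nonneg (by positivity), ENNReal.toReal_mul,
      ENNReal.toReal_ofReal (by positivity)]
    rfl
  set Q : Set (V × W) := (1 + l) • K with hQ
  have hQc : IsCompact Q := hKc.smul _
  have hQm : MeasurableSet Q := hQc.isClosed.measurableSet
  have hQf : μ Q ≠ ⊤ := hQc.measure_lt_top.ne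
  have hQv : μ.real Q = (1 + l) ^ d * k := hvol _ (by positivity)
  have hQ0 : 0 < μ.real Q := by rw [hQv]; positivity
  have hLv : μ.real (l • K) = c ^ d * μ.real Q := by
    rw [hvol l hl0, hQv, ← mul_assoc, ← mul_pow, hcl]
  set P : ℝ := (A.card : ℝ) with hP
  have hP0 : 0 < P := by rw [hP]; exact_mod_cast hAne.card_pos
  have hcd : 0 < c ^ d := by positivity
  -- the projection of `K`
  set K' : Set V := Prod.fst '' K with hK'
  have hK'c : IsCompact K' := hKc.image continuous_fst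
  have hK'conv : Convex ℝ K' := hK.linear_image (LinearMap.fst ℝ V W)
  have hK'i : (interior K').Nonempty := by
    have h1 : IsOpen (Prod.fst '' interior K) := isOpenMap_fst _ isOpen_interior
    have h2 : Prod.fst '' interior K ⊆ interior K' :=
      interior_maximal (image_mono interior_subset) h1
    exact (hKi.image _).mono h2
  have hμ'0 : μV K' ≠ 0 := fun h => by
    have := isOpen_interior.measure_pos μV hK'i
    have h2 : μV (interior K') ≤ μV K' := measure_mono interior_subset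
    rw [h] at h2
    exact absurd this (not_lt.mpr h2)
  have hμ'f : μV K' ≠ ⊤ := hK'c.measure_lt_top.ne
  -- the centre
  have hN0 : (0 : ℝ) < N := by exact_mod_cast (by omega : 0 < N)
  set pE : Seminorm ℝ (V × W) := p.comp (LinearMap.fst ℝ V W) with hpE
  have hpEv : ∀ z, pE z = p z.1 := fun z => rfl
  obtain ⟨x', hx'⟩ := exists_centre (N := N) (D := (N : ℝ) / (8 * κ)) pE hAne hκ.le
    (x₀ := (x₀, 0)) (fun x hx => by rw [hpEv]; exact hout x (hA x hx)) (fun y hy => by
      have h1 := hR (fun i => (y i).1) (fun i => by rw [← hpEv]; exact hy i)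
      have h2 : ∀ e : Fin N → Bool, pE (∑ i, sg (e i) • y i) = p (∑ i, sg (e i) • (y i).1) := by
        intro e
        rw [hpEv, Prod.fst_sum]
        rfl
      simp_rw [h2]
      exact h1)
  have hgood := good_count (fun x : Fin N → A => pE (∑ i, ((x i : V × W) - (x' i : V × W))))
    (fun x => apply_nonneg pE _) (D := (N : ℝ) / 4) (by positivity) (by
      refine hx'.trans (le_of_eq ?_)
      congr 1
      field_simp
      ring)
  -- the set `M`
  set r : ℝ := 1 + l - N * c ^ (N - 1) / 2 with hr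
  set v₀ : V := c ^ (N - 1) • (∑ i, (x' i : V × W).1 - ((N : ℝ) / 2) • x₀) with hv₀
  set D' : Set V := (fun y => v₀ + y) '' (r • K') with hD'
  have hr0 : 0 < r := by
    have h1 := geo hcl N
    have h2 : (N : ℝ) * c ^ (N - 1) ≤ ∑ i : Fin N, c ^ (i : ℕ) := by
      have : (N : ℝ) * c ^ (N - 1) = ∑ _i : Fin N, c ^ (N - 1) := by
        rw [Finset.sum_const, Finset.card_univ, Fintype.card_fin, nsmul_eq_mul]
      rw [this]
      refine Finset.sum_le_sum fun i _ => ?_
      exact pow_le_pow_of_le_one hc0.le hc1 (by have := i.2; omega)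
    have h3 : 0 < c ^ N * (1 + l) := by positivity
    have h4 : 0 ≤ (N : ℝ) * c ^ (N - 1) := by positivity
    rw [hr]
    linarith
  have hD'c : IsCompact D' := (hK'c.smul r).image (by fun_prop)
  have hD'm : MeasurableSet D' := hD'c.isClosed.measurableSet
  have hD'v : μV D' = ENNReal.ofReal (r ^ finrank ℝ V) * μV K' := by
    rw [hD', Set.image_add_left, measure_preimage_add, Measure.addHaar_smul,
      abs_of_pos (by positivity)]
  set M : Set (V × W) := Prod.fst ⁻¹' D' with hM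
  have hMm : MeasurableSet M := measurable_fst hD'm
  -- the functions
  set φ : V × W → ℝ := M.indicator (fun _ => (1 : ℝ)) with hφ
  have hφm : Measurable φ := measurable_const.indicator hMm
  have hφ0 : ∀ y, 0 ≤ φ y := fun y => Set.indicator_nonneg (fun _ _ => zero_le_one) _
  have hφ1 : ∀ y, φ y ≤ 1 := fun y => Set.indicator_le_self' (fun _ _ => zero_le_one) _
  have hψm : ∀ j, Measurable ((av A c)^[j] φ) := by
    intro j
    induction j with
    | zero => exact hφm
    | succ j ih =>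
      rw [Function.iterate_succ_apply']
      unfold av at ih ⊢
      exact (Finset.measurable_sum _ fun a _ => ih.comp (by fun_prop)).const_mul _
  have hψ : ∀ j, (∀ y, 0 ≤ (av A c)^[j] φ y) ∧ ∀ y, (av A c)^[j] φ y ≤ 1 :=
    fun j => av_mem A c hφ0 hφ1 j
  set m : ℕ → ℝ := fun j => (μ.real Q)⁻¹ * ∫ y in Q, (av A c)^[j] φ y ∂μ with hm
  set β : ℝ := q / P * (c ^ d)⁻¹ with hβ
  -- `β ≥ 1`
  have hβ1 : 1 ≤ β := by
    have h1 := step μ A hK hKc hl0 hA ht (φ := fun _ => (1 : ℝ)) measurable_const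
      (fun _ => zero_le_one) (fun _ => le_rfl)
    simp only [setIntegral_const, smul_eq_mul, mul_one] at h1
    rw [Finset.sum_const, nsmul_eq_mul, ← hP, ← hc, ← hd, ← hQ, hLv] at h1
    have h2 : (P * μ.real Q) ^ 2 ≤ β * (P * μ.real Q) ^ 2 := by
      refine h1.trans (le_of_eq ?_)
      rw [hβ]
      field_simp
    have h3 : 0 < (P * μ.real Q) ^ 2 := by positivity
    nlinarith
  have hβ0 : 0 < β := by linarith
  have hstep : ∀ j, m (j + 1) ^ 2 ≤ β * m j := by
    intro j
    have h1 := step μ A hK hKc hl0 hA ht (φ := (av A c)^[j] φ) (hψm j) (hψ j).1 (hψ j).2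
    rw [← hP, ← hc, ← hd, ← hQ, hLv] at h1
    have h2 : ∫ y in Q, (av A c)^[j + 1] φ y ∂μ =
        P⁻¹ * ∑ a ∈ A, ∫ y in Q, (av A c)^[j] φ (a + c • y) ∂μ := by
      rw [Function.iterate_succ']
      simp only [Function.comp_apply]
      unfold av
      rw [integral_const_mul, integral_finsetSum]
      intro a _
      have := hψm j
      unfold av at this
      refine intOn μ hQf (this.comp (by fun_prop)) (fun y => ?_) (C := 1) (fun y => ?_)
      · exact (hψ j).1 _
      · exact (hψ j).2 _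
    have h3 : m (j + 1) ^ 2 = (μ.real Q)⁻¹ ^ 2 * P⁻¹ ^ 2 *
        (∑ a ∈ A, ∫ y in Q, (av A c)^[j] φ (a + c • y) ∂μ) ^ 2 := by
      simp only [hm]
      rw [h2]
      ring
    rw [h3]
    refine (mul_le_mul_of_nonneg_left h1 (by positivity)).trans (le_of_eq ?_)
    simp only [hm]
    rw [hβ]
    field_simp
  have hchain := chain hβ0 hstep N
  -- the exponent
  set lam : ℝ := N * c ^ (N - 1) with hlam
  have hlam0 : 0 < lam := by positivity
  have h6 : (2 : ℝ) ≤ N := by exact_mod_cast hN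
  have hlam3 : 3 * N * (1 / 3 : ℝ) ^ N ≤ lam := by
    have h5 : (1 / 3 : ℝ) ^ (N - 1) ≤ c ^ (N - 1) := pow_le_pow_left₀ (by norm_num) hc3 _
    have h8 : (1 / 3 : ℝ) ^ (N - 1) = 3 * (1 / 3) ^ N := by
      obtain ⟨n, rfl⟩ : ∃ n, N = n + 1 := ⟨N - 1, by omega⟩
      rw [Nat.add_sub_cancel, pow_succ]
      ring
    calc 3 * N * (1 / 3 : ℝ) ^ N = N * (1 / 3) ^ (N - 1) := by rw [h8]; ring
      _ ≤ _ := mul_le_mul_of_nonneg_left h5 (by positivity)
  have hρ : r / (1 + l) ≤ Real.exp (-(lam / 4)) := by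
    have h1 : r / (1 + l) ≤ 1 - lam / 4 := by
      rw [div_le_iff₀ (by positivity), hr]
      nlinarith
    refine h1.trans ?_
    have := Real.add_one_le_exp (-(lam / 4))
    linarith
  -- `m 0`
  have hm0 : m 0 ≤ Real.exp (-(lam / 16 * d)) := by
    have ht0 : 0 < 1 - 1 / (10 : ℝ) ^ N := by
      rw [sub_pos, div_lt_one (by positivity)]
      exact one_lt_pow₀ (by norm_num) (by omega)
    have ht1 : 1 - 1 / (10 : ℝ) ^ N < 1 := by
      have : 0 < 1 / (10 : ℝ) ^ N := by positivity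
      linarith
    have h1 := slab_bound μV μW (K := Q) (hK.smul (1 + l)) hQc ht0 ht1 hD'm
    have hfst : Prod.fst '' Q = (1 + l) • K' := by
      ext v
      constructor
      · rintro ⟨_, ⟨z, hz, rfl⟩, rfl⟩
        exact ⟨z.1, ⟨z, hz, rfl⟩, rfl⟩
      · rintro ⟨_, ⟨z, hz, rfl⟩, rfl⟩
        exact ⟨(1 + l) • z, ⟨z, hz, rfl⟩, rfl⟩
    rw [hfst, Measure.addHaar_smul, abs_of_pos (by positivity), hD'v] at h1
    set s : ℝ := (1 - 1 / (10 : ℝ) ^ N) ^ finrank ℝ V *
      (1 - (1 - 1 / (10 : ℝ) ^ N)) ^ finrank ℝ W with hs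
    have hs0 : 0 < s := mul_pos (pow_pos ht0 _) (pow_pos (by linarith) _)
    have h2 := ENNReal.toReal_mono (ENNReal.mul_ne_top hQf
      (ENNReal.mul_ne_top ENNReal.ofReal_ne_top hμ'f)) h1
    rw [ENNReal.toReal_mul, ENNReal.toReal_mul, ENNReal.toReal_mul, ENNReal.toReal_mul,
      ENNReal.toReal_mul, ENNReal.toReal_ofReal hs0.le, ENNReal.toReal_ofReal (by positivity),
      ENNReal.toReal_ofReal (by positivity)] at h2
    have hk' : 0 < (μV K').toReal := ENNReal.toReal_pos hμ'0 hμ'f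
    have h3 : s * ((1 + l) ^ finrank ℝ V * μ.real (Q ∩ M)) ≤ μ.real Q * r ^ finrank ℝ V := by
      refine le_of_mul_le_mul_right ?_ hk'
      calc s * ((1 + l) ^ finrank ℝ V * μ.real (Q ∩ M)) * (μV K').toReal
          = s * ((1 + l) ^ finrank ℝ V * (μV K').toReal * (μ (Q ∩ M)).toReal) := by
            rw [measureReal_def]; ring
        _ ≤ (μ Q).toReal * (r ^ finrank ℝ V * (μV K').toReal) := h2
        _ = _ := by rw [measureReal_def]; ring
    have h4 : ∫ y in Q, φ y ∂μ = μ.real (Q ∩ M) := by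
      rw [hφ, setIntegral_indicator hMm, setIntegral_const, smul_eq_mul, mul_one]
    simp only [hm, Function.iterate_zero, id_eq]
    rw [h4, inv_mul_le_iff₀ hQ0]
    have h5 := exponent (k := finrank ℝ V) (m := finrank ℝ W) hN (by positivity) hρ hlam3 (by
      rw [← hdk]; exact hcod)
    rw [← hdk, ← hs, div_pow, div_le_iff₀ (by positivity)] at h5
    have h7 : s * ((1 + l) ^ finrank ℝ V * μ.real (Q ∩ M)) ≤
        s * ((1 + l) ^ finrank ℝ V * (μ.real Q * Real.exp (-(lam / 16 * d)))) := by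
      refine h3.trans ((mul_le_mul_of_nonneg_left h5 hQ0.le).trans (le_of_eq ?_))
      ring
    exact le_of_mul_le_mul_left (le_of_mul_le_mul_left h7 hs0) (by positivity)
  -- `m N`
  have hmN : 1 / 2 ≤ m N := by
    have h1 : ∀ y ∈ Q, 1 / 2 ≤ (av A c)^[N] φ y := by
      rintro _ ⟨y, hy, rfl⟩
      rw [av_iter, ← hP]
      have h2 : P ^ N / 2 ≤ ∑ x : Fin N → A,
          φ (∑ i : Fin N, c ^ (i : ℕ) • (x i : V × W) + c ^ N • (1 + l) • y) := by
        refine hgood.trans ?_
        rw [Finset.card_filter]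
        push_cast
        refine Finset.sum_le_sum fun x _ => ?_
        split_ifs with h
        · have h5 : p (∑ i, ((x i : V × W).1 - (x' i : V × W).1)) ≤ (N : ℝ) / 2 := by
            have h6 : (2 : ℝ) * (N / 4) = N / 2 := by ring
            rw [h6, hpEv, Prod.fst_sum] at h
            exact h
          obtain ⟨w, hw⟩ := hin (x₀ + (2 / (N : ℝ)) • ∑ i, ((x i : V × W).1 - (x' i : V × W).1)) (by
            rw [add_sub_cancel_left, map_smul_eq_mul, Real.norm_of_nonneg (by positivity)]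
            calc 2 / (N : ℝ) * p (∑ i, ((x i : V × W).1 - (x' i : V × W).1))
                ≤ 2 / (N : ℝ) * (N / 2) := mul_le_mul_of_nonneg_left h5 (by positivity)
              _ = 1 := by field_simp)
          have hk' : x₀ + (2 / (N : ℝ)) • ∑ i, ((x i : V × W).1 - (x' i : V × W).1) ∈ K' :=
            ⟨_, hw, rfl⟩
          have h7 := mem_M hK'conv hc0 hc1 hl0 hcl (fun i => (x i : V × W).1)
            (fun i => (x' i : V × W).1) (fun i => ⟨_, hA _ (x i).2, rfl⟩)
            (k := y.1) ⟨y, hy, rfl⟩ hk' (x₀ := x₀) (by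
              rw [add_sub_cancel_left, smul_smul]
              have : (N : ℝ) / 2 * (2 / N) = 1 := by field_simp
              rw [this, one_smul])
          have h8 : ∑ i : Fin N, c ^ (i : ℕ) • (x i : V × W) + c ^ N • (1 + l) • y ∈ M := by
            refine ⟨_, h7, ?_⟩
            simp only [hv₀, Prod.fst_add, Prod.fst_sum, Prod.smul_fst]
            abel
          rw [hφ, Set.indicator_of_mem h8]
        · exact hφ0 _
      have h9 : 0 < P ^ N := by positivity
      rw [← div_eq_inv_mul, le_div_iff₀ h9]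
      linarith
    have h3 : 1 / 2 * μ.real Q ≤ ∫ y in Q, (av A c)^[N] φ y ∂μ := by
      have h4 : 1 / 2 * μ.real Q = ∫ _y in Q, (1 / 2 : ℝ) ∂μ := by
        rw [setIntegral_const, smul_eq_mul, mul_comm]
      rw [h4]
      exact setIntegral_mono_on (integrableOn_const hQf)
        (intOn μ hQf (hψm N) (hψ N).1 (hψ N).2) hQm h1
    simp only [hm]
    rw [← div_eq_inv_mul, le_div_iff₀ hQ0]
    exact h3
  -- conclusion
  have h1 : (1 / (2 * β)) ^ (2 ^ N) ≤ Real.exp (-(lam / 16 * d)) := by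
    calc (1 / (2 * β)) ^ (2 ^ N) ≤ (m N / β) ^ (2 ^ N) := by
          refine pow_le_pow_left₀ (by positivity) ?_ _
          rw [div_le_div_iff₀ (by positivity) hβ0]
          nlinarith
      _ ≤ m 0 / β := hchain
      _ ≤ Real.exp (-(lam / 16 * d)) / β := by gcongr
      _ ≤ Real.exp (-(lam / 16 * d)) := div_le_self (Real.exp_pos _).le hβ1
  have h2 : Real.exp (lam / 16 * d / 2 ^ N) ≤ 2 * β := by
    have h3 : Real.exp (lam / 16 * d / 2 ^ N) ^ (2 ^ N) ≤ (2 * β) ^ (2 ^ N) := by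
      have e1 : Real.exp (lam / 16 * d / 2 ^ N) ^ (2 ^ N) = Real.exp (lam / 16 * d) := by
        rw [← Real.exp_nat_mul]
        congr 1
        push_cast
        field_simp
      rw [e1]
      rw [one_div, inv_pow, Real.exp_neg] at h1
      exact (inv_le_inv₀ (by positivity) (Real.exp_pos _)).1 h1
    exact (pow_le_pow_iff_left₀ (Real.exp_pos _).le (by positivity) (by positivity)).1 h3
  have h3 : (d : ℝ) / 10 ^ N ≤ lam / 16 * d / 2 ^ N := by
    have h4 : 1 / (10 : ℝ) ^ N ≤ lam / 16 / 2 ^ N := by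
      have h5 : (25 / 9 : ℝ) * (1 / 10) ^ N ≤ (1 / 6) ^ N := by
        obtain ⟨n, rfl⟩ : ∃ n, N = n + 2 := ⟨N - 2, by omega⟩
        rw [pow_add, pow_add]
        have : (1 / 10 : ℝ) ^ n ≤ (1 / 6) ^ n := pow_le_pow_left₀ (by norm_num) (by norm_num) n
        nlinarith
      have h7 : (1 / 6 : ℝ) ^ N = (1 / 3) ^ N / 2 ^ N := by
        rw [div_pow, div_pow, one_pow, div_div, ← mul_pow]
        norm_num
      have h8 : (6 / 16 : ℝ) * ((1 / 3) ^ N / 2 ^ N) ≤ lam / 16 / 2 ^ N := by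
        have h9 : (6 : ℝ) * (1 / 3) ^ N ≤ lam := by
          refine le_trans ?_ hlam3
          have : (0 : ℝ) < (1 / 3) ^ N := by positivity
          nlinarith
        calc (6 / 16 : ℝ) * ((1 / 3) ^ N / 2 ^ N) = (6 * (1 / 3) ^ N) / 16 / 2 ^ N := by ring
          _ ≤ _ := by gcongr
      rw [← h7] at h8
      calc 1 / (10 : ℝ) ^ N = (1 / 10) ^ N := by rw [div_pow, one_pow]
        _ ≤ 6 / 16 * ((25 / 9 : ℝ) * (1 / 10) ^ N) := by
            have : (0 : ℝ) < (1 / 10) ^ N := by positivity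
            nlinarith
        _ ≤ 6 / 16 * (1 / 6) ^ N := by gcongr
        _ ≤ _ := h8
    calc (d : ℝ) / 10 ^ N = 1 / 10 ^ N * d := by ring
      _ ≤ lam / 16 / 2 ^ N * d := mul_le_mul_of_nonneg_right h4 (by positivity)
      _ = _ := by ring
  have h4 : Real.exp (d / 10 ^ N) ≤ 2 * β := (Real.exp_le_exp.2 h3).trans h2
  calc 1 / 2 * Real.exp (d / 10 ^ N) * c ^ d * P ≤ 1 / 2 * (2 * β) * c ^ d * P := by gcongr
    _ = q := by
        rw [hβ]
        field_simp

end Pool.Agent.U330.COV
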