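import Pool.Agent.U330.COV.Heavy

/-!
# Tools for sections of shadows: cells, centres, the algebra
-/

set_option autoImplicit false

noncomputable section

open MeasureTheory Set Module
open scoped Pointwise ENNReal

namespace Pool.Agent.U330.COV

open Pool.Agent.H2R2.Cov

/-- a cell with many points -/
theorem cell {X G : Type*} [NormedAddCommGroup G] [NormedSpace ℝ G] [FiniteDimensional ℝ G]
    {S : Set G} (hS : Convex ℝ S) (hSc : IsCompact S) (hSi : (interior S).Nonempty)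
    (A : Finset X) (f : X → G) (hA : ∀ x ∈ A, f x ∈ S) {l : ℝ} (hl : 0 < l) :
    ∃ t : G, (l / (1 + l)) ^ finrank ℝ G * A.card ≤
      ((open Classical in A.filter (fun x => f x - t ∈ l • S)).card : ℝ) := by
  classical
  obtain ⟨t, ht⟩ := exists_heavy S hS hSc hSi (A.image f) (by
    intro y hy
    obtain ⟨x, hx, rfl⟩ := Finset.mem_image.1 hy
    exact hA x hx) (fun y => ((A.filter (fun x => f x = y)).card : ℝ)) (fun _ _ => Nat.cast_nonneg _)
    l hl
  refine ⟨t, ?_⟩
  have h1 : ∑ y ∈ A.image f, ((A.filter (fun x => f x = y)).card : ℝ) = A.card := by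
    rw [Finset.card_eq_sum_card_image f A]
    push_cast
    rfl
  rw [h1] at ht
  refine ht.trans (le_of_eq ?_)
  unfold wt
  have h2 : (A.filter (fun x => f x - t ∈ l • S)).card =
      ∑ y ∈ A.image f, (if y - t ∈ l • S then (A.filter (fun x => f x = y)).card else 0) := by
    rw [Finset.card_filter, ← Finset.sum_fiberwise_of_maps_to (s := A) (t := A.image f) (g := f)
      (fun x hx => Finset.mem_image_of_mem f hx)]
    refine Finset.sum_congr rfl fun y _ => ?_
    split_ifs with h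
    · rw [Finset.card_eq_sum_ones]
      refine Finset.sum_congr rfl fun x hx => ?_
      rw [if_pos]
      rw [(Finset.mem_filter.1 hx).2]
      exact h
    · refine Finset.sum_eq_zero fun x hx => ?_
      rw [if_neg]
      rw [(Finset.mem_filter.1 hx).2]
      exact h
  rw [h2]
  push_cast
  refine Finset.sum_congr rfl fun y _ => ?_
  split_ifs <;> simp

section Centre

variable {E : Type*} [AddCommGroup E] [Module ℝ E]

/-- **a centre**, for families of points -/
theorem exists_centre2 (p : Seminorm ℝ E) (V : Submodule ℝ E) {N : ℕ} {ι : Type*} [Fintype ι]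
    [Nonempty ι] (h : ι → E) {R D : ℝ} (hR0 : 0 < R)
    (hdiff : ∀ a b : ι, h a - h b ∈ V ∧ p (h a - h b) ≤ R)
    (hR : ∀ y : Fin N → E, (∀ i, y i ∈ V ∧ p (y i) ≤ 1) →
      ∑ e : Fin N → Bool, p (∑ i, sg (e i) • y i) ≤ 2 ^ N * D) :
    ∃ x' : Fin N → ι, ∑ x : Fin N → ι, p (∑ i, (h (x i) - h (x' i))) ≤
      (Fintype.card ι : ℝ) ^ N * (R * D) := by
  classical
  -- the bound for differences
  have hR2 : ∀ y : Fin N → E, (∀ i, y i ∈ V ∧ p (y i) ≤ R) →
      ∑ e : Fin N → Bool, p (∑ i, sg (e i) • y i) ≤ 2 ^ N * (R * D) := by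
    intro y hy
    have h1 := hR (fun i => R⁻¹ • y i) (fun i => by
      refine ⟨V.smul_mem _ (hy i).1, ?_⟩
      rw [map_smul_eq_mul, Real.norm_of_nonneg (by positivity), inv_mul_le_iff₀ (by positivity),
        mul_one]
      exact (hy i).2)
    have h2 : ∀ e : Fin N → Bool, p (∑ i, sg (e i) • R⁻¹ • y i) =
        R⁻¹ * p (∑ i, sg (e i) • y i) := by
      intro e
      rw [← Real.norm_of_nonneg (show 0 ≤ R⁻¹ by positivity), ← map_smul_eq_mul p,
        Finset.smul_sum, Real.norm_of_nonneg (show 0 ≤ R⁻¹ by positivity)]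
      congr 1
      exact Finset.sum_congr rfl fun i _ => smul_comm _ _ _
    simp_rw [h2] at h1
    rw [← Finset.mul_sum, inv_mul_le_iff₀ (by positivity)] at h1
    linarith
  -- the symmetrisation
  set S : ℝ := ∑ z : Fin N → ι × ι, p (∑ i, (h (z i).1 - h (z i).2)) with hS
  have hswap : ∀ e : Fin N → Bool,
      ∑ z : Fin N → ι × ι, p (∑ i, sg (e i) • (h (z i).1 - h (z i).2)) = S := by
    intro e
    rw [hS, ← (Equiv.piCongrRight (fun i : Fin N =>
      if e i then Equiv.refl (ι × ι) else Equiv.prodComm ι ι)).sum_comp]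
    refine Finset.sum_congr rfl fun z _ => ?_
    congr 1
    refine Finset.sum_congr rfl fun i _ => ?_
    by_cases h : e i
    · simp [sg, h]
    · simp [sg, h]
  have hN2 : (0 : ℝ) < 2 ^ N := by positivity
  have hcard : (Fintype.card (Fin N → ι × ι) : ℝ) =
      (Fintype.card ι : ℝ) ^ N * (Fintype.card ι : ℝ) ^ N := by
    rw [Fintype.card_fun, Fintype.card_prod, Fintype.card_fin]
    push_cast
    rw [mul_pow]
  have hsum : 2 ^ N * S ≤
      ((Fintype.card ι : ℝ) ^ N * (Fintype.card ι : ℝ) ^ N) * (2 ^ N * (R * D)) := by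
    have h1 : ∑ e : Fin N → Bool, ∑ z : Fin N → ι × ι,
        p (∑ i, sg (e i) • (h (z i).1 - h (z i).2)) = 2 ^ N * S := by
      rw [Finset.sum_congr rfl fun e _ => hswap e, Finset.sum_const, Finset.card_univ,
        Fintype.card_fun, Fintype.card_bool, Fintype.card_fin, nsmul_eq_mul]
      push_cast
      ring
    rw [← h1, Finset.sum_comm]
    refine (Finset.sum_le_sum fun z _ => hR2 (fun i => h (z i).1 - h (z i).2)
      (fun i => hdiff _ _)).trans (le_of_eq ?_)
    rw [Finset.sum_const, Finset.card_univ, nsmul_eq_mul, hcard]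
  have hS2 : S ≤ ((Fintype.card ι : ℝ) ^ N * (Fintype.card ι : ℝ) ^ N) * (R * D) := by
    have : 2 ^ N * S ≤
        2 ^ N * (((Fintype.card ι : ℝ) ^ N * (Fintype.card ι : ℝ) ^ N) * (R * D)) := by
      linarith
    exact le_of_mul_le_mul_left this hN2
  -- the choice of the centre
  by_contra hcon
  push Not at hcon
  have hS3 : S = ∑ x' : Fin N → ι, ∑ x : Fin N → ι, p (∑ i, (h (x i) - h (x' i))) := by
    rw [Finset.sum_comm, hS, ← (Equiv.arrowProdEquivProdArrow (Fin N) (fun _ => ι)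
      (fun _ => ι)).symm.sum_comp, Fintype.sum_prod_type]
    rfl
  have hlt : ((Fintype.card ι : ℝ) ^ N * (Fintype.card ι : ℝ) ^ N) * (R * D) < S := by
    rw [hS3]
    have h1 : ∑ x' : Fin N → ι, (Fintype.card ι : ℝ) ^ N * (R * D) =
        ((Fintype.card ι : ℝ) ^ N * (Fintype.card ι : ℝ) ^ N) * (R * D) := by
      rw [Finset.sum_const, Finset.card_univ, Fintype.card_fun, Fintype.card_fin, nsmul_eq_mul]
      push_cast
      ring
    rw [← h1]
    exact Finset.sum_lt_sum_of_nonempty Finset.univ_nonempty fun x' _ => hcon x'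
  linarith

/-- the algebra -/
lemma mem_M2 {K : Set E} (hK : Convex ℝ K) {c l : ℝ} (hc0 : 0 < c) (hc1 : c ≤ 1)
    (hc : c * (1 + l) = l) (hl : 0 < l) {N : ℕ} (x z : Fin N → E) (hx : ∀ i, x i ∈ K)
    (hz : ∀ i, z i ∈ K) {k k' x₀ w₀ : E} (hk : k ∈ K) (hk' : k' ∈ K)
    (h : ∑ i, x i = w₀ + (1 / 4 : ℝ) • ∑ i, z i + ((N : ℝ) / 2) • (k' - x₀)) :
    ∑ i : Fin N, c ^ (i : ℕ) • x i + c ^ N • ((1 + l) • k) -
      c ^ (N - 1) • (w₀ - ((N : ℝ) / 2) • x₀) ∈
      (1 + l - N * c ^ (N - 1) / 4) • K := by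
  have hne : K.Nonempty := ⟨k, hk⟩
  have hw : ∀ i : Fin N, 0 ≤ c ^ (i : ℕ) - c ^ (N - 1) := by
    intro i
    rw [sub_nonneg]
    exact pow_le_pow_of_le_one hc0.le hc1 (by have := i.2; omega)
  have h1 := cone_sum hK hne Finset.univ (fun i : Fin N => c ^ (i : ℕ) - c ^ (N - 1)) x
    (fun i _ => hw i) (fun i _ => hx i)
  have h2 : (c ^ N * (1 + l)) • k ∈ (c ^ N * (1 + l)) • K := Set.smul_mem_smul_set hk
  have h3 : (c ^ (N - 1) * ((N : ℝ) / 2)) • k' ∈ (c ^ (N - 1) * ((N : ℝ) / 2)) • K :=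
    Set.smul_mem_smul_set hk'
  have h3' := cone_sum hK hne Finset.univ (fun _ : Fin N => c ^ (N - 1) * (1 / 4)) z
    (fun i _ => by positivity) (fun i _ => hz i)
  have h4 := Set.add_mem_add (Set.add_mem_add (Set.add_mem_add h1 h2) h3) h3'
  have hsum0 : 0 ≤ ∑ i : Fin N, (c ^ (i : ℕ) - c ^ (N - 1)) := Finset.sum_nonneg fun i _ => hw i
  have hp1 : 0 ≤ c ^ N * (1 + l) := by positivity
  have hp2 : 0 ≤ c ^ (N - 1) * ((N : ℝ) / 2) := by positivity
  have hp3 : 0 ≤ ∑ _i : Fin N, c ^ (N - 1) * (1 / 4 : ℝ) :=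
    Finset.sum_nonneg fun i _ => by positivity
  rw [← hK.add_smul hsum0 hp1, ← hK.add_smul (add_nonneg hsum0 hp1) hp2,
    ← hK.add_smul (add_nonneg (add_nonneg hsum0 hp1) hp2) hp3] at h4
  have e1 : ∑ i : Fin N, (c ^ (i : ℕ) - c ^ (N - 1)) + c ^ N * (1 + l) +
      c ^ (N - 1) * ((N : ℝ) / 2) + ∑ _i : Fin N, c ^ (N - 1) * (1 / 4 : ℝ) =
      1 + l - N * c ^ (N - 1) / 4 := by
    have := geo hc N
    rw [Finset.sum_sub_distrib, Finset.sum_const, Finset.sum_const, Finset.card_univ,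
      Fintype.card_fin, nsmul_eq_mul, nsmul_eq_mul]
    linarith
  rw [e1] at h4
  convert h4 using 1
  have e2 : w₀ = ∑ i, x i - (1 / 4 : ℝ) • ∑ i, z i - ((N : ℝ) / 2) • (k' - x₀) := by
    rw [h]
    abel
  have e3 : ∑ i : Fin N, (c ^ (i : ℕ) - c ^ (N - 1)) • x i =
      ∑ i : Fin N, c ^ (i : ℕ) • x i - c ^ (N - 1) • ∑ i, x i := by
    rw [Finset.smul_sum, ← Finset.sum_sub_distrib]
    exact Finset.sum_congr rfl fun i _ => sub_smul _ _ _
  have e4 : ∑ i : Fin N, (c ^ (N - 1) * (1 / 4 : ℝ)) • z i =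
      (c ^ (N - 1) * (1 / 4 : ℝ)) • ∑ i, z i := (Finset.smul_sum ..).symm
  rw [e2, e3, e4]
  module

end Centre

end Pool.Agent.U330.COV
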