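import Pool.Agent.U330.COV.QA
import Pool.Agent.U330.COV.HeavyThick

/-!
# A heavy translate, for bodies which are thick over a shadow with a large section near the unit ball
of a space with small Rademacher averages
-/

set_option autoImplicit false

noncomputable section

open MeasureTheory Set Module
open scoped Pointwise ENNReal

namespace Pool.Agent.U330.COV

open Pool.Agent.H2R2.Cov

variable {V W G : Type*} [NormedAddCommGroup V] [NormedSpace ℝ V] [FiniteDimensional ℝ V]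
  [MeasurableSpace V] [BorelSpace V] [NormedAddCommGroup W] [NormedSpace ℝ W]
  [FiniteDimensional ℝ W] [MeasurableSpace W] [BorelSpace W]
  [NormedAddCommGroup G] [NormedSpace ℝ G] [FiniteDimensional ℝ G]

/-- **a heavy translate** -/
theorem heavy_qs (μV : Measure V) [μV.IsAddHaarMeasure] (μW : Measure W) [μW.IsAddHaarMeasure]
    {K : Set (V × W)} (hK : Convex ℝ K) (hKc : IsCompact K)
    (hKi : (interior K).Nonempty) (τ : V →ₗ[ℝ] G) (hτ : Function.Surjective τ)
    (U : Submodule ℝ V) (hU : ∀ v, v ∈ U ↔ τ v = 0) (p : Seminorm ℝ V) {s : ℝ} (hs : 0 < s)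
    {x₀ : V} (hin : ∀ v ∈ U, p v ≤ 1 → ∃ w, (x₀ + v, w) ∈ K)
    (hout : ∀ z ∈ K, ∀ z' ∈ K, z.1 - z'.1 ∈ U → p (z.1 - z'.1) ≤ s)
    {N : ℕ} (hN : 4 ≤ N)
    (hR : ∀ y : Fin N → V, (∀ i, y i ∈ U ∧ p (y i) ≤ 1) →
      ∑ e : Fin N → Bool, p (∑ i, sg (e i) • y i) ≤ 2 ^ N * (N / (5 * s)))
    {δ : ℝ} (hδ : Real.exp (-(finrank ℝ V / 3 ^ N)) ≤ δ)
    (hfib : ∀ x, ENNReal.ofReal δ * (μV (Prod.fst '' K) * μW (Prod.mk x ⁻¹' K)) ≤
      (μV.prod μW) K)
    (hcod : (finrank ℝ G : ℝ) * 10 ^ N ≤ finrank ℝ V)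
    {l : ℝ} (hl : 1 / 2 ≤ l) (hl1 : l ≤ 1) (A₀ : Finset (V × W)) (hA₀ : ∀ x ∈ A₀, x ∈ K) :
    ∃ t : V × W, (1 / 2 * Real.exp (finrank ℝ V / 10 ^ N) *
      (l / (1 + l)) ^ finrank ℝ (V × W)) * A₀.card ≤ wt A₀ (fun _ => 1) (l • K) t := by
  classical
  let μ : Measure (V × W) := μV.prod μW
  rcases A₀.eq_empty_or_nonempty with rfl | hA₀ne
  · exact ⟨0, by simp [wt]⟩
  -- the cell
  set K' : Set V := Prod.fst '' K with hK'
  have hK'c : IsCompact K' := hKc.image continuous_fst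
  have hK'conv : Convex ℝ K' := hK.linear_image (LinearMap.fst ℝ V W)
  have hK'i : (interior K').Nonempty := by
    have h1 : IsOpen (Prod.fst '' interior K) := isOpenMap_fst _ isOpen_interior
    have h2 : Prod.fst '' interior K ⊆ interior K' :=
      interior_maximal (image_mono interior_subset) h1
    exact (hKi.image _).mono h2
  have hτc : Continuous τ := LinearMap.continuous_of_finiteDimensional τ
  obtain ⟨g₀, hg₀⟩ := cell (S := τ '' K') (hK'conv.linear_image τ) (hK'c.image hτc) (by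
    have h1 : IsOpen (τ '' interior K') :=
      (LinearMap.isOpenMap_of_finiteDimensional τ hτ) _ isOpen_interior
    exact (hK'i.image _).mono (interior_maximal (image_mono interior_subset) h1)) A₀
    (fun x => τ x.1) (fun x hx => ⟨x.1, ⟨x, hA₀ x hx, rfl⟩, rfl⟩) (l := 1 / 4) (by norm_num)
  obtain ⟨A, hAdef⟩ : ∃ A : Finset (V × W), A =
      A₀.filter (fun x => τ x.1 - g₀ ∈ (1 / 4 : ℝ) • (τ '' K')) := ⟨_, rfl⟩
  have hAcard : (1 / 5 : ℝ) ^ finrank ℝ G * A₀.card ≤ A.card := by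
    have e : (1 / 4 : ℝ) / (1 + 1 / 4) = 1 / 5 := by norm_num
    rw [e] at hg₀
    rw [hAdef]
    convert hg₀
  have hAsub : A ⊆ A₀ := by rw [hAdef]; exact Finset.filter_subset _ _
  have hA : ∀ x ∈ A, x ∈ K := fun x hx => hA₀ x (hAsub hx)
  have hAne : A.Nonempty := by
    rw [← Finset.card_pos]
    have h1 : (0 : ℝ) < A₀.card := by exact_mod_cast hA₀ne.card_pos
    have h2 : (0 : ℝ) < (1 / 5 : ℝ) ^ finrank ℝ G * A₀.card := by positivity
    have h3 : (0 : ℝ) < A.card := h2.trans_le hAcard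
    exact_mod_cast h3
  have hzex : ∀ x : A, ∃ z ∈ K', τ (x : V × W).1 = g₀ + (1 / 4 : ℝ) • τ z := by
    rintro ⟨x, hx⟩
    rw [hAdef] at hx
    obtain ⟨_, ⟨z, hz, rfl⟩, hzx⟩ := (Finset.mem_filter.1 hx).2
    refine ⟨z, hz, ?_⟩
    simp only at hzx
    rw [hzx]
    abel
  choose zz hzK hzτ using hzex
  -- the vectors `h x`
  set h₀ : A → V := fun x => (x : V × W).1 - (1 / 4 : ℝ) • zz x with hh₀
  have hdiff : ∀ a b : A, h₀ a - h₀ b ∈ U ∧ p (h₀ a - h₀ b) ≤ 5 / 4 * s := by
    intro a b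
    have h1 : h₀ a - h₀ b ∈ U := by
      rw [hU, map_sub, hh₀]
      simp only [map_sub, map_smul]
      rw [hzτ a, hzτ b]
      simp
    refine ⟨h1, ?_⟩
    obtain ⟨za, hza, hza'⟩ := hzK a
    obtain ⟨zb, hzb, hzb'⟩ := hzK b
    have h2 := hK (hA a a.2) hzb (show (0 : ℝ) ≤ 4 / 5 by norm_num)
      (show (0 : ℝ) ≤ 1 / 5 by norm_num) (by norm_num)
    have h3 := hK (hA b b.2) hza (show (0 : ℝ) ≤ 4 / 5 by norm_num)
      (show (0 : ℝ) ≤ 1 / 5 by norm_num) (by norm_num)
    have e1 : ((4 / 5 : ℝ) • (a : V × W) + (1 / 5 : ℝ) • zb).1 -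
        ((4 / 5 : ℝ) • (b : V × W) + (1 / 5 : ℝ) • za).1 = (4 / 5 : ℝ) • (h₀ a - h₀ b) := by
      rw [hh₀]
      simp only [Prod.fst_add, Prod.smul_fst]
      rw [hza', hzb']
      module
    have h4 := hout _ h2 _ h3 (by rw [e1]; exact U.smul_mem _ h1)
    rw [e1, map_smul_eq_mul, Real.norm_of_nonneg (by norm_num)] at h4
    linarith
  obtain ⟨t, ht⟩ := exists_max_wt A (fun _ => 1) (l • K)
  refine ⟨t, ?_⟩
  set q := wt A (fun _ => 1) (l • K) t with hq
  set d := finrank ℝ (V × W) with hd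
  have hdk : d = finrank ℝ V + finrank ℝ W := Module.finrank_prod
  have hl0 : 0 < l := by linarith
  set c : ℝ := l / (1 + l) with hc
  have hc0 : 0 < c := by positivity
  have hc1 : c ≤ 1 := by rw [hc, div_le_one (by positivity)]; linarith
  have hc3 : 1 / 3 ≤ c := by
    rw [hc, div_le_div_iff₀ (by norm_num) (by positivity)]; linarith
  have hcl : c * (1 + l) = l := by rw [hc]; field_simp
  have hne : K.Nonempty := hKi.mono interior_subset
  have hKm : MeasurableSet K := hKc.isClosed.measurableSet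
  have hμ0 : μ K ≠ 0 := fun h => by
    have := isOpen_interior.measure_pos μ hKi
    have h2 : μ (interior K) ≤ μ K := measure_mono interior_subset
    rw [h] at h2
    exact absurd this (not_lt.mpr h2)
  have hμf : μ K ≠ ⊤ := hKc.measure_lt_top.ne
  set k : ℝ := μ.real K with hk
  have hk0 : 0 < k := ENNReal.toReal_pos hμ0 hμf
  have hvol : ∀ r : ℝ, 0 < r → μ.real (r • K) = r ^ d * k := by
    intro r hr
    rw [measureReal_def, Measure.addHaar_smul, abs_of_nonneg (by positivity), ENNReal.toReal_mul,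
      ENNReal.toReal_ofReal (by positivity)]
    rfl
  set Q : Set (V × W) := (1 + l) • K with hQ
  have hQc : IsCompact Q := hKc.smul _
  have hQm : MeasurableSet Q := hQc.isClosed.measurableSet
  have hQf : μ Q ≠ ⊤ := hQc.measure_lt_top.ne
  have hQv : μ.real Q = (1 + l) ^ d * k := hvol _ (by positivity)
  have hQ0 : 0 < μ.real Q := by rw [hQv]; positivity
  have hLv : μ.real (l • K) = c ^ d * μ.real Q := by
    rw [hvol l hl0, hQv, ← mul_assoc, ← mul_pow, hcl]
  set P : ℝ := (A.card : ℝ) with hP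
  have hP0 : 0 < P := by rw [hP]; exact_mod_cast hAne.card_pos
  have hcd : 0 < c ^ d := by positivity
  have hμ'0 : μV K' ≠ 0 := fun h => by
    have := isOpen_interior.measure_pos μV hK'i
    have h2 : μV (interior K') ≤ μV K' := measure_mono interior_subset
    rw [h] at h2
    exact absurd this (not_lt.mpr h2)
  have hμ'f : μV K' ≠ ⊤ := hK'c.measure_lt_top.ne
  -- the centre
  have hN0 : (0 : ℝ) < N := by exact_mod_cast (by omega : 0 < N)
  have hAN : Nonempty A := ⟨⟨hAne.choose, hAne.choose_spec⟩⟩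
  obtain ⟨x', hx'⟩ := exists_centre2 (N := N) p U h₀ (R := 5 / 4 * s) (D := (N : ℝ) / (5 * s))
    (by positivity) hdiff hR
  rw [Fintype.card_coe] at hx'
  have hgood := good_count (fun x : Fin N → A => p (∑ i, (h₀ (x i) - h₀ (x' i))))
    (fun x => apply_nonneg p _) (D := (N : ℝ) / 4) (by positivity) (by
      refine hx'.trans (le_of_eq ?_)
      congr 1
      field_simp)
  -- the set `M`
  set r : ℝ := 1 + l - N * c ^ (N - 1) / 4 with hr
  set w₀ : V := ∑ i, h₀ (x' i) with hw₀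
  set v₀ : V := c ^ (N - 1) • (w₀ - ((N : ℝ) / 2) • x₀) with hv₀
  set D' : Set V := (fun y => v₀ + y) '' (r • K') with hD'
  have hr0 : 0 < r := by
    have h1 := geo hcl N
    have h2 : (N : ℝ) * c ^ (N - 1) ≤ ∑ i : Fin N, c ^ (i : ℕ) := by
      have : (N : ℝ) * c ^ (N - 1) = ∑ _i : Fin N, c ^ (N - 1) := by
        rw [Finset.sum_const, Finset.card_univ, Fintype.card_fin, nsmul_eq_mul]
      rw [this]
      refine Finset.sum_le_sum fun i _ => ?_
      exact pow_le_pow_of_le_one hc0.le hc1 (by have := i.2; omega)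
    have h3 : 0 < c ^ N * (1 + l) := by positivity
    have h4 : 0 ≤ (N : ℝ) * c ^ (N - 1) := by positivity
    rw [hr]
    linarith
  have hD'c : IsCompact D' := (hK'c.smul r).image (by fun_prop)
  have hD'm : MeasurableSet D' := hD'c.isClosed.measurableSet
  have hD'v : μV D' = ENNReal.ofReal (r ^ finrank ℝ V) * μV K' := by
    rw [hD', Set.image_add_left, measure_preimage_add, Measure.addHaar_smul,
      abs_of_pos (by positivity)]
  set M : Set (V × W) := Prod.fst ⁻¹' D' with hM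
  have hMm : MeasurableSet M := measurable_fst hD'm
  -- the functions
  set φ : V × W → ℝ := M.indicator (fun _ => (1 : ℝ)) with hφ
  have hφm : Measurable φ := measurable_const.indicator hMm
  have hφ0 : ∀ y, 0 ≤ φ y := fun y => Set.indicator_nonneg (fun _ _ => zero_le_one) _
  have hφ1 : ∀ y, φ y ≤ 1 := fun y => Set.indicator_le_self' (fun _ _ => zero_le_one) _
  have hψm : ∀ j, Measurable ((av A c)^[j] φ) := by
    intro j
    induction j with
    | zero => exact hφm
    | succ j ih =>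
      rw [Function.iterate_succ_apply']
      unfold av at ih ⊢
      exact (Finset.measurable_sum _ fun a _ => ih.comp (by fun_prop)).const_mul _
  have hψ : ∀ j, (∀ y, 0 ≤ (av A c)^[j] φ y) ∧ ∀ y, (av A c)^[j] φ y ≤ 1 :=
    fun j => av_mem A c hφ0 hφ1 j
  set m : ℕ → ℝ := fun j => (μ.real Q)⁻¹ * ∫ y in Q, (av A c)^[j] φ y ∂μ with hm
  set β : ℝ := q / P * (c ^ d)⁻¹ with hβ
  -- `β ≥ 1`
  have hβ1 : 1 ≤ β := by
    have h1 := step μ A hK hKc hl0 hA ht (φ := fun _ => (1 : ℝ)) measurable_const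
      (fun _ => zero_le_one) (fun _ => le_rfl)
    simp only [setIntegral_const, smul_eq_mul, mul_one] at h1
    rw [Finset.sum_const, nsmul_eq_mul, ← hP, ← hc, ← hd, ← hQ, hLv] at h1
    have h2 : (P * μ.real Q) ^ 2 ≤ β * (P * μ.real Q) ^ 2 := by
      refine h1.trans (le_of_eq ?_)
      rw [hβ]
      field_simp
    have h3 : 0 < (P * μ.real Q) ^ 2 := by positivity
    nlinarith
  have hβ0 : 0 < β := by linarith
  have hstep : ∀ j, m (j + 1) ^ 2 ≤ β * m j := by
    intro j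
    have h1 := step μ A hK hKc hl0 hA ht (φ := (av A c)^[j] φ) (hψm j) (hψ j).1 (hψ j).2
    rw [← hP, ← hc, ← hd, ← hQ, hLv] at h1
    have h2 : ∫ y in Q, (av A c)^[j + 1] φ y ∂μ =
        P⁻¹ * ∑ a ∈ A, ∫ y in Q, (av A c)^[j] φ (a + c • y) ∂μ := by
      rw [Function.iterate_succ']
      simp only [Function.comp_apply]
      unfold av
      rw [integral_const_mul, integral_finsetSum]
      intro a _
      have := hψm j
      unfold av at this
      refine intOn μ hQf (this.comp (by fun_prop)) (fun y => ?_) (C := 1) (fun y => ?_)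
      · exact (hψ j).1 _
      · exact (hψ j).2 _
    have h3 : m (j + 1) ^ 2 = (μ.real Q)⁻¹ ^ 2 * P⁻¹ ^ 2 *
        (∑ a ∈ A, ∫ y in Q, (av A c)^[j] φ (a + c • y) ∂μ) ^ 2 := by
      simp only [hm]
      rw [h2]
      ring
    rw [h3]
    refine (mul_le_mul_of_nonneg_left h1 (by positivity)).trans (le_of_eq ?_)
    simp only [hm]
    rw [hβ]
    field_simp
  have hchain := chain hβ0 hstep N
  -- the exponent
  set lam : ℝ := N * c ^ (N - 1) with hlam
  have hlam0 : 0 < lam := by positivity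
  have h6 : (4 : ℝ) ≤ N := by exact_mod_cast hN
  have hlam3 : 3 * N * (1 / 3 : ℝ) ^ N ≤ lam := by
    have h5 : (1 / 3 : ℝ) ^ (N - 1) ≤ c ^ (N - 1) := pow_le_pow_left₀ (by norm_num) hc3 _
    have h8 : (1 / 3 : ℝ) ^ (N - 1) = 3 * (1 / 3) ^ N := by
      obtain ⟨n, rfl⟩ : ∃ n, N = n + 1 := ⟨N - 1, by omega⟩
      rw [Nat.add_sub_cancel, pow_succ]
      ring
    calc 3 * N * (1 / 3 : ℝ) ^ N = N * (1 / 3) ^ (N - 1) := by rw [h8]; ring
      _ ≤ _ := mul_le_mul_of_nonneg_left h5 (by positivity)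
  have hρ : r / (1 + l) ≤ Real.exp (-(lam / 8)) := by
    have h1 : r / (1 + l) ≤ 1 - lam / 8 := by
      rw [div_le_iff₀ (by positivity), hr]
      nlinarith
    refine h1.trans ?_
    have := Real.add_one_le_exp (-(lam / 8))
    linarith
  -- `m 0`
  set kk : ℝ := (finrank ℝ V : ℝ) with hkk
  have hkk0 : 0 ≤ kk := Nat.cast_nonneg _
  have hδ0 : 0 < δ := (Real.exp_pos _).trans_le hδ
  have hm0 : m 0 ≤ Real.exp (-((lam / 8 - 1 / 3 ^ N) * kk)) := by
    have hK'f' : μV (Prod.fst '' Q) ≠ ⊤ := (hQc.image continuous_fst).measure_lt_top.ne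
    have h1 := slab_of_fib μV μW (K := Q) hQm hK'f' ENNReal.ofReal_ne_top
      (fib_smul μV μW (a := 1 + l) (by positivity) hfib) hD'm
    have hfst : Prod.fst '' Q = (1 + l) • K' := by
      ext v
      constructor
      · rintro ⟨_, ⟨z, hz, rfl⟩, rfl⟩
        exact ⟨z.1, ⟨z, hz, rfl⟩, rfl⟩
      · rintro ⟨_, ⟨z, hz, rfl⟩, rfl⟩
        exact ⟨(1 + l) • z, ⟨z, hz, rfl⟩, rfl⟩
    rw [hfst, Measure.addHaar_smul, abs_of_pos (by positivity), hD'v] at h1
    have h2 := ENNReal.toReal_mono (ENNReal.mul_ne_top hQf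
      (ENNReal.mul_ne_top ENNReal.ofReal_ne_top hμ'f)) h1
    rw [ENNReal.toReal_mul, ENNReal.toReal_mul, ENNReal.toReal_mul, ENNReal.toReal_mul,
      ENNReal.toReal_mul, ENNReal.toReal_ofReal hδ0.le, ENNReal.toReal_ofReal (by positivity),
      ENNReal.toReal_ofReal (by positivity)] at h2
    have hk' : 0 < (μV K').toReal := ENNReal.toReal_pos hμ'0 hμ'f
    have h3 : δ * ((1 + l) ^ finrank ℝ V * μ.real (Q ∩ M)) ≤ μ.real Q * r ^ finrank ℝ V := by
      refine le_of_mul_le_mul_right ?_ hk'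
      calc δ * ((1 + l) ^ finrank ℝ V * μ.real (Q ∩ M)) * (μV K').toReal
          = δ * ((1 + l) ^ finrank ℝ V * (μV K').toReal * (μ (Q ∩ M)).toReal) := by
            rw [measureReal_def]; ring
        _ ≤ (μ Q).toReal * (r ^ finrank ℝ V * (μV K').toReal) := h2
        _ = _ := by rw [measureReal_def]; ring
    have h4 : ∫ y in Q, φ y ∂μ = μ.real (Q ∩ M) := by
      rw [hφ, setIntegral_indicator hMm, setIntegral_const, smul_eq_mul, mul_one]
    simp only [hm, Function.iterate_zero, id_eq]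
    rw [h4, inv_mul_le_iff₀ hQ0]
    have h5 : (r / (1 + l)) ^ finrank ℝ V ≤ δ * Real.exp (-((lam / 8 - 1 / 3 ^ N) * kk)) := by
      calc (r / (1 + l)) ^ finrank ℝ V ≤ Real.exp (-(lam / 8)) ^ finrank ℝ V :=
            pow_le_pow_left₀ (by positivity) hρ _
        _ = Real.exp (-(kk / 3 ^ N)) * Real.exp (-((lam / 8 - 1 / 3 ^ N) * kk)) := by
            rw [← Real.exp_nat_mul, ← Real.exp_add]
            congr 1
            rw [← hkk]
            ring
        _ ≤ _ := mul_le_mul_of_nonneg_right hδ (Real.exp_pos _).le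
    rw [div_pow, div_le_iff₀ (by positivity)] at h5
    have h7 : δ * ((1 + l) ^ finrank ℝ V * μ.real (Q ∩ M)) ≤
        δ * ((1 + l) ^ finrank ℝ V *
          (μ.real Q * Real.exp (-((lam / 8 - 1 / 3 ^ N) * kk)))) := by
      refine h3.trans ((mul_le_mul_of_nonneg_left h5 hQ0.le).trans (le_of_eq ?_))
      ring
    exact le_of_mul_le_mul_left (le_of_mul_le_mul_left h7 hδ0) (by positivity)
  -- `m N`
  have hmN : 1 / 2 ≤ m N := by
    have h1 : ∀ y ∈ Q, 1 / 2 ≤ (av A c)^[N] φ y := by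
      rintro _ ⟨y, hy, rfl⟩
      rw [av_iter, ← hP]
      have h2 : P ^ N / 2 ≤ ∑ x : Fin N → A,
          φ (∑ i : Fin N, c ^ (i : ℕ) • (x i : V × W) + c ^ N • (1 + l) • y) := by
        refine hgood.trans ?_
        rw [Finset.card_filter]
        push_cast
        refine Finset.sum_le_sum fun x _ => ?_
        split_ifs with h
        · set u : V := ∑ i, (h₀ (x i) - h₀ (x' i)) with hu
          have h5 : p u ≤ (N : ℝ) / 2 := by
            have h6 : (2 : ℝ) * (N / 4) = N / 2 := by ring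
            rw [h6] at h
            exact h
          have huU : u ∈ U := U.sum_mem fun i _ => (hdiff _ _).1
          obtain ⟨w, hw⟩ := hin ((2 / (N : ℝ)) • u) (U.smul_mem _ huU) (by
            rw [map_smul_eq_mul, Real.norm_of_nonneg (by positivity)]
            calc 2 / (N : ℝ) * p u ≤ 2 / (N : ℝ) * (N / 2) :=
                  mul_le_mul_of_nonneg_left h5 (by positivity)
              _ = 1 := by field_simp)
          have hk' : x₀ + (2 / (N : ℝ)) • u ∈ K' := ⟨_, hw, rfl⟩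
          have h7 := mem_M2 hK'conv hc0 hc1 hcl hl0 (fun i => (x i : V × W).1)
            (fun i => zz (x i)) (fun i => ⟨_, hA _ (x i).2, rfl⟩) (fun i => hzK _)
            (k := y.1) ⟨y, hy, rfl⟩ hk' (x₀ := x₀) (w₀ := w₀) (by
              rw [add_sub_cancel_left, smul_smul]
              have e5 : (N : ℝ) / 2 * (2 / N) = 1 := by field_simp
              have e6 : ∑ i, h₀ (x i) = ∑ i, (x i : V × W).1 - (1 / 4 : ℝ) • ∑ i, zz (x i) := by
                rw [Finset.smul_sum, ← Finset.sum_sub_distrib]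
              have e7 : u = ∑ i, h₀ (x i) - w₀ := by rw [hu, Finset.sum_sub_distrib]
              rw [e5, one_smul, e7, e6]
              abel)
          have h8 : ∑ i : Fin N, c ^ (i : ℕ) • (x i : V × W) + c ^ N • (1 + l) • y ∈ M := by
            refine ⟨_, h7, ?_⟩
            simp only [hv₀, Prod.fst_add, Prod.fst_sum, Prod.smul_fst]
            abel
          rw [hφ, Set.indicator_of_mem h8]
        · exact hφ0 _
      have h9 : 0 < P ^ N := by positivity
      rw [← div_eq_inv_mul, le_div_iff₀ h9]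
      linarith
    have h3 : 1 / 2 * μ.real Q ≤ ∫ y in Q, (av A c)^[N] φ y ∂μ := by
      have h4 : 1 / 2 * μ.real Q = ∫ _y in Q, (1 / 2 : ℝ) ∂μ := by
        rw [setIntegral_const, smul_eq_mul, mul_comm]
      rw [h4]
      exact setIntegral_mono_on (integrableOn_const hQf)
        (intOn μ hQf (hψm N) (hψ N).1 (hψ N).2) hQm h1
    simp only [hm]
    rw [← div_eq_inv_mul, le_div_iff₀ hQ0]
    exact h3
  -- conclusion
  have h1 : (1 / (2 * β)) ^ (2 ^ N) ≤ Real.exp (-((lam / 8 - 1 / 3 ^ N) * kk)) := by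
    calc (1 / (2 * β)) ^ (2 ^ N) ≤ (m N / β) ^ (2 ^ N) := by
          refine pow_le_pow_left₀ (by positivity) ?_ _
          rw [div_le_div_iff₀ (by positivity) hβ0]
          nlinarith
      _ ≤ m 0 / β := hchain
      _ ≤ Real.exp (-((lam / 8 - 1 / 3 ^ N) * kk)) / β := by gcongr
      _ ≤ Real.exp (-((lam / 8 - 1 / 3 ^ N) * kk)) := div_le_self (Real.exp_pos _).le hβ1
  have h2 : Real.exp ((lam / 8 - 1 / 3 ^ N) * kk / 2 ^ N) ≤ 2 * β := by
    have h3 : Real.exp ((lam / 8 - 1 / 3 ^ N) * kk / 2 ^ N) ^ (2 ^ N) ≤ (2 * β) ^ (2 ^ N) := by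
      have e1 : Real.exp ((lam / 8 - 1 / 3 ^ N) * kk / 2 ^ N) ^ (2 ^ N) =
          Real.exp ((lam / 8 - 1 / 3 ^ N) * kk) := by
        rw [← Real.exp_nat_mul]
        congr 1
        push_cast
        field_simp
      rw [e1]
      rw [one_div, inv_pow, Real.exp_neg] at h1
      exact (inv_le_inv₀ (by positivity) (Real.exp_pos _)).1 h1
    exact (pow_le_pow_iff_left₀ (Real.exp_pos _).le (by positivity) (by positivity)).1 h3
  have h3 : 3 * (kk / 10 ^ N) ≤ (lam / 8 - 1 / 3 ^ N) * kk / 2 ^ N := by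
    have h4 : 3 * (1 / (10 : ℝ) ^ N) ≤ (lam / 8 - 1 / 3 ^ N) / 2 ^ N := by
      have h5 : (6 : ℝ) * (1 / 10) ^ N ≤ (1 / 6) ^ N := by
        obtain ⟨n, rfl⟩ : ∃ n, N = n + 4 := ⟨N - 4, by omega⟩
        rw [pow_add, pow_add]
        have h51 : (1 / 10 : ℝ) ^ n ≤ (1 / 6) ^ n :=
          pow_le_pow_left₀ (by norm_num) (by norm_num) n
        have h52 : (0 : ℝ) ≤ (1 / 10) ^ n := by positivity
        nlinarith
      have h7 : (1 / 6 : ℝ) ^ N = (1 / 3) ^ N / 2 ^ N := by
        rw [div_pow, div_pow, one_pow, div_div, ← mul_pow]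
        norm_num
      have h9 : (1 / 2 : ℝ) * (1 / 3) ^ N ≤ lam / 8 - 1 / 3 ^ N := by
        have e3 : (1 : ℝ) / 3 ^ N = (1 / 3) ^ N := by rw [div_pow, one_pow]
        rw [e3]
        have h10 : (0 : ℝ) < (1 / 3) ^ N := by positivity
        nlinarith
      calc 3 * (1 / (10 : ℝ) ^ N) = 1 / 2 * (6 * (1 / 10) ^ N) := by rw [div_pow, one_pow]; ring
        _ ≤ 1 / 2 * (1 / 6) ^ N := by gcongr
        _ = (1 / 2 : ℝ) * (1 / 3) ^ N / 2 ^ N := by rw [h7]; ring
        _ ≤ _ := by gcongr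
    calc 3 * (kk / 10 ^ N) = 3 * (1 / 10 ^ N) * kk := by ring
      _ ≤ (lam / 8 - 1 / 3 ^ N) / 2 ^ N * kk := mul_le_mul_of_nonneg_right h4 hkk0
      _ = _ := by ring
  have h4 : Real.exp (3 * (kk / 10 ^ N)) ≤ 2 * β := (Real.exp_le_exp.2 h3).trans h2
  -- the loss in the cell
  have h5 : Real.exp (kk / 10 ^ N) ≤ 2 * β * (1 / 5) ^ finrank ℝ G := by
    have h51 : Real.exp (-2) ≤ 1 / 5 := by
      have h7 : Real.exp 2 = Real.exp 1 * Real.exp 1 := by rw [← Real.exp_add]; norm_num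
      have h8 := Real.exp_one_gt_d9
      rw [Real.exp_neg, one_div]
      refine inv_anti₀ (by norm_num) ?_
      rw [h7]
      nlinarith
    have h52 : Real.exp (-2 * finrank ℝ G) ≤ (1 / 5) ^ finrank ℝ G := by
      calc Real.exp (-2 * finrank ℝ G) = Real.exp (-2) ^ finrank ℝ G := by
            rw [← Real.exp_nat_mul]; congr 1; ring
        _ ≤ _ := pow_le_pow_left₀ (Real.exp_pos _).le h51 _
    have h53 : (finrank ℝ G : ℝ) ≤ kk / 10 ^ N := by
      rw [le_div_iff₀ (by positivity)]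
      exact hcod
    calc Real.exp (kk / 10 ^ N) ≤ Real.exp (3 * (kk / 10 ^ N) + -2 * finrank ℝ G) := by
          refine Real.exp_le_exp.2 ?_
          linarith
      _ = Real.exp (3 * (kk / 10 ^ N)) * Real.exp (-2 * finrank ℝ G) := Real.exp_add _ _
      _ ≤ _ := mul_le_mul h4 h52 (Real.exp_pos _).le (by positivity)
  have h6 : q ≤ wt A₀ (fun _ => 1) (l • K) t := by
    rw [hq]
    unfold wt
    refine Finset.sum_le_sum_of_subset_of_nonneg hAsub fun x _ _ => ?_
    split_ifs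
    · exact zero_le_one
    · exact le_rfl
  refine le_trans ?_ h6
  calc 1 / 2 * Real.exp (kk / 10 ^ N) * c ^ d * A₀.card
      ≤ 1 / 2 * (2 * β * (1 / 5) ^ finrank ℝ G) * c ^ d * A₀.card := by gcongr
    _ = β * c ^ d * ((1 / 5) ^ finrank ℝ G * A₀.card) := by ring
    _ ≤ β * c ^ d * P := mul_le_mul_of_nonneg_left hAcard (by positivity)
    _ = q := by
        rw [hβ]
        field_simp

end Pool.Agent.U330.COV
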