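import Pool.Agent.U330.COV.HeavyThick
import Pool.Agent.U330.COV.Fin10

/-!
# The covering theorem for bodies which are thick over a shadow with small Rademacher averages
-/

set_option autoImplicit false

noncomputable section

open MeasureTheory Set Module
open scoped Pointwise ENNReal

namespace Pool.Agent.U330.COV

open Pool.Agent.H2R2.Cov

/-- the bound -/
def bndT (k m N : ℕ) : ℝ :=
  1 + 6 * 2 ^ (k + m) * Real.exp (-(k / 10 ^ N)) *
    ((k + m) * Real.log (2 * (k + m) ^ 2 + 2 * (k + m) + 1))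

/-- `K` has at least the share `δ` of the product of its shadow and any of its fibres -/
def ThickT {k m : ℕ} (δ : ℝ) (K : Set (EuclideanSpace ℝ (Fin k) × EuclideanSpace ℝ (Fin m))) :
    Prop :=
  ∀ v : EuclideanSpace ℝ (Fin k), δ * (volume.real (Prod.fst '' K) *
    volume.real {w : EuclideanSpace ℝ (Fin m) | (v, w) ∈ K}) ≤ volume.real K

/-- **the covering theorem** -/
theorem cover_thick {k m N : ℕ} (hd : 2 ≤ k + m) (hN : 2 ≤ N) {κ : ℝ} (hκ : 0 < κ)
    {K : Set (EuclideanSpace ℝ (Fin k) × EuclideanSpace ℝ (Fin m))} (hK : Convex ℝ K)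
    (hKc : IsCompact K) (hKi : (interior K).Nonempty)
    (p : Seminorm ℝ (EuclideanSpace ℝ (Fin k))) {x₀ : EuclideanSpace ℝ (Fin k)}
    (hin : ∀ v, p (v - x₀) ≤ 1 → v ∈ Prod.fst '' K) (hout : ∀ v ∈ Prod.fst '' K, p (v - x₀) ≤ κ)
    (hR : ∀ y : Fin N → EuclideanSpace ℝ (Fin k), (∀ i, p (y i) ≤ 1) →
      ∑ e : Fin N → Bool, p (∑ i, sg (e i) • y i) ≤ 2 ^ N * (N / (8 * κ)))
    (hthick : ThickT (Real.exp (-(k / 3 ^ N))) K) :
    ∃ T : Finset (EuclideanSpace ℝ (Fin k) × EuclideanSpace ℝ (Fin m)),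
      K ⊆ ⋃ t ∈ T, (fun x => t + x) '' interior K ∧ (T.card : ℝ) ≤ bndT k m N := by
  have hfr : finrank ℝ (EuclideanSpace ℝ (Fin k) × EuclideanSpace ℝ (Fin m)) = k + m := by
    rw [Module.finrank_prod]; simp
  have hfrk : finrank ℝ (EuclideanSpace ℝ (Fin k)) = k := by simp
  have h := cover_of_heavy hK hKc hKi hfr hd (a := (k : ℝ) / 10 ^ N) (fun l hl hl1 A hA => by
    have h3 := heavy_thick (volume : Measure (EuclideanSpace ℝ (Fin k)))
      (volume : Measure (EuclideanSpace ℝ (Fin m))) hK hKc hKi p hκ (x₀ := x₀) (fun v hv => by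
        obtain ⟨z, hz, rfl⟩ := hin v hv
        exact ⟨z.2, hz⟩) (fun z hz => hout z.1 ⟨z, hz, rfl⟩) hN hR
      (δ := Real.exp (-(k / 3 ^ N))) (by rw [hfrk]) (fun x => by
        have h1 := hthick x
        have hf1 : volume (Prod.fst '' K) ≠ ⊤ := (hKc.image continuous_fst).measure_lt_top.ne
        have hf2 : volume {w : EuclideanSpace ℝ (Fin m) | (x, w) ∈ K} ≠ ⊤ := by
          have : {w : EuclideanSpace ℝ (Fin m) | (x, w) ∈ K} ⊆ Prod.snd '' K :=
            fun w hw => ⟨(x, w), hw, rfl⟩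
          exact ((measure_mono this).trans_lt (hKc.image continuous_snd).measure_lt_top).ne
        have hf3 : volume K ≠ ⊤ := hKc.measure_lt_top.ne
        rw [← Measure.volume_eq_prod]
        have e1 : volume (Prod.fst '' K) = ENNReal.ofReal (volume.real (Prod.fst '' K)) :=
          (ENNReal.ofReal_toReal hf1).symm
        have e2 : volume (Prod.mk x ⁻¹' K) =
            ENNReal.ofReal (volume.real {w : EuclideanSpace ℝ (Fin m) | (x, w) ∈ K}) :=
          (ENNReal.ofReal_toReal hf2).symm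
        have e3 : volume K = ENNReal.ofReal (volume.real K) := (ENNReal.ofReal_toReal hf3).symm
        rw [e1, e2, e3, ← ENNReal.ofReal_mul measureReal_nonneg,
          ← ENNReal.ofReal_mul (Real.exp_pos _).le]
        exact ENNReal.ofReal_le_ofReal h1) hl hl1 A hA
    rw [hfr, hfrk] at h3
    exact h3)
  obtain ⟨T, h1, h2⟩ := h
  refine ⟨T, h1, ?_⟩
  unfold bndT
  push_cast at h2
  exact h2

/-- thickness is automatic if the shadow has small codimension -/
theorem thick_auto {C : ℝ} (hC : 0 < C) : ∃ ε : ℝ, 0 < ε ∧ ∀ k m : ℕ, (m : ℝ) ≤ ε * (k + m) →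
    ∀ K : Set (EuclideanSpace ℝ (Fin k) × EuclideanSpace ℝ (Fin m)), Convex ℝ K → IsCompact K →
      ThickT (Real.exp (-(k / C))) K := by
  -- `N`
  obtain ⟨N₀, hN₀⟩ : ∃ N₀ : ℕ, C < 2 ^ N₀ := pow_unbounded_of_one_lt C (by norm_num)
  set N := N₀ + 2 with hN
  have hN2 : 2 ≤ N := by omega
  have hCN : C ≤ 2 ^ N := hN₀.le.trans (pow_le_pow_right₀ (by norm_num) (by omega))
  refine ⟨1 / 10 ^ N, by positivity, fun k m hm K hK hKc v => ?_⟩
  have hm' : (m : ℝ) * 10 ^ N ≤ (k + m : ℕ) := by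
    push_cast
    have e : 1 / (10 : ℝ) ^ N * (k + m) * 10 ^ N = k + m := by field_simp
    rw [← e]
    exact mul_le_mul_of_nonneg_right hm (by positivity)
  have h34 : ∀ n : ℕ, 3 * ((n + 2 : ℕ) : ℝ) / 4 ≤ (3 / 2) ^ (n + 2) := by
    intro n
    induction n with
    | zero => norm_num
    | succ n ih =>
      have e : (3 / 2 : ℝ) ^ (n + 1 + 2) = (3 / 2) ^ (n + 2) * (3 / 2) := by ring
      rw [e]
      have hn0 : (0 : ℝ) ≤ n := Nat.cast_nonneg n
      push_cast at ih ⊢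
      linarith
  have h1 := exponent (k := k) (m := m) (N := N) (lam := 3 * N * (1 / 3) ^ N)
    (ρ := Real.exp (-(3 * N * (1 / 3) ^ N / 4))) hN2 (Real.exp_pos _) le_rfl le_rfl hm'
  set t : ℝ := 1 - 1 / 10 ^ N with ht
  have ht0 : 0 < t := by
    rw [ht, sub_pos, div_lt_one (by positivity)]
    exact one_lt_pow₀ (by norm_num) (by omega)
  have ht1 : t < 1 := by
    have : 0 < 1 / (10 : ℝ) ^ N := by positivity
    linarith
  have hδ : Real.exp (-(k / C)) ≤ t ^ k * (1 - t) ^ m := by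
    have h2 : Real.exp (-(3 * N * (1 / 3) ^ N / 4)) ^ k ≤ t ^ k * (1 - t) ^ m := by
      refine h1.trans ?_
      have h3 : Real.exp (-(3 * N * (1 / 3 : ℝ) ^ N / 16 * (k + m : ℕ))) ≤ 1 := by
        rw [Real.exp_le_one_iff]
        have : 0 ≤ 3 * (N : ℝ) * (1 / 3 : ℝ) ^ N / 16 * (k + m : ℕ) := by positivity
        linarith
      have h4 : 0 ≤ t ^ k * (1 - t) ^ m :=
        mul_nonneg (pow_nonneg ht0.le _) (pow_nonneg (by linarith) _)
      calc _ ≤ 1 * (t ^ k * (1 - t) ^ m) := mul_le_mul_of_nonneg_right h3 h4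
        _ = _ := one_mul _
    refine le_trans ?_ h2
    rw [← Real.exp_nat_mul]
    refine Real.exp_le_exp.2 ?_
    have h5 : 3 * (N : ℝ) * (1 / 3) ^ N / 4 ≤ 1 / C := by
      have h6 : 3 * (N : ℝ) / 4 ≤ (3 / 2) ^ N := by rw [hN]; exact h34 N₀
      calc 3 * (N : ℝ) * (1 / 3) ^ N / 4 = 3 * (N : ℝ) / 4 * (1 / 3) ^ N := by ring
        _ ≤ (3 / 2) ^ N * (1 / 3) ^ N := mul_le_mul_of_nonneg_right h6 (by positivity)
        _ = 1 / 2 ^ N := by rw [← mul_pow, ← one_div_pow]; norm_num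
        _ ≤ 1 / C := one_div_le_one_div_of_le hC hCN
    have h7 : (k : ℝ) * (3 * (N : ℝ) * (1 / 3) ^ N / 4) ≤ k * (1 / C) :=
      mul_le_mul_of_nonneg_left h5 (Nat.cast_nonneg k)
    have e : (k : ℝ) / C = k * (1 / C) := by ring
    rw [e, mul_neg]
    linarith
  have h5 := fibre_bound (volume : Measure (EuclideanSpace ℝ (Fin k)))
    (volume : Measure (EuclideanSpace ℝ (Fin m))) hK hKc ht0 ht1 v
  rw [← Measure.volume_eq_prod] at h5
  have hfk : finrank ℝ (EuclideanSpace ℝ (Fin k)) = k := by simp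
  have hfm : finrank ℝ (EuclideanSpace ℝ (Fin m)) = m := by simp
  rw [hfk, hfm] at h5
  have h6 := ENNReal.toReal_mono hKc.measure_lt_top.ne h5
  rw [ENNReal.toReal_mul, ENNReal.toReal_mul, ENNReal.toReal_ofReal
    (mul_nonneg (pow_nonneg ht0.le _) (pow_nonneg (by linarith) _))] at h6
  refine le_trans ?_ h6
  exact mul_le_mul_of_nonneg_right hδ (mul_nonneg ENNReal.toReal_nonneg ENNReal.toReal_nonneg)

/-- the numerical estimate -/
theorem bndT_lt (N : ℕ) {k m : ℕ} (hd : 2 ≤ k + m)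
    (hk : 10 * 10 ^ N * Real.log (k + m) ≤ k) : bndT k m N < 2 ^ (k + m) := by
  set d : ℝ := (k : ℝ) + m with hdd
  have hd2 : (2 : ℝ) ≤ d := by rw [hdd]; exact_mod_cast hd
  have hlog : 10 * Real.log d ≤ k / 10 ^ N := by
    rw [le_div_iff₀ (by positivity)]
    linarith
  have h1 : d ^ 10 ≤ Real.exp (k / 10 ^ N) := by
    calc d ^ 10 = Real.exp (Real.log d) ^ 10 := by rw [Real.exp_log (by linarith)]
      _ = Real.exp (10 * Real.log d) := by rw [← Real.exp_nat_mul]; norm_num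
      _ ≤ _ := Real.exp_le_exp.2 hlog
  have h2 : Real.log (2 * d ^ 2 + 2 * d + 1) ≤ 5 * d ^ 2 := by
    have := Real.log_le_sub_one_of_pos (x := 2 * d ^ 2 + 2 * d + 1) (by positivity)
    nlinarith
  have h0 : 0 ≤ Real.log (2 * d ^ 2 + 2 * d + 1) := Real.log_nonneg (by nlinarith)
  have h3 : 7 * (d * Real.log (2 * d ^ 2 + 2 * d + 1)) ≤ Real.exp (k / 10 ^ N) := by
    have h4 : 7 * (d * Real.log (2 * d ^ 2 + 2 * d + 1)) ≤ 7 * (d * (5 * d ^ 2)) := by gcongr
    have h5 : 7 * (d * (5 * d ^ 2)) ≤ d ^ 10 := by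
      have h6 : (128 : ℝ) ≤ d ^ 7 := by
        calc (128 : ℝ) = 2 ^ 7 := by norm_num
          _ ≤ d ^ 7 := pow_le_pow_left₀ (by norm_num) hd2 7
      have h7 : 0 < d ^ 3 := by positivity
      nlinarith
    linarith
  have hk3 : (7 : ℝ) ≤ d := by
    have h4 : (0.69 : ℝ) ≤ Real.log d := by
      have h5 := Real.log_two_gt_d9
      have h6 : Real.log 2 ≤ Real.log d := Real.log_le_log (by norm_num) hd2
      linarith
    have h5 : (1 : ℝ) ≤ 10 ^ N := one_le_pow₀ (by norm_num)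
    have h6 : 10 * (1 : ℝ) * 0.7 ≤ 10 * 10 ^ N * Real.log d + 0.1 := by nlinarith
    have h7 : (6.9 : ℝ) ≤ k := by linarith
    have h8 : (7 : ℝ) ≤ k := by
      by_contra h9
      push Not at h9
      have h10 : k < 7 := by exact_mod_cast h9
      have h11 : (k : ℝ) ≤ 6 := by exact_mod_cast (by omega : k ≤ 6)
      linarith
    have : (0 : ℝ) ≤ m := Nat.cast_nonneg m
    rw [hdd]
    linarith
  unfold bndT
  rw [← hdd]
  have hp : (2 : ℝ) ^ 7 ≤ 2 ^ (k + m) := by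
    refine pow_le_pow_right₀ (by norm_num) ?_
    have : (7 : ℝ) ≤ ((k + m : ℕ) : ℝ) := by push_cast; exact hk3
    exact_mod_cast this
  have hE : 0 < Real.exp (-(k / 10 ^ N)) := Real.exp_pos _
  have h8 : Real.exp (-((k : ℝ) / 10 ^ N)) * (7 * (d * Real.log (2 * d ^ 2 + 2 * d + 1))) ≤ 1 := by
    calc _ ≤ Real.exp (-((k : ℝ) / 10 ^ N)) * Real.exp (k / 10 ^ N) :=
          mul_le_mul_of_nonneg_left h3 hE.le
      _ = 1 := by rw [← Real.exp_add]; simp
  have h9 : 6 * 2 ^ (k + m) * Real.exp (-(k / 10 ^ N)) *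
      (d * Real.log (2 * d ^ 2 + 2 * d + 1)) ≤ 6 / 7 * 2 ^ (k + m) := by
    calc _ = 6 / 7 * 2 ^ (k + m) * (Real.exp (-((k : ℝ) / 10 ^ N)) *
          (7 * (d * Real.log (2 * d ^ 2 + 2 * d + 1)))) := by ring
      _ ≤ 6 / 7 * 2 ^ (k + m) * 1 := mul_le_mul_of_nonneg_left h8 (by positivity)
      _ = _ := mul_one _
  have h10 : (7 : ℝ) < 2 ^ (k + m) := lt_of_lt_of_le (by norm_num) hp
  linarith

end Pool.Agent.U330.COV
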