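import Pool.Agent.U330.COV.QB
import Pool.Agent.U330.COV.Thick

/-!
# The covering theorem for bodies which are thick over a shadow with a large section near the unit
ball of a space with small Rademacher averages
-/

set_option autoImplicit false

noncomputable section

open MeasureTheory Set Module
open scoped Pointwise ENNReal

namespace Pool.Agent.U330.COV

open Pool.Agent.H2R2.Cov

/-- **the covering theorem** -/
theorem cover_qs {k m N : ℕ} (hd : 2 ≤ k + m) (hN : 4 ≤ N) {s : ℝ} (hs : 0 < s)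
    {K : Set (EuclideanSpace ℝ (Fin k) × EuclideanSpace ℝ (Fin m))} (hK : Convex ℝ K)
    (hKc : IsCompact K) (hKi : (interior K).Nonempty)
    (U : Submodule ℝ (EuclideanSpace ℝ (Fin k)))
    (hcod : ((k : ℝ) - finrank ℝ U) * 10 ^ N ≤ k)
    (p : Seminorm ℝ (EuclideanSpace ℝ (Fin k))) {x₀ : EuclideanSpace ℝ (Fin k)}
    (hin : ∀ v ∈ U, p v ≤ 1 → x₀ + v ∈ Prod.fst '' K)
    (hout : ∀ x ∈ Prod.fst '' K, ∀ y ∈ Prod.fst '' K, x - y ∈ U → p (x - y) ≤ s)
    (hR : ∀ y : Fin N → EuclideanSpace ℝ (Fin k), (∀ i, y i ∈ U ∧ p (y i) ≤ 1) →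
      ∑ e : Fin N → Bool, p (∑ i, sg (e i) • y i) ≤ 2 ^ N * (N / (5 * s)))
    (hthick : ThickT (Real.exp (-(k / 3 ^ N))) K) :
    ∃ T : Finset (EuclideanSpace ℝ (Fin k) × EuclideanSpace ℝ (Fin m)),
      K ⊆ ⋃ t ∈ T, (fun x => t + x) '' interior K ∧ (T.card : ℝ) ≤ bndT k m N := by
  have hfr : finrank ℝ (EuclideanSpace ℝ (Fin k) × EuclideanSpace ℝ (Fin m)) = k + m := by
    rw [Module.finrank_prod]; simp
  have hfrk : finrank ℝ (EuclideanSpace ℝ (Fin k)) = k := by simp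
  have hker : LinearMap.ker
      (Uᗮ.orthogonalProjectionOnto : EuclideanSpace ℝ (Fin k) →ₗ[ℝ] Uᗮ) = U := by
    rw [Uᗮ.ker_orthogonalProjectionOnto, Submodule.orthogonal_orthogonal]
  have hsur : Function.Surjective
      (Uᗮ.orthogonalProjectionOnto : EuclideanSpace ℝ (Fin k) →ₗ[ℝ] Uᗮ) := fun v =>
    ⟨v, Submodule.orthogonalProjectionOnto_mem_subspace_eq_self v⟩
  have hfin : (finrank ℝ Uᗮ : ℝ) = k - finrank ℝ U := by
    have h1 : finrank ℝ U + finrank ℝ Uᗮ = k := by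
      rw [Submodule.finrank_add_finrank_orthogonal, hfrk]
    have h2 : (finrank ℝ U : ℝ) + finrank ℝ Uᗮ = k := by exact_mod_cast h1
    linarith
  have h := cover_of_heavy hK hKc hKi hfr hd (a := (k : ℝ) / 10 ^ N) (fun l hl hl1 A hA => by
    have h3 := heavy_qs (volume : Measure (EuclideanSpace ℝ (Fin k)))
      (volume : Measure (EuclideanSpace ℝ (Fin m))) hK hKc hKi
      (Uᗮ.orthogonalProjectionOnto : EuclideanSpace ℝ (Fin k) →ₗ[ℝ] Uᗮ) hsur U
      (fun v => by rw [← LinearMap.mem_ker, hker]) p hs (x₀ := x₀) (fun v hv hv1 => by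
        obtain ⟨z, hz, hz'⟩ := hin v hv hv1
        exact ⟨z.2, by rw [← hz']; exact hz⟩)
      (fun z hz z' hz' h0 => hout z.1 ⟨z, hz, rfl⟩ z'.1 ⟨z', hz', rfl⟩ h0) hN hR
      (δ := Real.exp (-(k / 3 ^ N))) (by rw [hfrk]) (fun x => by
        have h1 := hthick x
        have hf1 : volume (Prod.fst '' K) ≠ ⊤ := (hKc.image continuous_fst).measure_lt_top.ne
        have hf2 : volume {w : EuclideanSpace ℝ (Fin m) | (x, w) ∈ K} ≠ ⊤ := by
          have : {w : EuclideanSpace ℝ (Fin m) | (x, w) ∈ K} ⊆ Prod.snd '' K :=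
            fun w hw => ⟨(x, w), hw, rfl⟩
          exact ((measure_mono this).trans_lt (hKc.image continuous_snd).measure_lt_top).ne
        have hf3 : volume K ≠ ⊤ := hKc.measure_lt_top.ne
        rw [← Measure.volume_eq_prod]
        have e1 : volume (Prod.fst '' K) = ENNReal.ofReal (volume.real (Prod.fst '' K)) :=
          (ENNReal.ofReal_toReal hf1).symm
        have e2 : volume (Prod.mk x ⁻¹' K) =
            ENNReal.ofReal (volume.real {w : EuclideanSpace ℝ (Fin m) | (x, w) ∈ K}) :=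
          (ENNReal.ofReal_toReal hf2).symm
        have e3 : volume K = ENNReal.ofReal (volume.real K) := (ENNReal.ofReal_toReal hf3).symm
        rw [e1, e2, e3, ← ENNReal.ofReal_mul measureReal_nonneg,
          ← ENNReal.ofReal_mul (Real.exp_pos _).le]
        exact ENNReal.ofReal_le_ofReal h1) (by rw [hfin, hfrk]; exact hcod) hl hl1 A hA
    rw [hfr, hfrk] at h3
    exact h3)
  obtain ⟨T, h1, h2⟩ := h
  refine ⟨T, h1, ?_⟩
  unfold bndT
  push_cast at h2
  exact h2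

/-- **small Rademacher averages** of at least four vectors -/
theorem exists_N4 {ι : Type*} [Fintype ι] [DecidableEq ι] {ρ κ : ℝ} (h2 : 2 ≤ Fintype.card ι)
    (hρ : ρ < Fintype.card ι) (hκ : 0 < κ) :
    ∃ N : ℕ, 4 ≤ N ∧ ∀ (E : Type*) [AddCommGroup E] [Module ℝ E] (p : Seminorm ℝ E),
      Signed ι ρ p → ∀ y : Fin N → E, (∀ i, p (y i) ≤ 1) →
        ∑ e : Fin N → Bool, p (∑ i, sg (e i) • y i) ≤ 2 ^ N * (N / (8 * κ)) := by
  classical
  rcases lt_or_ge ρ 0 with hneg | hρ0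
  · refine ⟨4, le_rfl, fun E _ _ p h => ?_⟩
    obtain ⟨e, he⟩ := h (fun _ => 0) (fun _ => by simp)
    have := (apply_nonneg p _).trans he
    linarith
  set n : ℕ := Fintype.card ι with hn
  have hn0 : (0 : ℝ) < n := by exact_mod_cast (by omega : 0 < n)
  set τ : ℝ := (1 - ρ / n) / 2 ^ (n + 1) with hτ
  have hr1 : ρ / n < 1 := by rw [div_lt_one hn0]; exact hρ
  have hr0 : 0 ≤ ρ / n := by positivity
  have hτ0 : 0 < τ := div_pos (by linarith) (by positivity)
  have hτ1 : τ ≤ 1 := by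
    rw [hτ, div_le_one (by positivity)]
    have : (1 : ℝ) ≤ 2 ^ (n + 1) := one_le_pow₀ (by norm_num)
    linarith
  set b : ℝ := 1 - τ ^ 2 with hb
  have hb0 : 0 ≤ b := by rw [hb]; nlinarith
  have hb1 : b < 1 := by rw [hb]; nlinarith [sq_pos_of_pos hτ0]
  obtain ⟨k, hk, hk1⟩ := (((tendsto_pow_atTop_nhds_zero_of_lt_one hb0 hb1).eventually_le_const
    (show (0 : ℝ) < (1 / (8 * κ)) ^ 2 by positivity)).and (Filter.eventually_ge_atTop 1)).exists
  obtain ⟨N, hN⟩ : ∃ N : ℕ, N = n ^ (k + 1) := ⟨_, rfl⟩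
  refine ⟨N, ?_, fun E _ _ p h y hy => ?_⟩
  · calc 4 = 2 ^ 2 := by norm_num
      _ ≤ n ^ 2 := Nat.pow_le_pow_left h2 2
      _ ≤ n ^ (k + 1) := Nat.pow_le_pow_right (by omega) (by omega)
      _ = N := hN.symm
  have h3 : SqRad (Fin n) b p := sq_equiv (Fintype.equivFin ι) (sq_of_signed hρ0 hρ h)
  have h4' : SqRad (Fin N) (b ^ (k + 1)) p := by
    rw [hN]
    exact sq_pow hb0 h3 k
  have h4 := h4' y
  rw [Fintype.card_fin] at h4
  have h5 := sq_sum_le_card_mul_sum_sq (s := (Finset.univ : Finset (Fin N → Bool)))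
    (f := fun e => p (∑ i, sg (e i) • y i))
  rw [Finset.card_univ, Fintype.card_fun, Fintype.card_bool, Fintype.card_fin] at h5
  have h6 : ∑ i, p (y i) ^ 2 ≤ N := by
    calc ∑ i, p (y i) ^ 2 ≤ ∑ _i : Fin N, (1 : ℝ) := Finset.sum_le_sum fun i _ => by
          have := hy i
          have := apply_nonneg p (y i)
          nlinarith
      _ = N := by simp
  have h7 : b ^ (k + 1) ≤ (1 / (8 * κ)) ^ 2 :=
    (pow_le_pow_of_le_one hb0 hb1.le (Nat.le_succ k)).trans hk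
  have h8 : (∑ e : Fin N → Bool, p (∑ i, sg (e i) • y i)) ^ 2 ≤ (2 ^ N * (N / (8 * κ))) ^ 2 := by
    refine h5.trans ?_
    push_cast
    calc (2 : ℝ) ^ N * ∑ e : Fin N → Bool, p (∑ i, sg (e i) • y i) ^ 2
        ≤ 2 ^ N * (2 ^ N * (b ^ (k + 1) * (N * ∑ i, p (y i) ^ 2))) := by gcongr
      _ ≤ 2 ^ N * (2 ^ N * ((1 / (8 * κ)) ^ 2 * (N * N))) := by gcongr
      _ = _ := by ring
  exact (abs_le_of_sq_le_sq' h8 (by positivity)).2

end Pool.Agent.U330.COV
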