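import Pool.Agent.H2R2.Cov2

/-!
# One step of the averaging inequality
-/

set_option autoImplicit false

noncomputable section

open MeasureTheory Set Module
open scoped Pointwise

namespace Pool.Agent.U330.COV

open Pool.Agent.H2R2.Cov

section L2

variable {E : Type*} [NormedAddCommGroup E] [NormedSpace ℝ E] [FiniteDimensional ℝ E]
  [MeasurableSpace E] [BorelSpace E] (μ : Measure E) [μ.IsAddHaarMeasure]

/-- the `L²` norm of the number of the translates -/
theorem l2_bound (A : Finset E) (L : Set E) (hL : MeasurableSet L) (hLf : μ L ≠ ⊤) {q : ℝ}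
    (hq : ∀ t, wt A (fun _ => 1) L t ≤ q) :
    Integrable (fun z => (∑ x ∈ A, fx L x z) ^ 2) μ ∧
      ∫ z, (∑ x ∈ A, fx L x z) ^ 2 ∂μ ≤ A.card * (q * μ.real L) := by
  classical
  have hg2e : ∀ z, (∑ x ∈ A, fx L x z) ^ 2 = ∑ x' ∈ A, ∑ x ∈ A, (fx L x z * fx L x' z) := by
    intro z
    rw [sq, Finset.sum_mul_sum, Finset.sum_comm]
  have hg2i : Integrable (fun z => (∑ x ∈ A, fx L x z) ^ 2) μ := by
    simp_rw [hg2e]
    refine integrable_finsetSum _ fun x' _ => integrable_finsetSum _ fun x _ => ?_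
    exact fx_mul_integrable μ L hL hLf x x'
  refine ⟨hg2i, ?_⟩
  have hshift : ∀ x x' : E, ∫ z, fx L x z * fx L x' z ∂μ
      = ∫ y, L.indicator (fun _ => (1 : ℝ)) y * L.indicator (fun _ => (1 : ℝ)) (x - (x' - y)) ∂μ := by
    intro x x'
    rw [← integral_add_right_eq_self (fun z => fx L x z * fx L x' z) x]
    congr 1
    ext y
    unfold fx
    congr 2
    · abel
    · abel
  have hind_int : ∀ x x' : E, Integrable (fun y => L.indicator (fun _ => (1 : ℝ)) y *
      L.indicator (fun _ => (1 : ℝ)) (x - (x' - y))) μ := by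
    intro x x'
    have h := (fx_mul_integrable μ L hL hLf x x').comp_add_right x
    refine h.congr (Filter.Eventually.of_forall fun y => ?_)
    simp only [fx]
    congr 2
    · abel
    · abel
  simp_rw [hg2e]
  rw [integral_finsetSum _ (fun x' _ => integrable_finsetSum _ fun x _ =>
    (fx_mul_integrable μ L hL hLf x x'))]
  rw [← nsmul_eq_mul, ← Finset.sum_const]
  refine Finset.sum_le_sum fun x' hx' => ?_
  have e1 : ∫ z, ∑ x ∈ A, (fx L x z * fx L x' z) ∂μ
      = ∫ y, L.indicator (fun _ => (1 : ℝ)) y * wt A (fun _ => 1) L (x' - y) ∂μ := by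
    rw [integral_finsetSum _ (fun x _ => (fx_mul_integrable μ L hL hLf x x'))]
    simp_rw [hshift]
    rw [← integral_finsetSum _ (fun x _ => (hind_int x x'))]
    congr 1
    ext y
    unfold wt
    rw [Finset.mul_sum]
    refine Finset.sum_congr rfl fun x _ => ?_
    by_cases h : x - (x' - y) ∈ L
    · rw [Set.indicator_of_mem h, if_pos h]
    · rw [Set.indicator_of_notMem h, if_neg h]
  rw [e1]
  have e2 : q * μ.real L = ∫ y, L.indicator (fun _ => (1 : ℝ)) y * q ∂μ := by
    rw [integral_mul_const, integral_indicator_const _ hL]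
    simp [mul_comm]
  rw [e2]
  refine integral_mono_of_nonneg ?_ ?_ ?_
  · refine Filter.Eventually.of_forall fun y => ?_
    refine mul_nonneg (Set.indicator_nonneg (fun _ _ => zero_le_one) _) ?_
    unfold wt
    refine Finset.sum_nonneg fun x hx => ?_
    split_ifs
    · exact zero_le_one
    · exact le_rfl
  · refine Integrable.mul_const ?_ _
    rw [integrable_indicator_iff hL]
    exact integrableOn_const hLf
  · refine Filter.Eventually.of_forall fun y => ?_
    exact mul_le_mul_of_nonneg_left (hq _) (Set.indicator_nonneg (fun _ _ => zero_le_one) _)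

omit [NormedAddCommGroup E] [NormedSpace ℝ E] [FiniteDimensional ℝ E] [BorelSpace E]
  [μ.IsAddHaarMeasure] in
/-- a bounded measurable function is integrable on a set of finite measure -/
lemma intOn {S : Set E} (hSf : μ S ≠ ⊤) {φ : E → ℝ} (hφ : Measurable φ)
    {C : ℝ} (h0 : ∀ y, 0 ≤ φ y) (h1 : ∀ y, φ y ≤ C) : IntegrableOn φ S μ := by
  refine Integrable.mono' (g := fun _ => C) (integrableOn_const hSf) hφ.aestronglyMeasurable ?_
  refine Filter.Eventually.of_forall fun y => ?_
  rw [Real.norm_of_nonneg (h0 y)]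
  exact h1 y

/-- Cauchy-Schwarz -/
lemma cs {S : Set E} {φ G : E → ℝ} (h1 : IntegrableOn (fun y => φ y ^ 2) S μ)
    (h2 : IntegrableOn (fun y => φ y * G y) S μ) (h3 : IntegrableOn (fun y => G y ^ 2) S μ) :
    (∫ y in S, φ y * G y ∂μ) ^ 2 ≤ (∫ y in S, φ y ^ 2 ∂μ) * ∫ y in S, G y ^ 2 ∂μ := by
  have h := discrim_le_zero (a := ∫ y in S, φ y ^ 2 ∂μ) (b := -2 * ∫ y in S, φ y * G y ∂μ)
    (c := ∫ y in S, G y ^ 2 ∂μ) (fun s => by
      have e : ∫ y in S, (s * φ y - G y) ^ 2 ∂μ = (∫ y in S, φ y ^ 2 ∂μ) * (s * s) +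
          (-2 * ∫ y in S, φ y * G y ∂μ) * s + ∫ y in S, G y ^ 2 ∂μ := by
        have e1 : ∀ y, (s * φ y - G y) ^ 2 = s * s * φ y ^ 2 - 2 * s * (φ y * G y) + G y ^ 2 :=
          fun y => by ring
        simp_rw [e1]
        have i1 : IntegrableOn (fun y => s * s * φ y ^ 2) S μ := h1.const_mul _
        have i2 : IntegrableOn (fun y => 2 * s * (φ y * G y)) S μ := h2.const_mul _
        have i3 : IntegrableOn (fun y => s * s * φ y ^ 2 - 2 * s * (φ y * G y)) S μ := i1.sub i2
        rw [integral_add i3 h3, integral_sub i1 i2, integral_const_mul, integral_const_mul]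
        ring
      rw [← e]
      exact integral_nonneg fun y => sq_nonneg _)
  unfold discrim at h
  nlinarith

/-- **one step** -/
theorem step (A : Finset E) {K : Set E} (hK : Convex ℝ K) (hKc : IsCompact K) {l : ℝ}
    (hl : 0 < l) (hA : ∀ x ∈ A, x ∈ K) {q : ℝ} (hq : ∀ t, wt A (fun _ => 1) (l • K) t ≤ q)
    {φ : E → ℝ} (hφ : Measurable φ) (h0 : ∀ y, 0 ≤ φ y) (h1 : ∀ y, φ y ≤ 1) :
    (∑ a ∈ A, ∫ y in (1 + l) • K, φ (a + (l / (1 + l)) • y) ∂μ) ^ 2 ≤
      (((l / (1 + l)) ^ finrank ℝ E)⁻¹) ^ 2 * ((∫ y in (1 + l) • K, φ y ∂μ) *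
        (A.card * (q * μ.real (l • K)))) := by
  set c : ℝ := l / (1 + l) with hc
  have hc0 : 0 < c := by positivity
  set Q : Set E := (1 + l) • K with hQ
  set L : Set E := l • K with hL
  have hQc : IsCompact Q := hKc.smul _
  have hLc : IsCompact L := hKc.smul _
  have hQm : MeasurableSet Q := hQc.isClosed.measurableSet
  have hLm : MeasurableSet L := hLc.isClosed.measurableSet
  have hQf : μ Q ≠ ⊤ := hQc.measure_lt_top.ne
  have hLf : μ L ≠ ⊤ := hLc.measure_lt_top.ne
  have hmem : ∀ y, c • y ∈ L ↔ y ∈ Q := by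
    intro y
    constructor
    · rintro ⟨k, hk, hk'⟩
      refine ⟨k, hk, ?_⟩
      simp only at hk' ⊢
      have h2 : c⁻¹ • (l • k) = c⁻¹ • (c • y) := by rw [hk']
      rw [smul_smul, smul_smul, inv_mul_cancel₀ hc0.ne', one_smul] at h2
      rw [← h2, hc]
      congr 1
      field_simp
    · rintro ⟨k, hk, rfl⟩
      refine ⟨k, hk, ?_⟩
      simp only
      rw [smul_smul, hc]
      congr 1
      field_simp
  have e1 : ∀ a, ∫ y in Q, φ (a + c • y) ∂μ =
      (c ^ finrank ℝ E)⁻¹ * ∫ z, φ z * fx L a z ∂μ := by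
    intro a
    have h2 := Measure.integral_comp_smul μ
      (fun y => L.indicator (fun _ => (1 : ℝ)) y * φ (a + y)) c
    rw [abs_of_pos (by positivity), smul_eq_mul] at h2
    have h3 : ∫ y in Q, φ (a + c • y) ∂μ =
        ∫ y, L.indicator (fun _ => (1 : ℝ)) (c • y) * φ (a + c • y) ∂μ := by
      rw [← integral_indicator hQm]
      congr 1
      ext y
      by_cases hy : y ∈ Q
      · rw [Set.indicator_of_mem hy, Set.indicator_of_mem ((hmem y).2 hy), one_mul]
      · rw [Set.indicator_of_notMem hy, Set.indicator_of_notMem (fun h => hy ((hmem y).1 h)),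
          zero_mul]
    rw [h3, h2]
    congr 1
    rw [← integral_add_left_eq_self (fun z => φ z * fx L a z) a]
    congr 1
    ext y
    unfold fx
    rw [add_sub_cancel_left, mul_comm]
  set G : E → ℝ := fun z => ∑ a ∈ A, fx L a z with hG
  obtain ⟨hG2, hG2b⟩ := l2_bound μ A L hLm hLf hq
  have hGi : Integrable G μ := integrable_finsetSum _ fun a _ => fx_integrable μ L hLm hLf a
  have hGm : Measurable G := by
    refine Finset.measurable_sum _ fun a _ => ?_
    unfold fx
    exact (measurable_const.indicator hLm).comp (measurable_id.sub_const a)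
  have hφfx : ∀ a, Integrable (fun z => φ z * fx L a z) μ := by
    intro a
    refine (fx_integrable μ L hLm hLf a).mono
      (hφ.aestronglyMeasurable.mul (fx_integrable μ L hLm hLf a).aestronglyMeasurable) ?_
    refine Filter.Eventually.of_forall fun z => ?_
    rw [Real.norm_of_nonneg (mul_nonneg (h0 z) (fx_nonneg _ _ _)),
      Real.norm_of_nonneg (fx_nonneg _ _ _)]
    exact mul_le_of_le_one_left (fx_nonneg _ _ _) (h1 z)
  have hφG : Integrable (fun z => φ z * G z) μ := by
    have e : (fun z => φ z * G z) = fun z => ∑ a ∈ A, φ z * fx L a z := by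
      ext z
      rw [hG, Finset.mul_sum]
    rw [e]
    exact integrable_finsetSum _ fun a _ => hφfx a
  have e2 : ∑ a ∈ A, ∫ y in Q, φ (a + c • y) ∂μ = (c ^ finrank ℝ E)⁻¹ * ∫ z, φ z * G z ∂μ := by
    rw [Finset.sum_congr rfl fun a _ => e1 a, ← Finset.mul_sum,
      ← integral_finsetSum _ fun a _ => hφfx a]
    congr 2
    ext z
    rw [hG, Finset.mul_sum]
  have hG0 : ∀ z, z ∉ Q → φ z * G z = 0 := by
    intro z hz
    have : G z = 0 := by
      refine Finset.sum_eq_zero fun a ha => ?_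
      have h2 : z - a ∉ L := by
        rintro ⟨k, hk, hk'⟩
        refine hz ?_
        have h3 := hK (hA a ha) hk (show (0 : ℝ) ≤ 1 / (1 + l) by positivity)
          (show (0 : ℝ) ≤ l / (1 + l) by positivity) (by field_simp)
        refine ⟨_, h3, ?_⟩
        simp only [smul_add, smul_smul] at hk' ⊢
        rw [mul_one_div_cancel (by positivity : (1 + l) ≠ 0), one_smul,
          mul_div_cancel₀ _ (by positivity : (1 + l) ≠ 0), hk']
        abel
      unfold fx
      rw [Set.indicator_of_notMem h2]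
    rw [this, mul_zero]
  have e3 : ∫ z, φ z * G z ∂μ = ∫ z in Q, φ z * G z ∂μ :=
    (setIntegral_eq_integral_of_forall_compl_eq_zero hG0).symm
  have hφ2 : IntegrableOn (fun y => φ y ^ 2) Q μ :=
    intOn μ hQf (hφ.pow_const 2) (fun y => sq_nonneg _) (C := 1) (fun y => by
      have := h0 y
      have := h1 y
      nlinarith)
  have hcs := cs μ hφ2 hφG.integrableOn hG2.integrableOn
  have h4 : ∫ y in Q, φ y ^ 2 ∂μ ≤ ∫ y in Q, φ y ∂μ := by
    refine integral_mono hφ2 (intOn μ hQf hφ h0 h1) fun y => ?_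
    have := h0 y
    have := h1 y
    simp only
    nlinarith
  have h5 : ∫ y in Q, G y ^ 2 ∂μ ≤ A.card * (q * μ.real L) :=
    (setIntegral_le_integral hG2 (Filter.Eventually.of_forall fun z => sq_nonneg _)).trans hG2b
  have h6 : 0 ≤ ∫ y in Q, φ y ∂μ := integral_nonneg h0
  have h7 : 0 ≤ ∫ y in Q, G y ^ 2 ∂μ := integral_nonneg fun y => sq_nonneg _
  rw [e2, mul_pow, e3]
  refine mul_le_mul_of_nonneg_left ?_ (sq_nonneg _)
  exact hcs.trans (mul_le_mul h4 h5 h7 h6)

end L2

end Pool.Agent.U330.COV
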