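import Pool.Agent.U330.COV.Expand

/-!
# From signed sums of `n` vectors to small Rademacher averages (Giesy, James, Pisier)
-/

set_option autoImplicit false

noncomputable section

open Set

namespace Pool.Agent.U330.COV

variable {E : Type*} [AddCommGroup E] [Module ℝ E]

/-- any family of vectors of norm at most one, indexed by `ι`, has a signed sum of norm `≤ ρ` -/
def Signed (ι : Type*) [Fintype ι] (ρ : ℝ) (p : Seminorm ℝ E) : Prop :=
  ∀ y : ι → E, (∀ i, p (y i) ≤ 1) → ∃ e : ι → Bool, p (∑ i, sg (e i) • y i) ≤ ρ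

/-- the bound for the averages of the squares -/
def SqRad (ι : Type*) [Fintype ι] [DecidableEq ι] (b : ℝ) (p : Seminorm ℝ E) : Prop :=
  ∀ y : ι → E, ∑ e : ι → Bool, p (∑ i, sg (e i) • y i) ^ 2 ≤
    2 ^ Fintype.card ι * (b * (Fintype.card ι * ∑ i, p (y i) ^ 2))

lemma sg_abs (b : Bool) : ‖sg b‖ = 1 := by
  cases b <;> simp [sg]

lemma p_sg (p : Seminorm ℝ E) (b : Bool) (v : E) : p (sg b • v) = p v := by
  rw [map_smul_eq_mul, sg_abs, one_mul]

lemma p_signed_le {ι : Type*} [Fintype ι] (p : Seminorm ℝ E) (e : ι → Bool) (y : ι → E) :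
    p (∑ i, sg (e i) • y i) ≤ ∑ i, p (y i) := by
  refine (p_sum_le p _ _).trans (le_of_eq ?_)
  exact Finset.sum_congr rfl fun i _ => p_sg p _ _

/-- **Lemma A** -/
theorem sq_of_signed {ι : Type*} [Fintype ι] [DecidableEq ι] {ρ : ℝ} {p : Seminorm ℝ E}
    (hρ0 : 0 ≤ ρ) (hρ : ρ < Fintype.card ι) (h : Signed ι ρ p) :
    SqRad ι (1 - ((1 - ρ / Fintype.card ι) / 2 ^ (Fintype.card ι + 1)) ^ 2) p := by
  classical
  intro y
  set n : ℕ := Fintype.card ι with hn
  have hn0 : (0 : ℝ) < n := hρ0.trans_lt hρ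
  set r : ℝ := ρ / n with hr
  have hr0 : 0 ≤ r := by positivity
  have hr1 : r < 1 := by rw [hr, div_lt_one hn0]; exact hρ
  set τ : ℝ := (1 - r) / 2 ^ (n + 1) with hτ
  have hτ0 : 0 < τ := div_pos (by linarith) (by positivity)
  have h2n : (1 : ℝ) ≤ 2 ^ n := one_le_pow₀ (by norm_num)
  have hτ2 : τ ≤ (1 - r) / 2 := by
    rw [hτ, pow_succ]
    exact div_le_div_of_nonneg_left (by linarith) (by norm_num) (by linarith)
  have hτ3 : 2 ^ n * τ ^ 2 ≤ 1 - (r + τ) ^ 2 := by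
    have h1 : 2 ^ n * τ = (1 - r) / 2 := by
      rw [hτ, pow_succ]
      field_simp
    have h3 : (r + τ) ^ 2 ≤ r + τ := by nlinarith
    have h4 : 2 ^ n * τ ^ 2 ≤ (1 - r) / 2 * 1 := by
      rw [sq, ← mul_assoc, h1]
      exact mul_le_mul_of_nonneg_left (by linarith) (by linarith)
    linarith
  set s : ℝ := ∑ i, p (y i) ^ 2 with hs
  have hs0 : 0 ≤ s := Finset.sum_nonneg fun i _ => sq_nonneg _
  set t : ℝ := ∑ i, p (y i) with ht
  have ht0 : 0 ≤ t := Finset.sum_nonneg fun i _ => apply_nonneg p _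
  have hts : t ^ 2 ≤ n * s := by
    have := sq_sum_le_card_mul_sum_sq (s := (Finset.univ : Finset ι)) (f := fun i => p (y i))
    rw [Finset.card_univ, ← hn] at this
    exact this
  have hle : ∀ e : ι → Bool, p (∑ i, sg (e i) • y i) ^ 2 ≤ t ^ 2 := fun e =>
    pow_le_pow_left₀ (apply_nonneg p _) (p_signed_le p e y) 2
  have hcardB : (Finset.univ : Finset (ι → Bool)).card = 2 ^ n := by
    rw [Finset.card_univ, Fintype.card_fun, Fintype.card_bool]
  by_cases hcase : t ^ 2 ≤ (1 - τ ^ 2) * (n * s)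
  · refine (Finset.sum_le_sum fun e _ => (hle e).trans hcase).trans (le_of_eq ?_)
    rw [Finset.sum_const, hcardB, nsmul_eq_mul]
    push_cast
    ring
  rw [not_le] at hcase
  -- almost equal norms
  set a : ℝ := t / n with ha
  have ha0 : 0 ≤ a := by positivity
  have hvar : ∑ i, (p (y i) - a) ^ 2 ≤ τ ^ 2 * s := by
    have e1 : ∑ i, (p (y i) - a) ^ 2 = s - n * a ^ 2 := by
      have e2 : ∀ i, (p (y i) - a) ^ 2 = p (y i) ^ 2 - 2 * a * p (y i) + a ^ 2 := fun i => by ring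
      rw [Finset.sum_congr rfl fun i _ => e2 i, Finset.sum_add_distrib, Finset.sum_sub_distrib,
        ← Finset.mul_sum, Finset.sum_const, Finset.card_univ, ← hn, nsmul_eq_mul, ← hs, ← ht, ha]
      field_simp
      ring
    rw [e1]
    have e3 : n * a ^ 2 = t ^ 2 / n := by rw [ha]; field_simp
    rw [e3]
    have h5 : (1 - τ ^ 2) * s ≤ t ^ 2 / n := by
      rw [le_div_iff₀ hn0]
      linarith
    linarith
  have habs : ∑ i, |p (y i) - a| ≤ Real.sqrt (n * s) * τ := by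
    have h6 := sq_sum_le_card_mul_sum_sq (s := (Finset.univ : Finset ι))
      (f := fun i => |p (y i) - a|)
    rw [Finset.card_univ, ← hn] at h6
    simp only [sq_abs] at h6
    have h7 : (∑ i, |p (y i) - a|) ^ 2 ≤ (Real.sqrt (n * s) * τ) ^ 2 := by
      rw [mul_pow, Real.sq_sqrt (by positivity)]
      calc (∑ i, |p (y i) - a|) ^ 2 ≤ n * ∑ i, (p (y i) - a) ^ 2 := h6
        _ ≤ n * (τ ^ 2 * s) := mul_le_mul_of_nonneg_left hvar hn0.le
        _ = n * s * τ ^ 2 := by ring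
    exact (abs_le_of_sq_le_sq' h7 (by positivity)).2
  -- the exceptional sign pattern
  set yh : ι → E := fun i => (p (y i))⁻¹ • y i with hyh
  have hyh1 : ∀ i, p (yh i) ≤ 1 := by
    intro i
    rw [hyh]
    simp only
    rw [map_smul_eq_mul, norm_inv, Real.norm_of_nonneg (apply_nonneg p _)]
    by_cases h0 : p (y i) = 0
    · rw [h0]; simp
    · rw [inv_mul_cancel₀ h0]
  obtain ⟨e₀, he₀⟩ := h yh hyh1
  have hdiff : ∀ i, p (y i - p (y i) • yh i) = 0 := by
    intro i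
    by_cases h0 : p (y i) = 0
    · rw [h0, zero_smul, sub_zero, h0]
    · rw [hyh]
      simp only
      rw [smul_smul, mul_inv_cancel₀ h0, one_smul, sub_self, map_zero]
  have hgood : p (∑ i, sg (e₀ i) • y i) ≤ Real.sqrt (n * s) * (r + τ) := by
    have e1 : ∑ i, sg (e₀ i) • y i = a • ∑ i, sg (e₀ i) • yh i +
        (∑ i, sg (e₀ i) • ((p (y i) - a) • yh i) + ∑ i, sg (e₀ i) • (y i - p (y i) • yh i)) := by
      rw [Finset.smul_sum, ← Finset.sum_add_distrib, ← Finset.sum_add_distrib]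
      refine Finset.sum_congr rfl fun i _ => ?_
      module
    have h1 : p (a • ∑ i, sg (e₀ i) • yh i) ≤ a * ρ := by
      rw [map_smul_eq_mul, Real.norm_of_nonneg ha0]
      exact mul_le_mul_of_nonneg_left he₀ ha0
    have h2 : p (∑ i, sg (e₀ i) • ((p (y i) - a) • yh i)) ≤ ∑ i, |p (y i) - a| := by
      refine (p_sum_le p _ _).trans (Finset.sum_le_sum fun i _ => ?_)
      rw [p_sg, map_smul_eq_mul, Real.norm_eq_abs]
      exact mul_le_of_le_one_right (abs_nonneg _) (hyh1 i)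
    have h3 : p (∑ i, sg (e₀ i) • (y i - p (y i) • yh i)) ≤ 0 := by
      refine (p_sum_le p _ _).trans (le_of_eq ?_)
      refine Finset.sum_eq_zero fun i _ => ?_
      rw [p_sg, hdiff]
    have h4 : a * ρ ≤ Real.sqrt (n * s) * r := by
      have h5 : t ≤ Real.sqrt (n * s) := Real.le_sqrt_of_sq_le hts
      calc a * ρ = t * r := by rw [ha, hr]; ring
        _ ≤ _ := mul_le_mul_of_nonneg_right h5 hr0
    rw [e1]
    refine (map_add_le_add p _ _).trans ?_
    have h6 := map_add_le_add p (∑ i, sg (e₀ i) • ((p (y i) - a) • yh i))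
      (∑ i, sg (e₀ i) • (y i - p (y i) • yh i))
    calc _ ≤ a * ρ + (∑ i, |p (y i) - a| + 0) := by
          refine add_le_add h1 (h6.trans (add_le_add h2 h3))
      _ ≤ Real.sqrt (n * s) * r + (Real.sqrt (n * s) * τ + 0) := by linarith
      _ = _ := by ring
  have hgood2 : p (∑ i, sg (e₀ i) • y i) ^ 2 ≤ n * s * (r + τ) ^ 2 := by
    have := pow_le_pow_left₀ (apply_nonneg p _) hgood 2
    rwa [mul_pow, Real.sq_sqrt (by positivity)] at this
  rw [← Finset.add_sum_erase _ _ (Finset.mem_univ e₀)]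
  have hrest : ∑ e ∈ Finset.univ.erase e₀, p (∑ i, sg (e i) • y i) ^ 2 ≤
      (2 ^ n - 1) * (n * s) := by
    refine (Finset.sum_le_sum fun e _ => (hle e).trans hts).trans (le_of_eq ?_)
    rw [Finset.sum_const, Finset.card_erase_of_mem (Finset.mem_univ _), hcardB, nsmul_eq_mul,
      Nat.cast_sub Nat.one_le_two_pow]
    push_cast
    ring
  have hns : 0 ≤ (n : ℝ) * s := by positivity
  have := mul_le_mul_of_nonneg_left hτ3 hns
  calc p (∑ i, sg (e₀ i) • y i) ^ 2 + ∑ e ∈ Finset.univ.erase e₀, p (∑ i, sg (e i) • y i) ^ 2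
      ≤ n * s * (r + τ) ^ 2 + (2 ^ n - 1) * (n * s) := add_le_add hgood2 hrest
    _ ≤ 2 ^ n * ((1 - τ ^ 2) * (n * s)) := by linarith

/-- change of signs -/
def flip {ι : Type*} (c : ι → Bool) : (ι → Bool) ≃ (ι → Bool) :=
  Equiv.piCongrRight fun i => if c i then Equiv.refl Bool else Equiv.boolNot

lemma sg_flip {ι : Type*} (c e : ι → Bool) (i : ι) : sg (flip c e i) = sg (c i) * sg (e i) := by
  unfold flip
  simp only [Equiv.piCongrRight_apply, Pi.map_apply]
  by_cases h : c i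
  · simp [h, sg]
  · cases h2 : e i <;> simp [h, sg]

/-- **Lemma B**, submultiplicativity -/
theorem sq_prod {ι κ : Type*} [Fintype ι] [DecidableEq ι] [Fintype κ] [DecidableEq κ] {b b' : ℝ}
    (hb : 0 ≤ b) {p : Seminorm ℝ E} (h : SqRad ι b p) (h' : SqRad κ b' p) :
    SqRad (ι × κ) (b * b') p := by
  classical
  intro y
  rw [Fintype.card_prod]
  set n := Fintype.card ι with hn
  set m := Fintype.card κ with hm
  -- the bound for product signs
  have key : ∀ z : ι × κ → E, ∑ f : κ → Bool, ∑ g : ι → Bool,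
      p (∑ x : ι × κ, (sg (g x.1) * sg (f x.2)) • z x) ^ 2 ≤
        2 ^ n * 2 ^ m * (b * b' * ((n * m : ℝ) * ∑ x, p (z x) ^ 2)) := by
    intro z
    have e1 : ∀ (f : κ → Bool) (g : ι → Bool),
        ∑ x : ι × κ, (sg (g x.1) * sg (f x.2)) • z x =
          ∑ i, sg (g i) • ∑ j, sg (f j) • z (i, j) := by
      intro f g
      rw [Fintype.sum_prod_type]
      refine Finset.sum_congr rfl fun i _ => ?_
      rw [Finset.smul_sum]
      refine Finset.sum_congr rfl fun j _ => ?_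
      rw [smul_smul]
    simp_rw [e1]
    calc ∑ f : κ → Bool, ∑ g : ι → Bool, p (∑ i, sg (g i) • ∑ j, sg (f j) • z (i, j)) ^ 2
        ≤ ∑ f : κ → Bool, 2 ^ n * (b * (n * ∑ i, p (∑ j, sg (f j) • z (i, j)) ^ 2)) :=
          Finset.sum_le_sum fun f _ => h (fun i => ∑ j, sg (f j) • z (i, j))
      _ = 2 ^ n * (b * (n * ∑ i, ∑ f : κ → Bool, p (∑ j, sg (f j) • z (i, j)) ^ 2)) := by
          rw [← Finset.mul_sum, ← Finset.mul_sum, ← Finset.mul_sum, Finset.sum_comm]
      _ ≤ 2 ^ n * (b * (n * ∑ i, 2 ^ m * (b' * (m * ∑ j, p (z (i, j)) ^ 2)))) := by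
          gcongr with i _
          exact h' (fun j => z (i, j))
      _ = _ := by
          rw [← Finset.mul_sum, ← Finset.mul_sum, ← Finset.mul_sum, Fintype.sum_prod_type]
          ring
  -- averaging over all signs
  have hsum : 2 ^ n * 2 ^ m * ∑ e : ι × κ → Bool, p (∑ x, sg (e x) • y x) ^ 2 ≤
      2 ^ n * 2 ^ m * (2 ^ (n * m) * (b * b' * ((n * m : ℝ) * ∑ x, p (y x) ^ 2))) := by
    have e1 : ∑ f : κ → Bool, ∑ g : ι → Bool, ∑ e : ι × κ → Bool,
        p (∑ x : ι × κ, (sg (g x.1) * sg (f x.2)) • (sg (e x) • y x)) ^ 2 =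
        2 ^ n * 2 ^ m * ∑ e : ι × κ → Bool, p (∑ x, sg (e x) • y x) ^ 2 := by
      have e2 : ∀ (f : κ → Bool) (g : ι → Bool), ∑ e : ι × κ → Bool,
          p (∑ x : ι × κ, (sg (g x.1) * sg (f x.2)) • (sg (e x) • y x)) ^ 2 =
          ∑ e : ι × κ → Bool, p (∑ x, sg (e x) • y x) ^ 2 := by
        intro f g
        rw [← (flip (fun x : ι × κ => (g x.1 == f x.2))).sum_comp
          (fun e => p (∑ x, sg (e x) • y x) ^ 2)]
        refine Finset.sum_congr rfl fun e _ => ?_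
        congr 2
        refine Finset.sum_congr rfl fun x _ => ?_
        rw [sg_flip, smul_smul]
        congr 2
        cases g x.1 <;> cases f x.2 <;> simp [sg]
      rw [Finset.sum_congr rfl fun f _ => Finset.sum_congr rfl fun g _ => e2 f g]
      rw [Finset.sum_const, Finset.sum_const, Finset.card_univ, Finset.card_univ,
        Fintype.card_fun, Fintype.card_fun, Fintype.card_bool, nsmul_eq_mul, nsmul_eq_mul,
        ← hn, ← hm]
      push_cast
      ring
    rw [← e1]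
    have e3 : ∑ f : κ → Bool, ∑ g : ι → Bool, ∑ e : ι × κ → Bool,
        p (∑ x : ι × κ, (sg (g x.1) * sg (f x.2)) • (sg (e x) • y x)) ^ 2 =
        ∑ e : ι × κ → Bool, ∑ f : κ → Bool, ∑ g : ι → Bool,
        p (∑ x : ι × κ, (sg (g x.1) * sg (f x.2)) • (sg (e x) • y x)) ^ 2 := by
      rw [Finset.sum_congr rfl fun f _ => Finset.sum_comm]
      exact Finset.sum_comm
    rw [e3]
    refine (Finset.sum_le_sum fun e _ => key (fun x => sg (e x) • y x)).trans (le_of_eq ?_)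
    simp_rw [p_sg]
    rw [Finset.sum_const, Finset.card_univ, Fintype.card_fun, Fintype.card_bool,
      Fintype.card_prod, nsmul_eq_mul, ← hn, ← hm]
    push_cast
    ring
  have hpos : (0 : ℝ) < 2 ^ n * 2 ^ m := by positivity
  have := le_of_mul_le_mul_left hsum hpos
  push_cast
  exact this

lemma sq_equiv {ι κ : Type*} [Fintype ι] [DecidableEq ι] [Fintype κ] [DecidableEq κ] {b : ℝ}
    (f : ι ≃ κ) {p : Seminorm ℝ E} (h : SqRad ι b p) : SqRad κ b p := by
  intro y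
  have h1 := h (fun i => y (f i))
  rw [Fintype.card_congr f, f.sum_comp (fun j => p (y j) ^ 2)] at h1
  refine le_trans (le_of_eq ?_) h1
  rw [← (Equiv.arrowCongr f (Equiv.refl Bool)).sum_comp]
  refine Finset.sum_congr rfl fun e _ => ?_
  congr 2
  rw [← f.sum_comp]
  refine Finset.sum_congr rfl fun i _ => ?_
  simp [Equiv.arrowCongr]

/-- powers -/
theorem sq_pow {n : ℕ} {b : ℝ} (hb : 0 ≤ b) {p : Seminorm ℝ E} (h : SqRad (Fin n) b p) (k : ℕ) :
    SqRad (Fin (n ^ (k + 1))) (b ^ (k + 1)) p := by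
  induction k with
  | zero =>
    rw [zero_add, pow_one, pow_one]
    exact h
  | succ k ih =>
    have h1 := sq_prod (pow_nonneg hb (k + 1)) ih h
    rw [pow_succ b (k + 1)]
    refine sq_equiv ?_ h1
    exact finProdFinEquiv.trans (finCongr (pow_succ n (k + 1)).symm)

/-- **small Rademacher averages** of many vectors -/
theorem exists_N {ι : Type*} [Fintype ι] [DecidableEq ι] {ρ κ : ℝ} (h2 : 2 ≤ Fintype.card ι)
    (hρ : ρ < Fintype.card ι) (hκ : 0 < κ) :
    ∃ N : ℕ, 2 ≤ N ∧ ∀ (E : Type*) [AddCommGroup E] [Module ℝ E] (p : Seminorm ℝ E),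
      Signed ι ρ p → ∀ y : Fin N → E, (∀ i, p (y i) ≤ 1) →
        ∑ e : Fin N → Bool, p (∑ i, sg (e i) • y i) ≤ 2 ^ N * (N / (8 * κ)) := by
  classical
  rcases lt_or_ge ρ 0 with hneg | hρ0
  · refine ⟨2, le_rfl, fun E _ _ p h => ?_⟩
    obtain ⟨e, he⟩ := h (fun _ => 0) (fun _ => by simp)
    have := (apply_nonneg p _).trans he
    linarith
  set n : ℕ := Fintype.card ι with hn
  have hn0 : (0 : ℝ) < n := by exact_mod_cast (by omega : 0 < n)
  set τ : ℝ := (1 - ρ / n) / 2 ^ (n + 1) with hτ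
  have hr1 : ρ / n < 1 := by rw [div_lt_one hn0]; exact hρ
  have hr0 : 0 ≤ ρ / n := by positivity
  have hτ0 : 0 < τ := div_pos (by linarith) (by positivity)
  have hτ1 : τ ≤ 1 := by
    rw [hτ, div_le_one (by positivity)]
    have : (1 : ℝ) ≤ 2 ^ (n + 1) := one_le_pow₀ (by norm_num)
    linarith
  set b : ℝ := 1 - τ ^ 2 with hb
  have hb0 : 0 ≤ b := by rw [hb]; nlinarith
  have hb1 : b < 1 := by rw [hb]; nlinarith [sq_pos_of_pos hτ0]
  obtain ⟨k, hk⟩ := ((tendsto_pow_atTop_nhds_zero_of_lt_one hb0 hb1).eventually_le_const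
    (show (0 : ℝ) < (1 / (8 * κ)) ^ 2 by positivity)).exists
  obtain ⟨N, hN⟩ : ∃ N : ℕ, N = n ^ (k + 1) := ⟨_, rfl⟩
  refine ⟨N, ?_, fun E _ _ p h y hy => ?_⟩
  · calc 2 ≤ n := h2
      _ = n ^ 1 := (pow_one n).symm
      _ ≤ n ^ (k + 1) := Nat.pow_le_pow_right (by omega) (by omega)
      _ = N := hN.symm
  have h3 : SqRad (Fin n) b p := sq_equiv (Fintype.equivFin ι) (sq_of_signed hρ0 hρ h)
  have h4' : SqRad (Fin N) (b ^ (k + 1)) p := by
    rw [hN]
    exact sq_pow hb0 h3 k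
  have h4 := h4' y
  rw [Fintype.card_fin] at h4
  have h5 := sq_sum_le_card_mul_sum_sq (s := (Finset.univ : Finset (Fin N → Bool)))
    (f := fun e => p (∑ i, sg (e i) • y i))
  rw [Finset.card_univ, Fintype.card_fun, Fintype.card_bool, Fintype.card_fin] at h5
  have h6 : ∑ i, p (y i) ^ 2 ≤ N := by
    calc ∑ i, p (y i) ^ 2 ≤ ∑ _i : Fin N, (1 : ℝ) := Finset.sum_le_sum fun i _ => by
          have := hy i
          have := apply_nonneg p (y i)
          nlinarith
      _ = N := by simp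
  have h7 : b ^ (k + 1) ≤ (1 / (8 * κ)) ^ 2 :=
    (pow_le_pow_of_le_one hb0 hb1.le (Nat.le_succ k)).trans hk
  have h8 : (∑ e : Fin N → Bool, p (∑ i, sg (e i) • y i)) ^ 2 ≤ (2 ^ N * (N / (8 * κ))) ^ 2 := by
    refine h5.trans ?_
    push_cast
    calc (2 : ℝ) ^ N * ∑ e : Fin N → Bool, p (∑ i, sg (e i) • y i) ^ 2
        ≤ 2 ^ N * (2 ^ N * (b ^ (k + 1) * (N * ∑ i, p (y i) ^ 2))) := by gcongr
      _ ≤ 2 ^ N * (2 ^ N * ((1 / (8 * κ)) ^ 2 * (N * N))) := by gcongr
      _ = _ := by ring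
  exact (abs_le_of_sq_le_sq' h8 (by positivity)).2

end Pool.Agent.U330.COV
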